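import Mathlib

set_option autoImplicit false

namespace Pool.Agent.H107.NF

open NumberField IsDedekindDomain

/-- number fields are countable -/
theorem countable_nf (K : Type) [Field K] [NumberField K] : Countable K := by
  have e := (Module.finBasis ℚ K).equivFun
  exact e.toEquiv.injective.countable

/-- a number field has countably many prime ideals -/
theorem countable_hos (K : Type) [Field K] [NumberField K] : Countable (HeightOneSpectrum (𝓞 K)) := by
  have h : (Set.univ : Set (HeightOneSpectrum (𝓞 K))) =
      ⋃ n : ℕ, {v | Ideal.absNorm v.asIdeal = n} := by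
    ext v
    simp
  rw [← Set.countable_univ_iff, h]
  refine Set.countable_iUnion fun n => Set.Finite.countable ?_
  have hinj : Function.Injective (fun v : HeightOneSpectrum (𝓞 K) => v.asIdeal) := by
    intro v w hvw
    exact HeightOneSpectrum.ext hvw
  refine Set.Finite.of_finite_image ((Ideal.finite_setOfPred_absNorm_eq (S := 𝓞 K) n).subset ?_) hinj.injOn
  rintro I ⟨v, hv, rfl⟩
  exact hv

end Pool.Agent.H107.NF
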