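import Pool.Agent.H107.MetricFam
import Pool.Agent.H107.NFCount
import Pool.Agent.Results.MP_a793bb_nt.ExceptionalPointsNumberFields

set_option autoImplicit false

/-! Points `(y : 1 - y : -1)` over a number field which violate the abc inequality. -/

namespace Pool.Agent.H107.AbcNF

open NumberField IsDedekindDomain
open Pool.Agent.Results.MP_a793bb_nt.ExceptionalPointsNumberFields (height rad Exceptions)

variable {K : Type} [Field K] [NumberField K]

/-- coordinates of the point `(y : 1 - y : -1)` -/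
def pt (y : K) : Fin 3 → K := ![y, 1 - y, -1]

lemma pt_ne (y : K) : pt y ≠ 0 := fun h => by
  have h2 := congrFun h 2
  simp [pt] at h2

lemma height_nonneg (y : K) : 0 ≤ height (pt y) := by
  unfold height
  apply div_nonneg _ (Nat.cast_nonneg _)
  apply add_nonneg
  · apply Finset.sum_nonneg
    intro w _
    apply mul_nonneg (Nat.cast_nonneg _)
    apply Real.log_nonneg
    refine le_trans ?_ ((le_max_right _ _).trans (le_max_right _ _))
    have h1 : w (-1) = 1 := by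
      show w.1 (-1) = 1
      rw [AbsoluteValue.map_neg, map_one]
    simp [pt, h1]
  · apply finsum_nonneg
    intro v
    apply Real.log_nonneg
    refine le_trans ?_ ((le_max_right _ _).trans (le_max_right _ _))
    simp [pt]

/-- the exceptional `y` -/
def Exc (T : Set (HeightOneSpectrum (𝓞 K))) (c₀ : ℝ) : Set K :=
  {y | y ≠ 0 ∧ y ≠ 1 ∧ rad T (pt y) ≤ height (pt y) + c₀}

lemma mk_inj : Function.Injective (fun y : K => Projectivization.mk K (pt y) (pt_ne y)) := by
  intro y z h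
  simp only at h
  rw [Projectivization.mk_eq_mk_iff'] at h
  obtain ⟨a, ha⟩ := h
  have h2 := congrFun ha 2
  have h0 := congrFun ha 0
  simp [pt] at h2 h0
  subst h2
  rw [one_mul] at h0
  exact h0.symm

lemma count (T : Set (HeightOneSpectrum (𝓞 K))) (hT : T.Finite) (c₀ ε : ℝ) (hε : 0 < ε) :
    ∃ C : ℝ, ∀ X : ℝ, 1 ≤ X →
      {y | y ∈ Exc T c₀ ∧ Real.exp (height (pt y)) ≤ X}.Finite ∧
      ({y | y ∈ Exc T c₀ ∧ Real.exp (height (pt y)) ≤ X}.ncard : ℝ) ≤
        C * X ^ ((Module.finrank ℚ K : ℝ) * (20 / 37) + ε) := by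
  obtain ⟨C, hC⟩ :=
    Pool.Agent.Results.MP_a793bb_nt.ExceptionalPointsNumberFields.result K T hT c₀ ε hε
  refine ⟨C, fun X hX => ?_⟩
  obtain ⟨h1, h2⟩ := hC X hX
  have hsub : (fun y : K => Projectivization.mk K (pt y) (pt_ne y)) ''
      {y | y ∈ Exc T c₀ ∧ Real.exp (height (pt y)) ≤ X} ⊆ Exceptions T c₀ X := by
    rintro P ⟨y, ⟨⟨g1, g2, g3⟩, g4⟩, rfl⟩
    refine ⟨pt y, pt_ne y, rfl, ?_, ?_, g4, g3⟩
    · simp [pt]
    · have g5 : 1 - y ≠ 0 := sub_ne_zero.2 (Ne.symm g2)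
      simp [pt, g1, g5]
  refine ⟨Set.Finite.of_finite_image (h1.subset hsub) mk_inj.injOn, ?_⟩
  rw [← Set.ncard_image_of_injective _ mk_inj]
  exact (Nat.cast_le.2 (Set.ncard_le_ncard hsub h1)).trans h2

/-- the parameters: a finite set of primes and a natural number -/
abbrev J (K : Type) [Field K] [NumberField K] := Finset (HeightOneSpectrum (𝓞 K)) × ℕ

instance : Countable (J K) := by
  have := Pool.Agent.H107.NF.countable_hos K
  infer_instance

lemma rpow_exp (a σ : ℝ) : (Real.exp a) ^ (-σ) = Real.exp (-(σ * a)) := by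
  rw [← Real.exp_mul]
  congr 1
  ring

/-- near a point of a metric space -/
theorem approx {M : Type*} [MetricSpace M] (φ : K → M) {σ : ℝ} (hσ : 0 < σ) :
    ∃ E : Set M, dimH E ≤ ENNReal.ofReal ((Module.finrank ℚ K : ℝ) * (20 / 37) / σ) ∧ ∀ z ∉ E,
      ∀ T : Set (HeightOneSpectrum (𝓞 K)), T.Finite → ∀ c₀ : ℝ,
        {y : K | y ≠ 0 ∧ y ≠ 1 ∧ dist (φ y) z ≤ Real.exp (-(σ * height (pt y))) ∧
          rad T (pt y) ≤ height (pt y) + c₀}.Finite := by
  obtain ⟨E, hE1, hE2⟩ := Pool.Agent.H107.ME.dim_family φ (fun y : K => Real.exp (height (pt y)))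
    (fun y => Real.one_le_exp (height_nonneg y)) (s := (Module.finrank ℚ K : ℝ) * (20 / 37))
    (by positivity) hσ (J := J K) (fun j => Exc (j.1 : Set (HeightOneSpectrum (𝓞 K))) j.2)
    (fun j ε hε => count _ j.1.finite_toSet _ ε hε)
  refine ⟨E, hE1, fun z hz T hT c₀ => ?_⟩
  obtain ⟨k, hk⟩ := exists_nat_ge c₀
  refine (hE2 z hz (hT.toFinset, k)).subset ?_
  rintro y ⟨g1, g2, g3, g4⟩
  refine ⟨⟨g1, g2, ?_⟩, ?_⟩
  · rw [Set.Finite.coe_toFinset]
    linarith
  · rw [rpow_exp]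
    exact g3

/-- near almost every real number -/
theorem approx_ae (φ : K → ℝ) :
    ∀ᵐ z : ℝ, ∀ σ : ℝ, (Module.finrank ℚ K : ℝ) * (20 / 37) < σ →
      ∀ T : Set (HeightOneSpectrum (𝓞 K)), T.Finite → ∀ c₀ : ℝ,
        {y : K | y ≠ 0 ∧ y ≠ 1 ∧ |φ y - z| ≤ Real.exp (-(σ * height (pt y))) ∧
          rad T (pt y) ≤ height (pt y) + c₀}.Finite := by
  have h := Pool.Agent.H107.ME.ae_family φ (fun y : K => Real.exp (height (pt y)))
    (fun y => Real.one_le_exp (height_nonneg y)) (s := (Module.finrank ℚ K : ℝ) * (20 / 37))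
    (by positivity) (J := J K) (fun j => Exc (j.1 : Set (HeightOneSpectrum (𝓞 K))) j.2)
    (fun j ε hε => count _ j.1.finite_toSet _ ε hε)
  filter_upwards [h] with z hz σ hσ T hT c₀
  obtain ⟨k, hk⟩ := exists_nat_ge c₀
  refine (hz σ hσ (hT.toFinset, k)).subset ?_
  rintro y ⟨g1, g2, g3, g4⟩
  refine ⟨⟨g1, g2, ?_⟩, ?_⟩
  · rw [Set.Finite.coe_toFinset]
    linarith
  · rw [rpow_exp]
    exact g3

end Pool.Agent.H107.AbcNF
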