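import Pool.Agent.H107.EpsZero

set_option autoImplicit false

/-! Countably many families of exceptional sets; levels of size `X ^ ε`. -/

namespace Pool.Agent.H107.ME

/-- countably many nested sequences of exceptional sets, with their own heights and maps -/
theorem dim_zero_countable {P M ι : Type*} [MetricSpace M] [Countable ι] (φ : ι → P → M) (h : ι → P → ℝ)
    (h1 : ∀ i t, 1 ≤ h i t) (S : ι → ℕ → Set P)
    (hC : ∀ i, ∀ ε : ℝ, 0 < ε → ∃ R : ℕ, ∃ C : ℝ, ∀ X : ℝ, 1 ≤ X →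
      {t | t ∈ S i R ∧ h i t ≤ X}.Finite ∧ ({t | t ∈ S i R ∧ h i t ≤ X}.ncard : ℝ) ≤ C * X ^ ε) :
    ∃ E : Set M, dimH E = 0 ∧ ∀ z ∉ E, ∀ i, ∀ σ : ℝ, 0 < σ → ∃ R : ℕ,
      {t | t ∈ S i R ∧ dist (φ i t) z ≤ (h i t) ^ (-σ)}.Finite := by
  choose E hE0 hE using fun i => dim_zero (φ i) (h i) (h1 i) (S i) (hC i)
  refine ⟨⋃ i, E i, ?_, fun z hz i σ hσ => ?_⟩
  · rw [dimH_iUnion]
    refine le_antisymm (iSup_le fun i => (hE0 i).le) bot_le
  · exact hE i z (fun h => hz (Set.mem_iUnion.2 ⟨i, h⟩)) σ hσ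

/-- countably many exceptional sets -/
theorem eps_zero_countable {P M ι : Type*} [MetricSpace M] [Countable ι] (φ : P → M) (h : P → ℝ)
    (h1 : ∀ t, 1 ≤ h t) (S : ι → Set P)
    (hC : ∀ i, ∀ ε : ℝ, 0 < ε → ∃ C : ℝ, ∀ X : ℝ, 1 ≤ X →
      {t | t ∈ S i ∧ h t ≤ X}.Finite ∧ ({t | t ∈ S i ∧ h t ≤ X}.ncard : ℝ) ≤ C * X ^ ε) :
    ∃ E : Set M, dimH E = 0 ∧ ∀ z ∉ E, ∀ i, ∀ w : ℝ, 0 < w →
      {t | t ∈ S i ∧ dist (φ t) z ≤ (h t) ^ (-w)}.Finite := by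
  choose E hE0 hE using fun i => eps_zero φ h h1 (S i) (hC i)
  refine ⟨⋃ i, E i, ?_, fun z hz i w hw => ?_⟩
  · rw [dimH_iUnion]
    refine le_antisymm (iSup_le fun i => (hE0 i).le) bot_le
  · exact hE i z (fun h => hz (Set.mem_iUnion.2 ⟨i, h⟩)) w hw

/-- levels `N = O(B ^ e)` for all members of height at most `B` with `O(B ^ e)` exceptions: the members `y` without a
level `N ≤ R * h(y) ^ δ` -/
theorem levels {P : Type*} (h : P → ℝ) (h1 : ∀ t, 1 ≤ h t) (Q : ℕ → P → Prop)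
    (hQ : ∀ e : ℝ, 0 < e → ∃ C : ℝ, ∀ B : ℝ, 1 ≤ B → ∃ N : ℕ, 1 ≤ N ∧ (N : ℝ) ≤ C * B ^ e ∧
      ∃ Z : Finset P, (Z.card : ℝ) ≤ C * B ^ e ∧ ∀ y, h y ≤ B → y ∉ Z → Q N y)
    {δ : ℝ} (hδ : 0 < δ) (ε : ℝ) (hε : 0 < ε) : ∃ R : ℕ, ∃ C : ℝ, ∀ X : ℝ, 1 ≤ X →
      {t | t ∈ {y | ¬ ∃ N : ℕ, 1 ≤ N ∧ (N : ℝ) ≤ R * (h y) ^ δ ∧ Q N y} ∧ h t ≤ X}.Finite ∧
      ({t | t ∈ {y | ¬ ∃ N : ℕ, 1 ≤ N ∧ (N : ℝ) ≤ R * (h y) ^ δ ∧ Q N y} ∧ h t ≤ X}.ncard : ℝ) ≤ C * X ^ ε := by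
  classical
  set e : ℝ := min δ (ε / 2) with he
  have he0 : 0 < e := lt_min hδ (by linarith)
  have heδ : e ≤ δ := min_le_left _ _
  have heε : 2 * e ≤ ε := by
    have := min_le_right δ (ε / 2)
    linarith
  obtain ⟨C, hC⟩ := hQ e he0
  have hC1 : 1 ≤ C := by
    obtain ⟨N, g1, g2, -⟩ := hC 1 le_rfl
    rw [Real.one_rpow, mul_one] at g2
    have : (1 : ℝ) ≤ N := by exact_mod_cast g1
    linarith
  have hpow : ∀ j : ℕ, (1 : ℝ) ≤ 2 ^ (j + 1) := fun j => one_le_pow₀ (by norm_num)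
  choose N hN1 hN2 Z hZ hQZ using fun j : ℕ => hC (2 ^ (j + 1)) (hpow j)
  set a : ℝ := (2 : ℝ) ^ e - 1 with ha
  have ha0 : 0 < a := by
    have := Real.one_lt_rpow (by norm_num : (1 : ℝ) < 2) he0
    linarith
  have h2e : (1 : ℝ) ≤ 2 ^ e := by linarith
  refine ⟨⌈C * 2 ^ e⌉₊, (1 / a + 1) * (C * 2 ^ e), fun X hX => ?_⟩
  obtain ⟨J, hJ1, hJ2⟩ := exists_nat_pow_near hX (by norm_num : (1 : ℝ) < 2)
  set T := {t | t ∈ {y | ¬ ∃ N : ℕ, 1 ≤ N ∧ (N : ℝ) ≤ (⌈C * 2 ^ e⌉₊ : ℕ) * (h y) ^ δ ∧ Q N y} ∧ h t ≤ X} with hT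
  have hsub : T ⊆ ((Finset.range (J + 1)).biUnion Z : Finset P) := by
    rintro y ⟨hy, hyX⟩
    obtain ⟨j, hj1, hj2⟩ := exists_nat_pow_near (h1 y) (by norm_num : (1 : ℝ) < 2)
    have hjJ : j < J + 1 := by
      by_contra hcon
      have h3 : (2 : ℝ) ^ (J + 1) ≤ 2 ^ j := pow_le_pow_right₀ (by norm_num) (by omega)
      linarith
    rw [Finset.mem_coe, Finset.mem_biUnion]
    refine ⟨j, Finset.mem_range.2 hjJ, ?_⟩
    by_contra hyZ
    apply hy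
    refine ⟨N j, hN1 j, ?_, hQZ j y hj2.le hyZ⟩
    refine (hN2 j).trans ?_
    have h4 : ((2 : ℝ) ^ (j + 1)) ^ e = (2 : ℝ) ^ e * ((2 : ℝ) ^ j) ^ e := by
      rw [pow_succ, Real.mul_rpow (by positivity) (by norm_num), mul_comm]
    rw [h4, ← mul_assoc]
    have h5 : ((2 : ℝ) ^ j) ^ e ≤ (h y) ^ δ :=
      (Real.rpow_le_rpow (by positivity) hj1 he0.le).trans (Real.rpow_le_rpow_of_exponent_le (h1 y) heδ)
    exact mul_le_mul (Nat.le_ceil _) h5 (by positivity) (Nat.cast_nonneg _)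
  have hfin : T.Finite := (Finset.finite_toSet _).subset hsub
  refine ⟨hfin, ?_⟩
  have hJe : ((2 : ℝ) ^ e) ^ J ≤ X ^ e := by
    rw [← Real.rpow_natCast, ← Real.rpow_mul (by norm_num), mul_comm, Real.rpow_mul (by norm_num), Real.rpow_natCast]
    exact Real.rpow_le_rpow (by positivity) hJ1 he0.le
  have hcard : (T.ncard : ℝ) ≤ ((J : ℝ) + 1) * (C * 2 ^ e * X ^ e) := by
    have g1 := Set.ncard_le_ncard hsub (Finset.finite_toSet _)
    rw [Set.ncard_coe_finset] at g1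
    have g2 : (T.ncard : ℝ) ≤ ∑ j ∈ Finset.range (J + 1), ((Z j).card : ℝ) := by
      have := g1.trans Finset.card_biUnion_le
      exact_mod_cast this
    refine g2.trans ?_
    have g3 : ∀ j ∈ Finset.range (J + 1), ((Z j).card : ℝ) ≤ C * 2 ^ e * X ^ e := by
      intro j hj
      rw [Finset.mem_range] at hj
      refine (hZ j).trans ?_
      rw [mul_assoc]
      refine mul_le_mul_of_nonneg_left ?_ (by linarith)
      rw [← Real.mul_rpow (by norm_num) (by linarith)]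
      refine Real.rpow_le_rpow (by positivity) ?_ he0.le
      rw [pow_succ, mul_comm]
      have : (2 : ℝ) ^ j ≤ 2 ^ J := pow_le_pow_right₀ (by norm_num) (by omega)
      linarith
    calc ∑ j ∈ Finset.range (J + 1), ((Z j).card : ℝ) ≤ ∑ _j ∈ Finset.range (J + 1), C * 2 ^ e * X ^ e :=
          Finset.sum_le_sum g3
      _ = _ := by
          rw [Finset.sum_const, Finset.card_range, nsmul_eq_mul]
          push_cast
          ring
  refine hcard.trans ?_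
  have hbern : (J : ℝ) + 1 ≤ (1 / a + 1) * ((2 : ℝ) ^ e) ^ J := by
    have h6 := one_add_mul_le_pow (show (-2 : ℝ) ≤ a by linarith) J
    have h7 : 1 + a = (2 : ℝ) ^ e := by rw [ha]; ring
    rw [h7] at h6
    have h8 : (1 : ℝ) ≤ ((2 : ℝ) ^ e) ^ J := one_le_pow₀ h2e
    have h9 : (J : ℝ) ≤ 1 / a * ((2 : ℝ) ^ e) ^ J := by
      rw [one_div, inv_mul_eq_div, le_div_iff₀ ha0]
      nlinarith
    linarith
  have hX0 : 0 < X := by linarith
  calc ((J : ℝ) + 1) * (C * 2 ^ e * X ^ e) ≤ ((1 / a + 1) * X ^ e) * (C * 2 ^ e * X ^ e) := by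
        refine mul_le_mul_of_nonneg_right (hbern.trans (mul_le_mul_of_nonneg_left hJe (by positivity))) ?_
        have : 0 ≤ C := by linarith
        positivity
    _ = (1 / a + 1) * (C * 2 ^ e) * X ^ (2 * e) := by
        rw [two_mul, Real.rpow_add hX0]
        ring
    _ ≤ (1 / a + 1) * (C * 2 ^ e) * X ^ ε := by
        refine mul_le_mul_of_nonneg_left (Real.rpow_le_rpow_of_exponent_le hX heε) ?_
        have : 0 ≤ C := by linarith
        positivity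

end Pool.Agent.H107.ME
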