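import Pool.Agent.H107.AbcWin
import Pool.Agent.H107.EpsZero2
import Pool.Agent.Y913.Wm.Pr

set_option autoImplicit false

/-! abc triples ordered by their radical: near points and windows. -/

namespace Pool.Agent.H107.AbcRad

open Pool.Agent.H107.AbcWin

/-- `rad (abc)` -/
noncomputable def rd (t : ℕ × ℕ × ℕ) : ℝ := (R (t.1 * t.2.1 * t.2.2) : ℝ)

lemma one_le_rd (t : ℕ × ℕ × ℕ) : 1 ≤ rd t := by
  have : 1 ≤ R (t.1 * t.2.1 * t.2.2) := Finset.prod_pos (fun _ h => (Nat.prime_of_mem_primeFactors h).pos)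
  unfold rd
  exact_mod_cast this

lemma F_le {lam : ℝ} (_h0 : 0 < lam) (h1 : lam ≤ 1) : F lam ≤ 4 * lam / 7 := by
  unfold F
  split_ifs <;> linarith

/-- the triples with `rad (abc) ≤ B c` and `c ≤ rad (abc) ^ A` -/
def Mid (A B : ℝ) : Set (ℕ × ℕ × ℕ) := {t | t ∈ Exc B 1 ∧ ((t.2.2 : ℕ) : ℝ) ≤ rd t ^ A}

theorem count_mid (A B : ℝ) (ε : ℝ) (hε : 0 < ε) : ∃ C : ℝ, ∀ X : ℝ, 1 ≤ X →
    {t | t ∈ Mid A B ∧ rd t ≤ X}.Finite ∧ ({t | t ∈ Mid A B ∧ rd t ≤ X}.ncard : ℝ) ≤ C * X ^ (4 / 7 + ε) := by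
  set η := 7 * ε / 8 with hη
  have hη0 : 0 < η := by positivity
  have key : ∀ n : ℕ, ∃ C : ℝ, 0 ≤ C ∧ ∀ X : ℝ, 1 ≤ X →
      {t | t ∈ Exc B 1 ∧ rd t ≤ X ∧ ((t.2.2 : ℕ) : ℝ) ≤ X ^ ((1 + η) ^ n)}.Finite ∧
      ({t | t ∈ Exc B 1 ∧ rd t ≤ X ∧ ((t.2.2 : ℕ) : ℝ) ≤ X ^ ((1 + η) ^ n)}.ncard : ℝ) ≤ C * X ^ (4 / 7 + ε) := by
    intro n
    induction n with
    | zero =>
      obtain ⟨C, hC⟩ := count 1 B one_pos ε hε
      refine ⟨|C|, abs_nonneg _, fun X hX => ?_⟩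
      obtain ⟨g1, g2⟩ := hC X hX
      have hsub : {t | t ∈ Exc B 1 ∧ rd t ≤ X ∧ ((t.2.2 : ℕ) : ℝ) ≤ X ^ ((1 + η) ^ 0)} ⊆
          {t | t ∈ Exc B 1 ∧ ((t.2.2 : ℕ) : ℝ) ≤ X} := by
        rintro t ⟨h1, -, h3⟩
        rw [pow_zero, Real.rpow_one] at h3
        exact ⟨h1, h3⟩
      refine ⟨g1.subset hsub, ?_⟩
      have h4 : ({t | t ∈ Exc B 1 ∧ rd t ≤ X ∧ ((t.2.2 : ℕ) : ℝ) ≤ X ^ ((1 + η) ^ 0)}.ncard : ℝ) ≤
          ({t | t ∈ Exc B 1 ∧ ((t.2.2 : ℕ) : ℝ) ≤ X}.ncard : ℝ) := by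
        exact_mod_cast Set.ncard_le_ncard hsub g1
      refine h4.trans (g2.trans ?_)
      have h5 : F 1 ≤ 4 / 7 := by
        have := F_le one_pos le_rfl
        linarith
      calc C * X ^ (F 1 + ε) ≤ |C| * X ^ (F 1 + ε) :=
            mul_le_mul_of_nonneg_right (le_abs_self C) (Real.rpow_nonneg (by linarith) _)
        _ ≤ |C| * X ^ (4 / 7 + ε) :=
            mul_le_mul_of_nonneg_left (Real.rpow_le_rpow_of_exponent_le hX (by linarith)) (abs_nonneg C)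
    | succ n ih =>
      obtain ⟨C₁, hC₁0, hC₁⟩ := ih
      set a : ℝ := (1 + η) ^ n with ha
      set b : ℝ := (1 + η) ^ (n + 1) with hb
      have ha1 : 1 ≤ a := one_le_pow₀ (by linarith)
      have ha0 : 0 < a := by linarith
      have hb1 : 1 ≤ b := one_le_pow₀ (by linarith)
      have hb0 : 0 < b := by linarith
      have hba : b = a * (1 + η) := by rw [hb, pow_succ]
      have hinv : 1 / a ≤ 1 := by rw [div_le_one ha0]; exact ha1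
      obtain ⟨C₂, hC₂⟩ := count (1 / a) 1 (by positivity) (ε / (2 * b)) (by positivity)
      refine ⟨C₁ + |C₂|, by positivity, fun X hX => ?_⟩
      have hX0 : 0 < X := by linarith
      have hXb : 1 ≤ X ^ b := Real.one_le_rpow hX hb0.le
      obtain ⟨g1, g2⟩ := hC₁ X hX
      obtain ⟨g3, g4⟩ := hC₂ (X ^ b) hXb
      have hsub : {t | t ∈ Exc B 1 ∧ rd t ≤ X ∧ ((t.2.2 : ℕ) : ℝ) ≤ X ^ b} ⊆
          {t | t ∈ Exc B 1 ∧ rd t ≤ X ∧ ((t.2.2 : ℕ) : ℝ) ≤ X ^ a} ∪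
          {t | t ∈ Exc 1 (1 / a) ∧ ((t.2.2 : ℕ) : ℝ) ≤ X ^ b} := by
        rintro t ⟨h1, h2, h3⟩
        rcases le_or_gt (((t.2.2 : ℕ) : ℝ)) (X ^ a) with h | h
        · exact Or.inl ⟨h1, h2, h⟩
        · refine Or.inr ⟨⟨h1.1, h1.2.1, h1.2.2.1, h1.2.2.2.1, ?_⟩, h3⟩
          rw [one_mul]
          refine h2.trans ?_
          calc X = (X ^ a) ^ (1 / a) := by
                rw [← Real.rpow_mul hX0.le, mul_one_div_cancel ha0.ne', Real.rpow_one]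
            _ ≤ _ := Real.rpow_le_rpow (by positivity) h.le (by positivity)
      have hfin := (g1.union g3).subset hsub
      refine ⟨hfin, ?_⟩
      have h4 := (Set.ncard_le_ncard hsub (g1.union g3)).trans (Set.ncard_union_le _ _)
      have h5 : ({t | t ∈ Exc B 1 ∧ rd t ≤ X ∧ ((t.2.2 : ℕ) : ℝ) ≤ X ^ b}.ncard : ℝ) ≤
          ({t | t ∈ Exc B 1 ∧ rd t ≤ X ∧ ((t.2.2 : ℕ) : ℝ) ≤ X ^ a}.ncard : ℝ) +
          ({t | t ∈ Exc 1 (1 / a) ∧ ((t.2.2 : ℕ) : ℝ) ≤ X ^ b}.ncard : ℝ) := by exact_mod_cast h4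
      refine h5.trans ?_
      have h6 : C₂ * (X ^ b) ^ (F (1 / a) + ε / (2 * b)) ≤ |C₂| * X ^ (4 / 7 + ε) := by
        have hF0 := F_nonneg (lam := 1 / a) (by positivity)
        have hF := F_le (lam := 1 / a) (by positivity) hinv
        refine (mul_le_mul_of_nonneg_right (le_abs_self C₂) (by positivity)).trans ?_
        refine mul_le_mul_of_nonneg_left ?_ (abs_nonneg _)
        rw [← Real.rpow_mul hX0.le]
        refine Real.rpow_le_rpow_of_exponent_le hX ?_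
        have e1 : b * (4 * (1 / a) / 7 + ε / (2 * b)) = 4 / 7 * (1 + η) + ε / 2 := by
          rw [hba]
          field_simp
        have e2 : b * (F (1 / a) + ε / (2 * b)) ≤ b * (4 * (1 / a) / 7 + ε / (2 * b)) :=
          mul_le_mul_of_nonneg_left (by linarith) hb0.le
        rw [e1, hη] at e2
        linarith
      calc _ ≤ C₁ * X ^ (4 / 7 + ε) + |C₂| * X ^ (4 / 7 + ε) := add_le_add g2 (g4.trans h6)
        _ = _ := by ring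
  obtain ⟨n, hn⟩ := pow_unbounded_of_one_lt (max A 0) (show 1 < 1 + η by linarith)
  obtain ⟨C, -, hC⟩ := key n
  refine ⟨C, fun X hX => ?_⟩
  obtain ⟨g1, g2⟩ := hC X hX
  have hsub : {t | t ∈ Mid A B ∧ rd t ≤ X} ⊆
      {t | t ∈ Exc B 1 ∧ rd t ≤ X ∧ ((t.2.2 : ℕ) : ℝ) ≤ X ^ ((1 + η) ^ n)} := by
    rintro t ⟨⟨h1, h2⟩, h3⟩
    refine ⟨h1, h3, h2.trans ?_⟩
    have hr := one_le_rd t
    calc rd t ^ A ≤ rd t ^ (max A 0) := Real.rpow_le_rpow_of_exponent_le hr (le_max_left _ _)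
      _ ≤ X ^ (max A 0) := Real.rpow_le_rpow (by linarith) h3 (le_max_right _ _)
      _ ≤ _ := Real.rpow_le_rpow_of_exponent_le hX hn.le
  exact ⟨g1.subset hsub, le_trans (by exact_mod_cast Set.ncard_le_ncard hsub g1) g2⟩

/-- the triples with at most `n` prime factors and `c ≥ rad (abc) ^ K` -/
def Far (n K : ℕ) : Set (ℕ × ℕ × ℕ) :=
  {t | 0 < t.1 ∧ 0 < t.2.1 ∧ Nat.Coprime t.1 t.2.1 ∧ t.1 + t.2.1 = t.2.2 ∧
    (t.1 * t.2.1 * t.2.2).primeFactors.card ≤ n ∧ rd t ^ (K : ℝ) ≤ ((t.2.2 : ℕ) : ℝ)}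

theorem count_far (n : ℕ) (ε : ℝ) (hε : 0 < ε) : ∃ K : ℕ, ∃ C : ℝ, ∀ X : ℝ, 1 ≤ X →
    {t | t ∈ Far n K ∧ rd t ≤ X}.Finite ∧ ({t | t ∈ Far n K ∧ rd t ≤ X}.ncard : ℝ) ≤ C * X ^ ε := by
  obtain ⟨K, C, hK, hC, h⟩ := Pool.Agent.Y913.Wm.viol_eps n ε hε
  refine ⟨⌈K⌉₊, C, fun X hX => ?_⟩
  obtain ⟨g1, g2⟩ := Pool.Agent.Y913.Sm.finite_of_bound
    (S := {q | Pool.Agent.Y913.Sm.Viol n K X q}) (N := C * X ^ ε) (fun Q hQ => h X hX Q hQ)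
  let f : ℕ × ℕ × ℕ → ℕ × ℕ := fun t => (t.1, t.2.1)
  have hinj : Set.InjOn f {t | t ∈ Far n ⌈K⌉₊ ∧ rd t ≤ X} := by
    rintro ⟨a, b, c⟩ ⟨⟨-, -, -, h3, -⟩, -⟩ ⟨a', b', c'⟩ ⟨⟨-, -, -, h4, -⟩, -⟩ he
    simp only [f, Prod.mk.injEq] at he
    simp only at h3 h4
    obtain ⟨rfl, rfl⟩ := he
    rw [h3] at h4
    rw [h4]
  have hsub : f '' {t | t ∈ Far n ⌈K⌉₊ ∧ rd t ≤ X} ⊆ {q | Pool.Agent.Y913.Sm.Viol n K X q} := by
    rintro q ⟨⟨a, b, c⟩, ⟨⟨h1, h2, h3, h4, h5, h6⟩, h7⟩, rfl⟩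
    simp only at h1 h2 h3 h4 h5 h6 h7
    subst h4
    refine ⟨h1, h2, h3, h5, h7, ?_⟩
    have hr := one_le_rd (a, b, a + b)
    exact (Real.rpow_le_rpow_of_exponent_le hr (Nat.le_ceil K)).trans h6
  refine ⟨Set.Finite.of_finite_image (g1.subset hsub) hinj, ?_⟩
  have h1 := Set.ncard_le_ncard hsub g1
  rw [Set.InjOn.ncard_image hinj] at h1
  exact le_trans (by exact_mod_cast h1) g2

/-- near points: few prime factors, all heights -/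
theorem near_zero {M : Type*} [MetricSpace M] (φ : ℕ × ℕ × ℕ → M) :
    ∃ E : Set M, dimH E = 0 ∧ ∀ z ∉ E, ∀ n : ℕ, ∀ w : ℝ, 0 < w → ∃ K : ℕ,
      {t | t ∈ Far n K ∧ dist (φ t) z ≤ rd t ^ (-w)}.Finite :=
  Pool.Agent.H107.ME.dim_zero_countable (ι := ℕ) (fun _ => φ) (fun _ t => rd t) (fun _ t => one_le_rd t)
    (fun n K => Far n K) (fun n ε hε => count_far n ε hε)

/-- near points: the inequality `rad (abc) > B c` -/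
theorem near {M : Type*} [MetricSpace M] (φ : ℕ × ℕ × ℕ → M) {σ : ℝ} (hσ : 0 < σ) :
    ∃ E : Set M, dimH E ≤ ENNReal.ofReal (4 / 7 / σ) ∧ ∀ z ∉ E, ∀ B : ℝ,
      (∀ A : ℝ, {t | t ∈ Mid A B ∧ dist (φ t) z ≤ rd t ^ (-σ)}.Finite) ∧
      ∀ n : ℕ, {t | t ∈ Exc B 1 ∧ (t.1 * t.2.1 * t.2.2).primeFactors.card ≤ n ∧
        dist (φ t) z ≤ rd t ^ (-σ)}.Finite := by
  obtain ⟨E₁, h1, h2⟩ := Pool.Agent.H107.ME.dim_family φ rd one_le_rd (s := 4 / 7) (by norm_num) hσ (J := ℕ × ℕ)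
    (fun j => Mid j.1 j.2) (fun j ε hε => count_mid j.1 j.2 ε hε)
  obtain ⟨E₂, h3, h4⟩ := near_zero φ
  refine ⟨E₁ ∪ E₂, ?_, fun z hz B => ?_⟩
  · rw [dimH_union, h3]
    exact max_le h1 bot_le
  · have hmid : ∀ A : ℝ, {t | t ∈ Mid A B ∧ dist (φ t) z ≤ rd t ^ (-σ)}.Finite := by
      intro A
      obtain ⟨k, hk⟩ := exists_nat_ge B
      obtain ⟨l, hl⟩ := exists_nat_ge A
      refine (h2 z (fun h => hz (Or.inl h)) (l, k)).subset ?_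
      rintro t ⟨⟨⟨g1, g2, g3, g4, g5⟩, g6⟩, g7⟩
      refine ⟨⟨⟨g1, g2, g3, g4, g5.trans ?_⟩, g6.trans ?_⟩, g7⟩
      · exact mul_le_mul_of_nonneg_right hk (Real.rpow_nonneg (Nat.cast_nonneg _) _)
      · exact Real.rpow_le_rpow_of_exponent_le (one_le_rd t) hl
    refine ⟨hmid, fun n => ?_⟩
    obtain ⟨K, hK⟩ := h4 z (fun h => hz (Or.inr h)) n σ hσ
    refine (hK.union (hmid K)).subset ?_
    rintro t ⟨g1, g2, g3⟩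
    rcases le_or_gt (rd t ^ (K : ℝ)) ((t.2.2 : ℕ) : ℝ) with h | h
    · exact Or.inl ⟨⟨g1.1, g1.2.1, g1.2.2.1, g1.2.2.2.1, g2, h⟩, g3⟩
    · exact Or.inr ⟨⟨g1, h.le⟩, g3⟩

/-- windows of radicals -/
theorem windows {v : ℕ → ℝ} {τ θ : ℝ} (hv : ∀ n, 1 ≤ v n) (hτ : 0 ≤ τ) (hE : Pool.Agent.Y854.GM.ExpLe v τ)
    (hθ1 : θ < 1) :
    (∃ E : Set ℝ, dimH E ≤ ENNReal.ofReal (τ / (1 - θ)) ∧ ∀ α : ℝ, 0 < α → α ∉ E → ∀ n : ℕ,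
      ∃ K k₀ : ℕ, ∀ k : ℕ, k₀ ≤ k → ∀ t ∈ Far n K, (v k) ^ θ < |rd t - α * v k|) ∧
    (∃ E : Set ℝ, dimH E ≤ ENNReal.ofReal ((4 / 7 + τ) / (1 - θ)) ∧ ∀ α : ℝ, 0 < α → α ∉ E → ∀ B : ℝ,
      (∀ A : ℝ, ∃ k₀ : ℕ, ∀ k : ℕ, k₀ ≤ k → ∀ t ∈ Mid A B, (v k) ^ θ < |rd t - α * v k|) ∧
      ∀ n : ℕ, ∃ k₀ : ℕ, ∀ k : ℕ, k₀ ≤ k → ∀ t ∈ Exc B 1, (t.1 * t.2.1 * t.2.2).primeFactors.card ≤ n →
        (v k) ^ θ < |rd t - α * v k|) := by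
  have h1θ : 0 < 1 - θ := by linarith
  have hfar : ∃ E : Set ℝ, dimH E ≤ ENNReal.ofReal (τ / (1 - θ)) ∧ ∀ α : ℝ, 0 < α → α ∉ E → ∀ n : ℕ,
      ∃ K k₀ : ℕ, ∀ k : ℕ, k₀ ≤ k → ∀ t ∈ Far n K, (v k) ^ θ < |rd t - α * v k| := by
    choose E h1 h2 using fun n : ℕ => Pool.Agent.H107.ME.windows_zero (fun K => Far n K) rd hv hτ hE hθ1
      (count_far n)
    refine ⟨⋃ n, E n, ?_, fun α hα hαE n => h2 n α hα (fun h => hαE (Set.mem_iUnion.2 ⟨n, h⟩))⟩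
    rw [dimH_iUnion]
    exact iSup_le h1
  refine ⟨hfar, ?_⟩
  obtain ⟨E₂, h3, h4⟩ := hfar
  choose E h1 h2 using fun j : ℕ × ℕ => Pool.Agent.Y854.GM.windows (Mid j.1 j.2) rd hv hτ hE
    (s := 4 / 7) (by norm_num) hθ1 (fun ε hε => count_mid j.1 j.2 ε hε)
  refine ⟨(⋃ j, E j) ∪ E₂, ?_, fun α hα hαE B => ?_⟩
  · rw [dimH_union, dimH_iUnion]
    refine max_le (iSup_le h1) (h3.trans (ENNReal.ofReal_le_ofReal ?_))
    exact (div_le_div_iff_of_pos_right h1θ).2 (by linarith)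
  · have hmid : ∀ A : ℝ, ∃ k₀ : ℕ, ∀ k : ℕ, k₀ ≤ k → ∀ t ∈ Mid A B, (v k) ^ θ < |rd t - α * v k| := by
      intro A
      obtain ⟨m, hm⟩ := exists_nat_ge B
      obtain ⟨l, hl⟩ := exists_nat_ge A
      obtain ⟨k₀, hk⟩ := h2 (l, m) α hα (fun h => hαE (Or.inl (Set.mem_iUnion.2 ⟨_, h⟩)))
      refine ⟨k₀, fun k hk0 t ht => hk k hk0 t ?_⟩
      obtain ⟨⟨g1, g2, g3, g4, g5⟩, g6⟩ := ht
      refine ⟨⟨g1, g2, g3, g4, g5.trans ?_⟩, g6.trans ?_⟩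
      · exact mul_le_mul_of_nonneg_right hm (Real.rpow_nonneg (Nat.cast_nonneg _) _)
      · exact Real.rpow_le_rpow_of_exponent_le (one_le_rd t) hl
    refine ⟨hmid, fun n => ?_⟩
    obtain ⟨K, k₀, hK⟩ := h4 α hα (fun h => hαE (Or.inr h)) n
    obtain ⟨k₁, hk₁⟩ := hmid K
    refine ⟨max k₀ k₁, fun k hk t ht hn => ?_⟩
    rcases le_or_gt (rd t ^ (K : ℝ)) ((t.2.2 : ℕ) : ℝ) with h | h
    · exact hK k (le_trans (le_max_left _ _) hk) t ⟨ht.1, ht.2.1, ht.2.2.1, ht.2.2.2.1, hn, h⟩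
    · exact hk₁ k (le_trans (le_max_right _ _) hk) t ⟨ht, h.le⟩

end Pool.Agent.H107.AbcRad
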