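import Mathlib

set_option autoImplicit false

/-! Sets of points of a metric space which are well approximated by the members of a thin family. -/

namespace Pool.Agent.H107.ME

open Filter Topology MeasureTheory Set
open scoped ENNReal NNReal

/-- a family whose counting function is at most `C X ^ w` has exponent of convergence at most `w` -/
theorem summable_of_count {S : Type*} (h : S → ℝ) (h1 : ∀ t, 1 ≤ h t) {C w u : ℝ} (hw : 0 ≤ w)
    (hu : w < u) (hC : ∀ X : ℝ, 1 ≤ X → {t | h t ≤ X}.Finite ∧ ({t | h t ≤ X}.ncard : ℝ) ≤ C * X ^ w) :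
    Summable (fun t => (h t) ^ (-u)) := by
  classical
  have h0 : ∀ t, 0 < h t := fun t => lt_of_lt_of_le one_pos (h1 t)
  have hC0 : 0 ≤ C := by
    have h2 := (hC 1 le_rfl).2
    rw [Real.one_rpow, mul_one] at h2
    exact (Nat.cast_nonneg _).trans h2
  -- dyadic level
  set ℓ : S → ℕ := fun t => ⌈Real.logb 2 (h t)⌉₊ with hℓ
  have hup : ∀ t, h t ≤ 2 ^ (ℓ t) := by
    intro t
    have h2 : Real.logb 2 (h t) ≤ (ℓ t : ℝ) := Nat.le_ceil _
    calc h t = (2 : ℝ) ^ (Real.logb 2 (h t)) := (Real.rpow_logb two_pos (by norm_num) (h0 t)).symm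
      _ ≤ (2 : ℝ) ^ ((ℓ t : ℕ) : ℝ) := Real.rpow_le_rpow_of_exponent_le (by norm_num) h2
      _ = 2 ^ (ℓ t) := Real.rpow_natCast _ _
  have hlo : ∀ t, (2 : ℝ) ^ (ℓ t) ≤ 2 * h t := by
    intro t
    have h2 : (ℓ t : ℝ) < Real.logb 2 (h t) + 1 := Nat.ceil_lt_add_one (Real.logb_nonneg (by norm_num) (h1 t))
    calc (2 : ℝ) ^ (ℓ t) = (2 : ℝ) ^ ((ℓ t : ℕ) : ℝ) := (Real.rpow_natCast _ _).symm
      _ ≤ (2 : ℝ) ^ (Real.logb 2 (h t) + 1) := Real.rpow_le_rpow_of_exponent_le (by norm_num) h2.le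
      _ = 2 * h t := by
          rw [Real.rpow_add two_pos, Real.rpow_logb two_pos (by norm_num) (h0 t), Real.rpow_one]
          ring
  have hu0 : 0 < u := lt_of_le_of_lt hw hu
  set q : ℝ := (2 : ℝ) ^ (w - u) with hq
  have hq0 : 0 < q := Real.rpow_pos_of_pos two_pos _
  have hq1 : q < 1 := Real.rpow_lt_one_of_one_lt_of_neg (by norm_num) (by linarith)
  have hgeom : Summable (fun k : ℕ => C * 2 ^ u * q ^ k) :=
    (summable_geometric_of_lt_one hq0.le hq1).mul_left _
  refine summable_of_sum_le (c := ∑' k : ℕ, C * 2 ^ u * q ^ k)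
    (fun t => Real.rpow_nonneg (h0 t).le _) (fun F => ?_)
  -- group by levels
  have hterm : ∀ t, (h t) ^ (-u) ≤ 2 ^ u * ((2 : ℝ) ^ (-u)) ^ (ℓ t) := by
    intro t
    have h2 : (2 : ℝ) ^ (ℓ t) / 2 ≤ h t := by
      have := hlo t
      linarith
    have h3 : (h t) ^ (-u) ≤ ((2 : ℝ) ^ (ℓ t) / 2) ^ (-u) :=
      Real.rpow_le_rpow_of_nonpos (by positivity) h2 (by linarith)
    refine h3.trans (le_of_eq ?_)
    rw [Real.div_rpow (by positivity) two_pos.le, Real.rpow_neg two_pos.le u, div_inv_eq_mul, mul_comm]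
    congr 1
    rw [← Real.rpow_natCast 2 (ℓ t), ← Real.rpow_mul two_pos.le, ← Real.rpow_natCast ((2 : ℝ) ^ u)⁻¹ (ℓ t),
      ← Real.rpow_neg two_pos.le, ← Real.rpow_mul two_pos.le]
    congr 1
    ring
  calc ∑ t ∈ F, (h t) ^ (-u) ≤ ∑ t ∈ F, 2 ^ u * ((2 : ℝ) ^ (-u)) ^ (ℓ t) :=
        Finset.sum_le_sum fun t _ => hterm t
    _ = ∑ k ∈ F.image ℓ, ∑ t ∈ F.filter (fun t => ℓ t = k), 2 ^ u * ((2 : ℝ) ^ (-u)) ^ (ℓ t) := by
        rw [Finset.sum_fiberwise_of_maps_to (fun t ht => Finset.mem_image_of_mem ℓ ht)]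
    _ ≤ ∑ k ∈ F.image ℓ, C * 2 ^ u * q ^ k := by
        refine Finset.sum_le_sum fun k _ => ?_
        have h2 : ∑ t ∈ F.filter (fun t => ℓ t = k), 2 ^ u * ((2 : ℝ) ^ (-u)) ^ (ℓ t) =
            ((F.filter (fun t => ℓ t = k)).card : ℝ) * (2 ^ u * ((2 : ℝ) ^ (-u)) ^ k) := by
          rw [Finset.sum_congr rfl (fun t ht => by rw [(Finset.mem_filter.1 ht).2]), Finset.sum_const, nsmul_eq_mul]
        rw [h2]
        have hX1 : (1 : ℝ) ≤ 2 ^ k := one_le_pow₀ (by norm_num)
        obtain ⟨hfin, hcard⟩ := hC (2 ^ k) hX1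
        have hsub : (F.filter (fun t => ℓ t = k)).card ≤ {t | h t ≤ (2 : ℝ) ^ k}.ncard := by
          rw [Set.ncard_eq_toFinset_card _ hfin]
          apply Finset.card_le_card
          intro t ht
          rw [Set.Finite.mem_toFinset]
          have := hup t
          rw [(Finset.mem_filter.1 ht).2] at this
          exact this
        have h3 : ((F.filter (fun t => ℓ t = k)).card : ℝ) ≤ C * ((2 : ℝ) ^ k) ^ w :=
          (Nat.cast_le.2 hsub).trans hcard
        calc ((F.filter (fun t => ℓ t = k)).card : ℝ) * (2 ^ u * ((2 : ℝ) ^ (-u)) ^ k)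
            ≤ (C * ((2 : ℝ) ^ k) ^ w) * (2 ^ u * ((2 : ℝ) ^ (-u)) ^ k) :=
              mul_le_mul_of_nonneg_right h3 (by positivity)
          _ = C * 2 ^ u * q ^ k := by
              have h4 : ((2 : ℝ) ^ k) ^ w * ((2 : ℝ) ^ (-u)) ^ k = q ^ k := by
                rw [hq, ← Real.rpow_natCast 2 k, ← Real.rpow_mul two_pos.le,
                  ← Real.rpow_natCast ((2 : ℝ) ^ (-u)) k, ← Real.rpow_mul two_pos.le,
                  ← Real.rpow_natCast ((2 : ℝ) ^ (w - u)) k, ← Real.rpow_mul two_pos.le,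
                  ← Real.rpow_add two_pos]
                congr 1
                ring
              rw [← h4]
              ring
    _ ≤ ∑' k : ℕ, C * 2 ^ u * q ^ k :=
        hgeom.sum_le_tsum _ (fun k _ => by positivity)

/-- points of a metric space approximated infinitely often to the precision `h ^ (-σ)` by a family of
exponent `s`: a set of dimension at most `s / σ` -/
theorem dim_approx {S M : Type*} [MetricSpace M] (φ : S → M) (h : S → ℝ) (h1 : ∀ t, 1 ≤ h t) {s σ : ℝ}
    (hs : 0 ≤ s) (hσ : 0 < σ)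
    (hC : ∀ ε : ℝ, 0 < ε → ∃ C : ℝ, ∀ X : ℝ, 1 ≤ X →
      {t | h t ≤ X}.Finite ∧ ({t | h t ≤ X}.ncard : ℝ) ≤ C * X ^ (s + ε)) :
    dimH {x : M | {t | dist (φ t) x ≤ (h t) ^ (-σ)}.Infinite} ≤ ENNReal.ofReal (s / σ) := by
  classical
  set E : Set M := {x : M | {t | dist (φ t) x ≤ (h t) ^ (-σ)}.Infinite} with hE
  have h0 : ∀ t, 0 < h t := fun t => lt_of_lt_of_le one_pos (h1 t)
  have main : ∀ D : ℝ, s / σ < D → dimH E ≤ ENNReal.ofReal D := by
    intro D hD
    have hD0 : 0 < D := lt_of_le_of_lt (by positivity) hD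
    have hsD : s < D * σ := by rwa [div_lt_iff₀ hσ] at hD
    set ε : ℝ := (D * σ - s) / 2 with hε
    have hε0 : 0 < ε := by rw [hε]; linarith
    obtain ⟨C, hC1⟩ := hC ε hε0
    have hsum : Summable (fun t => (h t) ^ (-(D * σ))) :=
      summable_of_count h h1 (by linarith) (by rw [hε]; linarith) hC1
    -- the family is countable
    have hcount : Countable S := by
      have h2 : (Set.univ : Set S) = ⋃ k : ℕ, {t | h t ≤ (k : ℝ) + 1} := by
        ext t
        simp only [Set.mem_univ, Set.mem_iUnion, Set.mem_ofPred_eq, true_iff]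
        obtain ⟨k, hk⟩ := exists_nat_ge (h t)
        exact ⟨k, by linarith⟩
      rw [← Set.countable_univ_iff, h2]
      exact Set.countable_iUnion fun k => (hC1 _ (by
        have : (0 : ℝ) ≤ k := Nat.cast_nonneg k
        linarith)).1.countable
    have hDn : ((Real.toNNReal D : ℝ≥0) : ℝ) = D := Real.coe_toNNReal D hD0.le
    have hgoal : ENNReal.ofReal D = ((Real.toNNReal D : ℝ≥0) : ℝ≥0∞) := rfl
    let _ : MeasurableSpace M := borel M
    have _ : BorelSpace M := ⟨rfl⟩
    rw [hgoal]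
    apply dimH_le_of_hausdorffMeasure_ne_top
    rw [hDn]
    -- radii
    set g : S → ℝ≥0∞ := fun t => (ENNReal.ofReal (2 * (h t) ^ (-σ))) ^ D with hg
    have hgt : (∑' t, g t) ≠ ⊤ := by
      have h3 : ∀ t, g t = ENNReal.ofReal (2 ^ D * (h t) ^ (-(D * σ))) := by
        intro t
        rw [hg]
        simp only
        rw [ENNReal.ofReal_rpow_of_nonneg (mul_nonneg two_pos.le (Real.rpow_nonneg (h0 t).le _)) hD0.le,
          Real.mul_rpow two_pos.le (Real.rpow_nonneg (h0 t).le _), ← Real.rpow_mul (h0 t).le]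
        congr 3
        ring
      simp only [h3]
      rw [← ENNReal.ofReal_tsum_of_nonneg (fun t => mul_nonneg (by positivity)
        (Real.rpow_nonneg (h0 t).le _)) (hsum.mul_left _)]
      exact ENNReal.ofReal_ne_top
    have htail := ENNReal.tendsto_tsum_compl_atTop_zero hgt
    set r : Finset S → ℝ≥0∞ := fun F => (∑' t : {t // t ∉ F}, g t) ^ (1 / D) with hr
    have hrt : Tendsto r atTop (𝓝 0) := by
      have h4 : Tendsto (fun x : ℝ≥0∞ => x ^ (1 / D)) (𝓝 0) (𝓝 (0 ^ (1 / D))) :=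
        (ENNReal.continuous_rpow_const).tendsto 0
      rw [ENNReal.zero_rpow_of_pos (by positivity)] at h4
      exact h4.comp htail
    have hdiam : ∀ t, Metric.ediam (Metric.closedBall (φ t) ((h t) ^ (-σ))) ^ D ≤ g t := by
      intro t
      apply ENNReal.rpow_le_rpow _ hD0.le
      refine Metric.ediam_le (fun x hx y hy => ?_)
      rw [edist_dist]
      apply ENNReal.ofReal_le_ofReal
      have h5 := Metric.mem_closedBall.1 hx
      have h6 := Metric.mem_closedBall.1 hy
      calc dist x y ≤ dist x (φ t) + dist y (φ t) := dist_triangle_right _ _ _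
        _ ≤ 2 * (h t) ^ (-σ) := by linarith
    have key := Measure.hausdorffMeasure_le_liminf_tsum (X := M) (β := Finset S)
      (ι := fun F => {t // t ∉ F}) D E (l := atTop) r hrt
      (fun F t => Metric.closedBall (φ t) ((h t) ^ (-σ)))
      (Eventually.of_forall fun F t => by
        have h7 : g t ≤ ∑' t : {t // t ∉ F}, g t := ENNReal.le_tsum t
        have h8 := (hdiam t).trans h7
        have h9 := ENNReal.rpow_le_rpow h8 (z := 1 / D) (by positivity)
        rwa [← ENNReal.rpow_mul, mul_one_div_cancel hD0.ne', ENNReal.rpow_one] at h9)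
      (Eventually.of_forall fun F x hx => by
        have hx' : {t | dist (φ t) x ≤ (h t) ^ (-σ)}.Infinite := hx
        obtain ⟨t, ht, htF⟩ := hx'.exists_notMem_finset F
        rw [Set.mem_iUnion]
        refine ⟨⟨t, htF⟩, ?_⟩
        rw [Metric.mem_closedBall, dist_comm]
        exact ht)
    have hlim : liminf (fun F : Finset S => ∑' t : {t // t ∉ F},
        Metric.ediam (Metric.closedBall (φ t) ((h t) ^ (-σ))) ^ D) atTop ≤ 0 := by
      rw [← htail.liminf_eq]
      exact liminf_le_liminf (Eventually.of_forall fun F => ENNReal.tsum_le_tsum fun t => hdiam t)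
    have hzero := le_antisymm (key.trans hlim) zero_le
    rw [hzero]
    exact ENNReal.zero_ne_top
  -- let `D` tend to `s / σ`
  have hlim : Tendsto (fun k : ℕ => ENNReal.ofReal (s / σ + 1 / ((k : ℝ) + 1))) atTop
      (𝓝 (ENNReal.ofReal (s / σ + 0))) :=
    ENNReal.tendsto_ofReal (tendsto_one_div_add_atTop_nhds_zero_nat.const_add (s / σ))
  rw [add_zero] at hlim
  refine ge_of_tendsto' hlim fun k => main _ ?_
  have : (0 : ℝ) < 1 / ((k : ℝ) + 1) := by positivity
  linarith

end Pool.Agent.H107.ME
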