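import Pool.Agent.H107.AbcWin
import Pool.Agent.H107.MetricExc

set_option autoImplicit false

/-! abc triples of small radical whose image in a metric space is close to a given point. -/

namespace Pool.Agent.H107.AbcSlope

open Pool.Agent.H107.AbcWin Pool.Agent.H107.ME MeasureTheory Filter

lemma one_le_c {B lam : ℝ} (t : Exc B lam) : (1 : ℝ) ≤ ((t.1.2.2 : ℕ) : ℝ) := by
  obtain ⟨h1, h2, _, h4, _⟩ := t.2
  have : 1 ≤ t.1.2.2 := by omega
  exact_mod_cast this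

lemma count_sub (lam B : ℝ) (hlam : 0 < lam) (ε : ℝ) (hε : 0 < ε) :
    ∃ C : ℝ, ∀ X : ℝ, 1 ≤ X → {t : Exc B lam | ((t.1.2.2 : ℕ) : ℝ) ≤ X}.Finite ∧
      ({t : Exc B lam | ((t.1.2.2 : ℕ) : ℝ) ≤ X}.ncard : ℝ) ≤ C * X ^ (F lam + ε) := by
  obtain ⟨C, hC⟩ := count lam B hlam ε hε
  refine ⟨C, fun X hX => ?_⟩
  obtain ⟨h1, h2⟩ := hC X hX
  have himg : Subtype.val '' {t : Exc B lam | ((t.1.2.2 : ℕ) : ℝ) ≤ X} =
      {t | t ∈ Exc B lam ∧ ((t.2.2 : ℕ) : ℝ) ≤ X} := by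
    ext t
    constructor
    · rintro ⟨s, hs, rfl⟩
      exact ⟨s.2, hs⟩
    · rintro ⟨h3, h4⟩
      exact ⟨⟨t, h3⟩, h4, rfl⟩
  refine ⟨Set.Finite.of_finite_image (by rw [himg]; exact h1) Subtype.val_injective.injOn, ?_⟩
  rw [← Set.ncard_image_of_injective _ Subtype.val_injective, himg]
  exact h2

/-- outside of a set of dimension at most `F lam / σ` -/
theorem approx (lam : ℝ) (hlam : 0 < lam) {M : Type*} [MetricSpace M] (φ : ℕ × ℕ × ℕ → M) {σ : ℝ}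
    (hσ : 0 < σ) :
    ∃ E : Set M, dimH E ≤ ENNReal.ofReal (F lam / σ) ∧ ∀ x ∉ E, ∀ B : ℝ,
      {t : ℕ × ℕ × ℕ | t ∈ Exc B lam ∧ dist (φ t) x ≤ (t.2.2 : ℝ) ^ (-σ)}.Finite := by
  set E : ℕ → Set M := fun k =>
    {x : M | {t : Exc (k : ℝ) lam | dist (φ t.1) x ≤ ((t.1.2.2 : ℕ) : ℝ) ^ (-σ)}.Infinite} with hE
  refine ⟨⋃ k, E k, ?_, fun x hx B => ?_⟩
  · rw [dimH_iUnion]
    exact iSup_le fun k => dim_approx (fun t : Exc (k : ℝ) lam => φ t.1)
      (fun t => ((t.1.2.2 : ℕ) : ℝ)) one_le_c (F_nonneg hlam) hσ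
      (fun ε hε => count_sub lam k hlam ε hε)
  · obtain ⟨k, hk⟩ := exists_nat_ge B
    have h1 : x ∉ E k := fun h => hx (Set.mem_iUnion.2 ⟨k, h⟩)
    rw [hE, Set.mem_ofPred_eq, Set.not_infinite] at h1
    refine (h1.image Subtype.val).subset ?_
    rintro t ⟨⟨h2, h3, h4, h5, h6⟩, h7⟩
    have hmem : t ∈ Exc (k : ℝ) lam := ⟨h2, h3, h4, h5, h6.trans
      (mul_le_mul_of_nonneg_right hk (Real.rpow_nonneg (Nat.cast_nonneg _) _))⟩
    exact ⟨⟨t, hmem⟩, h7, rfl⟩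

/-- almost all real `x` -/
theorem approx_ae (lam : ℝ) (hlam : 0 < lam) (φ : ℕ × ℕ × ℕ → ℝ) :
    ∀ᵐ x : ℝ, ∀ σ : ℝ, F lam < σ → ∀ B : ℝ,
      {t : ℕ × ℕ × ℕ | t ∈ Exc B lam ∧ |φ t - x| ≤ (t.2.2 : ℝ) ^ (-σ)}.Finite := by
  have hF := F_nonneg hlam
  have hpos : ∀ k : ℕ, 0 < F lam + 1 / ((k : ℝ) + 1) := fun k => by positivity
  have hall := fun k : ℕ => approx lam hlam φ (hpos k)
  choose E hE1 hE2 using hall
  have hnull : ∀ k, volume (E k) = 0 := by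
    intro k
    rw [← hausdorffMeasure_real]
    refine hausdorffMeasure_of_dimH_lt (d := 1) ?_
    refine (hE1 k).trans_lt ?_
    have h1 : F lam / (F lam + 1 / ((k : ℝ) + 1)) < 1 := by
      rw [div_lt_one (hpos k)]
      have : (0 : ℝ) < 1 / ((k : ℝ) + 1) := by positivity
      linarith
    have h2 := (ENNReal.ofReal_lt_one).2 h1
    simpa using h2
  have hae : ∀ᵐ x : ℝ, ∀ k, x ∉ E k := by
    rw [ae_all_iff]
    intro k
    exact compl_mem_ae_iff.2 (hnull k)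
  filter_upwards [hae] with x hx σ hσ B
  obtain ⟨k, hk⟩ := exists_nat_one_div_lt (sub_pos.2 hσ)
  refine (hE2 k x (hx k) B).subset ?_
  rintro t ⟨h1, h2⟩
  refine ⟨h1, ?_⟩
  rw [Real.dist_eq]
  have hc : (1 : ℝ) ≤ (t.2.2 : ℝ) := one_le_c ⟨t, h1⟩
  exact h2.trans (Real.rpow_le_rpow_of_exponent_le hc (by linarith))

/-- the weak abc inequality near a point, outside of a set of dimension zero -/
theorem weak {M : Type*} [MetricSpace M] (φ : ℕ × ℕ × ℕ → M) :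
    ∃ E : Set M, dimH E = 0 ∧ ∀ x ∉ E, ∀ σ : ℝ, 0 < σ → ∃ m : ℝ, ∀ a b c : ℕ, 0 < a → 0 < b →
      Nat.Coprime a b → a + b = c → dist (φ (a, b, c)) x ≤ (c : ℝ) ^ (-σ) →
        (c : ℝ) < (R (a * b * c) : ℝ) ^ m := by
  have hall : ∀ j k : ℕ, ∃ E : Set M,
      dimH E ≤ ENNReal.ofReal (F (1 / ((k : ℝ) + 2)) / (1 / ((j : ℝ) + 1))) ∧ ∀ x ∉ E, ∀ B : ℝ,
      {t : ℕ × ℕ × ℕ | t ∈ Exc B (1 / ((k : ℝ) + 2)) ∧
        dist (φ t) x ≤ (t.2.2 : ℝ) ^ (-(1 / ((j : ℝ) + 1)))}.Finite := fun j k =>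
    approx _ (by positivity) φ (by positivity)
  choose E hE1 hE2 using hall
  refine ⟨⋃ j, ⋂ k, E j k, ?_, fun x hx σ hσ => ?_⟩
  · rw [dimH_iUnion]
    refine le_antisymm (iSup_le fun j => ?_) bot_le
    have h1 : ∀ k : ℕ, dimH (⋂ k, E j k) ≤
        ENNReal.ofReal ((4 / 7 * (1 / ((k : ℝ) + 1))) / (1 / ((j : ℝ) + 1))) := by
      intro k
      refine (dimH_mono (Set.iInter_subset _ k)).trans ((hE1 j k).trans (ENNReal.ofReal_le_ofReal ?_))
      apply div_le_div_of_nonneg_right _ (by positivity)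
      have h2 : F (1 / ((k : ℝ) + 2)) = 4 * (1 / ((k : ℝ) + 2)) / 7 := by
        unfold F
        rw [if_pos]
        rw [div_le_div_iff₀ (by positivity) (by norm_num)]
        have : (0 : ℝ) ≤ k := Nat.cast_nonneg k
        linarith
      have h3 : 1 / ((k : ℝ) + 2) ≤ 1 / ((k : ℝ) + 1) := by
        apply one_div_le_one_div_of_le (by positivity)
        linarith
      rw [h2]
      linarith
    have h2 : Tendsto (fun k : ℕ => ENNReal.ofReal ((4 / 7 * (1 / ((k : ℝ) + 1))) / (1 / ((j : ℝ) + 1))))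
        atTop (nhds (ENNReal.ofReal ((4 / 7 * 0) / (1 / ((j : ℝ) + 1))))) := by
      apply ENNReal.tendsto_ofReal
      exact ((tendsto_one_div_add_atTop_nhds_zero_nat (𝕜 := ℝ)).const_mul (4 / 7)).div_const _
    rw [mul_zero, zero_div, ENNReal.ofReal_zero] at h2
    exact ge_of_tendsto' h2 h1
  · obtain ⟨j, hj⟩ := exists_nat_one_div_lt hσ
    rw [Set.mem_iUnion, not_exists] at hx
    have hxj := hx j
    rw [Set.mem_iInter, not_forall] at hxj
    obtain ⟨k, hk⟩ := hxj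
    have hfin := hE2 j k x hk 1
    have hk2 : (0 : ℝ) < (k : ℝ) + 2 := by positivity
    -- the radical of a triple is at least two
    have hR : ∀ a b c : ℕ, 0 < a → 0 < b → a + b = c → (2 : ℝ) ≤ R (a * b * c) := by
      intro a b c ha hb hc
      have h1 : a * b * c ≠ 0 := by
        have : 0 < c := by omega
        positivity
      have h2 : 2 ≤ c := by omega
      obtain ⟨p, hp, hpc⟩ := Nat.exists_prime_and_dvd (show c ≠ 1 by omega)
      have h3 : p ∈ (a * b * c).primeFactors := by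
        rw [Nat.mem_primeFactors]
        exact ⟨hp, hpc.mul_left _, h1⟩
      have h4 : p ∣ R (a * b * c) := Finset.dvd_prod_of_mem _ h3
      have h5 : 0 < R (a * b * c) := Finset.prod_pos fun q hq => (Nat.prime_of_mem_primeFactors hq).pos
      have h6 : 2 ≤ R (a * b * c) := hp.two_le.trans (Nat.le_of_dvd h5 h4)
      exact_mod_cast h6
    -- a common bound for the finitely many exceptions
    obtain ⟨N, hN⟩ := (hfin.image (fun t => t.2.2)).bddAbove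
    refine ⟨max ((k : ℝ) + 2) (N + 1), fun a b c ha hb hab hc hd => ?_⟩
    have hR2 := hR a b c ha hb hc
    have hc1 : (1 : ℝ) ≤ (c : ℝ) := by
      have : 1 ≤ c := by omega
      exact_mod_cast this
    by_cases hexc : (R (a * b * c) : ℝ) ≤ 1 * (c : ℝ) ^ (1 / ((k : ℝ) + 2))
    · have hmem : c ∈ (fun t : ℕ × ℕ × ℕ => t.2.2) '' {t : ℕ × ℕ × ℕ | t ∈ Exc 1 (1 / ((k : ℝ) + 2)) ∧
          dist (φ t) x ≤ (t.2.2 : ℝ) ^ (-(1 / ((j : ℝ) + 1)))} :=
        ⟨(a, b, c), ⟨⟨ha, hb, hab, hc, hexc⟩, hd.trans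
          (Real.rpow_le_rpow_of_exponent_le hc1 (by linarith))⟩, rfl⟩
      have hcN : c ≤ N := hN hmem
      have h1 : (c : ℝ) < (2 : ℝ) ^ ((N : ℝ) + 1) := by
        have h2 : c < 2 ^ (N + 1) := by
          calc c ≤ N := hcN
            _ < N + 1 := Nat.lt_succ_self N
            _ < 2 ^ (N + 1) := Nat.lt_two_pow_self
        have h3 : (c : ℝ) < (2 : ℝ) ^ (N + 1) := by exact_mod_cast h2
        calc (c : ℝ) < (2 : ℝ) ^ (N + 1) := h3
          _ = (2 : ℝ) ^ ((N : ℝ) + 1) := by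
            rw [← Real.rpow_natCast]
            push_cast
            rfl
      calc (c : ℝ) < (2 : ℝ) ^ ((N : ℝ) + 1) := h1
        _ ≤ (R (a * b * c) : ℝ) ^ ((N : ℝ) + 1) := Real.rpow_le_rpow two_pos.le hR2 (by positivity)
        _ ≤ (R (a * b * c) : ℝ) ^ (max ((k : ℝ) + 2) (N + 1)) :=
            Real.rpow_le_rpow_of_exponent_le (by linarith) (le_max_right _ _)
    · push Not at hexc
      rw [one_mul] at hexc
      have h4 := Real.rpow_lt_rpow (Real.rpow_nonneg (Nat.cast_nonneg c) _) hexc hk2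
      rw [← Real.rpow_mul (Nat.cast_nonneg c), one_div_mul_cancel hk2.ne', Real.rpow_one] at h4
      exact h4.trans_le (Real.rpow_le_rpow_of_exponent_le (by linarith) (le_max_left _ _))

end Pool.Agent.H107.AbcSlope
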