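import Pool.Agent.W221.ABC.Main7
import Pool.Agent.Y854.GM.Win

set_option autoImplicit false

/-! Windows of heights without abc triples of small radical. -/

namespace Pool.Agent.H107.AbcWin

open Pool.Agent.Y854.GM

/-- the radical `R(m)`: the product of the distinct primes dividing `m` -/
def R (m : ℕ) : ℕ := ∏ p ∈ m.primeFactors, p

/-- the triples `(a, b, c)` of coprime positive integers with `a + b = c` and
`R (abc) ≤ B * c ^ lam` -/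
def Exc (B lam : ℝ) : Set (ℕ × ℕ × ℕ) :=
  {t | 0 < t.1 ∧ 0 < t.2.1 ∧ Nat.Coprime t.1 t.2.1 ∧ t.1 + t.2.1 = t.2.2 ∧
    (R (t.1 * t.2.1 * t.2.2) : ℝ) ≤ B * (t.2.2 : ℝ) ^ lam}

/-- the exponent, a continuous piecewise linear function -/
noncomputable def F (lam : ℝ) : ℝ :=
  if lam ≤ 2 / 3 then 4 * lam / 7
  else if lam ≤ 1 then (13 * lam + 2) / 28
  else if lam ≤ 3 / 2 then 5 * (10 * lam - 1) / 84
  else if lam ≤ 16 / 9 then (9 * lam - 1) / 15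
  else if lam ≤ 2 then 1
  else lam - 1

lemma F_nonneg {lam : ℝ} (h : 0 < lam) : 0 ≤ F lam := by
  unfold F
  split_ifs <;> linarith

lemma count (lam B : ℝ) (hlam : 0 < lam) (ε : ℝ) (hε : 0 < ε) :
    ∃ C : ℝ, ∀ X : ℝ, 1 ≤ X → {t | t ∈ Exc B lam ∧ ((t.2.2 : ℕ) : ℝ) ≤ X}.Finite ∧
      ({t | t ∈ Exc B lam ∧ ((t.2.2 : ℕ) : ℝ) ≤ X}.ncard : ℝ) ≤ C * X ^ (F lam + ε) := by
  obtain ⟨C, hC⟩ := Pool.Agent.W221.ABC7.count_FxB B lam ε hlam hε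
  refine ⟨max C 0, fun X hX => ?_⟩
  have hX0 : 0 < X := by linarith
  have hX1 : 1 ≤ ⌊X⌋₊ := Nat.le_floor (by exact_mod_cast hX)
  have hset : {t : ℕ × ℕ × ℕ | t ∈ Exc B lam ∧ ((t.2.2 : ℕ) : ℝ) ≤ X} =
      {t | 0 < t.1 ∧ 0 < t.2.1 ∧ Nat.Coprime t.1 t.2.1 ∧ t.1 + t.2.1 = t.2.2 ∧ t.2.2 ≤ ⌊X⌋₊ ∧
        (R (t.1 * t.2.1 * t.2.2) : ℝ) ≤ B * (t.2.2 : ℝ) ^ lam} := by
    ext t
    simp only [Exc, Set.mem_ofPred_eq]
    rw [Nat.le_floor_iff hX0.le]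
    tauto
  rw [hset]
  refine ⟨Pool.Agent.W221.ABC7.excB_finite B lam ⌊X⌋₊, ?_⟩
  refine (hC ⌊X⌋₊ hX1).trans ?_
  have hF := F_nonneg hlam
  have h1 : ((⌊X⌋₊ : ℕ) : ℝ) ^ (F lam + ε) ≤ X ^ (F lam + ε) :=
    Real.rpow_le_rpow (Nat.cast_nonneg _) (Nat.floor_le hX0.le) (by linarith)
  calc C * ((⌊X⌋₊ : ℕ) : ℝ) ^ (F lam + ε) ≤ max C 0 * ((⌊X⌋₊ : ℕ) : ℝ) ^ (F lam + ε) := by
        gcongr
        exact le_max_left _ _
    _ ≤ max C 0 * X ^ (F lam + ε) := by gcongr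

/-- windows without exceptions, all constants `B` -/
theorem win (lam : ℝ) (hlam : 0 < lam) {v : ℕ → ℝ} {τ θ : ℝ} (hv : ∀ n, 1 ≤ v n) (hτ : 0 ≤ τ)
    (hE : ExpLe v τ) (hθ1 : θ < 1) :
    ∃ E : Set ℝ, dimH E ≤ ENNReal.ofReal ((F lam + τ) / (1 - θ)) ∧
      ∀ α : ℝ, 0 < α → α ∉ E → ∀ B : ℝ, ∃ n₀ : ℕ, ∀ n : ℕ, n₀ ≤ n → ∀ a b c : ℕ, 0 < a → 0 < b →
        Nat.Coprime a b → a + b = c → |(c : ℝ) - α * v n| ≤ (v n) ^ θ →
          B * (c : ℝ) ^ lam < R (a * b * c) := by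
  have hall : ∀ k : ℕ, ∃ E : Set ℝ, dimH E ≤ ENNReal.ofReal ((F lam + τ) / (1 - θ)) ∧
      ∀ α : ℝ, 0 < α → α ∉ E → ∃ n0 : ℕ, ∀ n : ℕ, n0 ≤ n → ∀ t ∈ Exc (k : ℝ) lam,
        (v n) ^ θ < |((t.2.2 : ℕ) : ℝ) - α * v n| := fun k =>
    windows (Exc (k : ℝ) lam) (fun t => ((t.2.2 : ℕ) : ℝ)) hv hτ hE (F_nonneg hlam) hθ1
      (fun ε hε => count lam k hlam ε hε)
  choose E hE1 hE2 using hall
  refine ⟨⋃ k, E k, ?_, fun α hα hαE B => ?_⟩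
  · rw [dimH_iUnion]
    exact iSup_le hE1
  · obtain ⟨k, hk⟩ := exists_nat_ge B
    obtain ⟨n₀, hn⟩ := hE2 k α hα (fun h => hαE (Set.mem_iUnion.2 ⟨k, h⟩))
    refine ⟨n₀, fun n hn1 a b c ha hb hab hc hw => ?_⟩
    by_contra hcon
    push Not at hcon
    refine absurd (hn n hn1 (a, b, c) ⟨ha, hb, hab, hc, hcon.trans ?_⟩) (not_lt.2 hw)
    exact mul_le_mul_of_nonneg_right hk (Real.rpow_nonneg (Nat.cast_nonneg _) _)

/-- the weak abc inequality in windows, outside of a set of dimension `τ / (1 - θ)` -/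
theorem weak {v : ℕ → ℝ} {τ θ : ℝ} (hv : ∀ n, 1 ≤ v n) (hτ : 0 ≤ τ) (hE : ExpLe v τ)
    (hθ1 : θ < 1) :
    ∃ E : Set ℝ, dimH E ≤ ENNReal.ofReal (τ / (1 - θ)) ∧
      ∀ α : ℝ, 0 < α → α ∉ E → ∃ M : ℝ, 0 < M ∧ ∃ n₀ : ℕ, ∀ n : ℕ, n₀ ≤ n → ∀ a b c : ℕ, 0 < a →
        0 < b → Nat.Coprime a b → a + b = c → |(c : ℝ) - α * v n| ≤ (v n) ^ θ →
          (c : ℝ) < (R (a * b * c) : ℝ) ^ M := by
  have h1θ : 0 < 1 - θ := by linarith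
  have hall : ∀ k : ℕ, ∃ E : Set ℝ, dimH E ≤ ENNReal.ofReal ((F (1 / ((k : ℝ) + 2)) + τ) / (1 - θ)) ∧
      ∀ α : ℝ, 0 < α → α ∉ E → ∀ B : ℝ, ∃ n₀ : ℕ, ∀ n : ℕ, n₀ ≤ n → ∀ a b c : ℕ, 0 < a → 0 < b →
        Nat.Coprime a b → a + b = c → |(c : ℝ) - α * v n| ≤ (v n) ^ θ →
          B * (c : ℝ) ^ (1 / ((k : ℝ) + 2)) < R (a * b * c) := fun k =>
    win (1 / ((k : ℝ) + 2)) (by positivity) hv hτ hE hθ1
  choose E hE1 hE2 using hall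
  refine ⟨⋂ k, E k, ?_, fun α hα hαE => ?_⟩
  · have h1 : ∀ k : ℕ, dimH (⋂ k, E k) ≤ ENNReal.ofReal ((4 / 7 * (1 / ((k : ℝ) + 1)) + τ) / (1 - θ)) := by
      intro k
      refine (dimH_mono (Set.iInter_subset _ k)).trans ((hE1 k).trans (ENNReal.ofReal_le_ofReal ?_))
      apply div_le_div_of_nonneg_right _ h1θ.le
      have h2 : F (1 / ((k : ℝ) + 2)) = 4 * (1 / ((k : ℝ) + 2)) / 7 := by
        unfold F
        rw [if_pos]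
        rw [div_le_div_iff₀ (by positivity) (by norm_num)]
        have : (0 : ℝ) ≤ k := Nat.cast_nonneg k
        linarith
      have h3 : 1 / ((k : ℝ) + 2) ≤ 1 / ((k : ℝ) + 1) := by
        apply one_div_le_one_div_of_le (by positivity)
        linarith
      rw [h2]
      linarith
    have h2 : Filter.Tendsto (fun k : ℕ => ENNReal.ofReal ((4 / 7 * (1 / ((k : ℝ) + 1)) + τ) / (1 - θ)))
        Filter.atTop (nhds (ENNReal.ofReal ((4 / 7 * 0 + τ) / (1 - θ)))) := by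
      apply ENNReal.tendsto_ofReal
      exact (((tendsto_one_div_add_atTop_nhds_zero_nat (𝕜 := ℝ)).const_mul (4 / 7)).add_const τ).div_const _
    rw [mul_zero, zero_add] at h2
    exact ge_of_tendsto' h2 h1
  · rw [Set.mem_iInter, not_forall] at hαE
    obtain ⟨k, hk⟩ := hαE
    obtain ⟨n₀, hn⟩ := hE2 k α hα hk 1
    refine ⟨(k : ℝ) + 2, by positivity, n₀, fun n hn1 a b c ha hb hab hc hw => ?_⟩
    have h3 := hn n hn1 a b c ha hb hab hc hw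
    rw [one_mul] at h3
    have hk2 : (0 : ℝ) < (k : ℝ) + 2 := by positivity
    have h4 := Real.rpow_lt_rpow (Real.rpow_nonneg (Nat.cast_nonneg c) _) h3 hk2
    rw [← Real.rpow_mul (Nat.cast_nonneg c), one_div_mul_cancel hk2.ne', Real.rpow_one] at h4
    exact h4

end Pool.Agent.H107.AbcWin
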