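import Pool.Agent.H107.CodeOsc
import Pool.Agent.TH220.NT.Num

set_option autoImplicit false

/-! Binary codes: codewords with few codewords at middle distances. -/

open Filter Topology

namespace Pool.Agent.H107.CodeMid

open Pool.Agent.TH220.NT
open Pool.Agent.H818R2 (IsPacking)

/-- the cube in Euclidean space; squared distances are Hamming distances -/
noncomputable def emb {n : ℕ} (x : Fin n → Bool) : EuclideanSpace ℝ (Fin n) :=
  WithLp.toLp 2 fun i => if x i then 1 else 0

theorem dist_emb {n : ℕ} (x y : Fin n → Bool) : dist (emb x) (emb y) ^ 2 = hammingDist x y := by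
  rw [EuclideanSpace.dist_eq, Real.sq_sqrt (Finset.sum_nonneg fun _ _ => sq_nonneg _)]
  unfold hammingDist
  rw [Finset.card_filter]
  push_cast
  refine Finset.sum_congr rfl fun i _ => ?_
  rw [Real.dist_eq, sq_abs]
  unfold emb
  cases h1 : x i <;> cases h2 : y i <;> simp [h1, h2]

theorem emb_inj {n : ℕ} : Function.Injective (emb (n := n)) := by
  intro x y h
  have h1 := dist_emb x y
  rw [h, dist_self] at h1
  have h2 : hammingDist x y = 0 := by
    have : ((hammingDist x y : ℕ) : ℝ) = 0 := by rw [← h1]; norm_num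
    exact_mod_cast this
  exact hammingDist_eq_zero.1 h2

open Classical in
/-- the words of `C` that have at most `κ` words of `C` at distance strictly between `a` and `b` -/
noncomputable def few {n : ℕ} (C : Finset (Fin n → Bool)) (a b κ : ℝ) : Finset (Fin n → Bool) :=
  C.filter fun x =>
    ((C.filter fun y => a < hammingDist x y ∧ (hammingDist x y : ℝ) < b).card : ℝ) ≤ κ

theorem few_le {n : ℕ} (C : Finset (Fin n → Bool)) {d : ℝ} (hd : 0 < d)
    (hC : ∀ x ∈ C, ∀ y ∈ C, x ≠ y → d ≤ hammingDist x y) {α β : ℝ}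
    (hα : 1 ≤ α) (hαβ : α < β) {k a m : ℕ} (hk : 1 ≤ k)
    (hclique : ∀ Q : Finset (EuclideanSpace ℝ (Fin n)),
      (∀ x ∈ Q, ∀ y ∈ Q, x ≠ y → 1 ≤ dist x y ∧ dist x y ≤ α) → Q.card ≤ a)
    (hm : β ^ 2 < (m + 1) * (β ^ 2 - (2 * α ^ 2 - 1 + 1 / k))) {M : ℕ}
    (hM : ∀ Q : Finset (Fin n → Bool), (∀ x ∈ Q, ∀ y ∈ Q, x ≠ y → β ^ 2 * d ≤ hammingDist x y) →
      Q.card ≤ M) (κ : ℕ) :
    (few C (α ^ 2 * d) (β ^ 2 * d) κ).card ≤ (κ + 1) * (M *
      ((∏ i ∈ Finset.Ico 1 k, 2 * codeMax (n + 1) (cosB α β i)) * (a + m).choose a)) := by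
  classical
  set D : ℕ := (∏ i ∈ Finset.Ico 1 k, 2 * codeMax (n + 1) (cosB α β i)) *
    (a + m).choose a with hD
  have hα0 : 0 < α := by linarith
  have hβ0 : 0 < β := by linarith
  set l : ℝ := √d with hl
  have hl0 : 0 < l := Real.sqrt_pos.2 hd
  have hl2 : l ^ 2 = d := Real.sq_sqrt hd.le
  set S := few C (α ^ 2 * d) (β ^ 2 * d) κ with hS
  have hSC : S ⊆ C := Finset.filter_subset _ _
  let R : (Fin n → Bool) → (Fin n → Bool) → Prop := fun x y =>
    α ^ 2 * d < hammingDist x y ∧ (hammingDist x y : ℝ) < β ^ 2 * d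
  let R2 : (Fin n → Bool) → (Fin n → Bool) → Prop := fun x y =>
    (hammingDist x y : ℝ) < β ^ 2 * d
  have hRs : ∀ x y, R x y → R y x := by
    intro x y h
    simp only [R] at h ⊢
    rw [hammingDist_comm]
    exact h
  have hR2s : ∀ x y, R2 x y → R2 y x := by
    intro x y h
    simp only [R2] at h ⊢
    rw [hammingDist_comm]
    exact h
  rw [mul_comm (κ + 1)]
  apply greedy R hRs S
  · intro Q hQS hQ
    have hQC : ∀ x ∈ Q, x ∈ C := fun x hx => hSC (hQS hx)
    have hsep : ∀ x ∈ Q, ∀ y ∈ Q, x ≠ y → l ≤ dist (emb x) (emb y) := by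
      intro x hx y hy hxy
      have h2 : d ≤ hammingDist x y := hC _ (hQC x hx) _ (hQC y hy) hxy
      rw [← dist_emb, ← hl2] at h2
      exact (sq_le_sq₀ hl0.le dist_nonneg).1 h2
    have hpack : IsPacking (emb '' (Q : Set (Fin n → Bool))) (l / 2) := by
      rw [packing_iff (by positivity)]
      rintro _ ⟨x, hx, rfl⟩ _ ⟨y, hy, rfl⟩ hxy
      have := hsep x hx y hy (fun e => hxy (by rw [e]))
      linarith
    apply greedy R2 hR2s Q
    · intro Q' hQ'Q hQ'
      apply hM Q'
      intro x hx y hy hxy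
      exact not_lt.1 (hQ' x hx y hy hxy)
    · intro q hq
      have h2 := deg_le hα hαβ hk hclique hm hpack
        (by
          rintro _ ⟨x, hx, rfl⟩ _ ⟨y, hy, rfl⟩ hxy ⟨c1, c2⟩
          apply hQ x hx y hy (fun e => hxy (by rw [e]))
          have d0 : 0 ≤ dist (emb x) (emb y) := dist_nonneg
          simp only [R]
          rw [← dist_emb, ← hl2, ← mul_pow, ← mul_pow]
          constructor
          · exact pow_lt_pow_left₀ (by linarith) (by positivity) (by norm_num)
          · exact pow_lt_pow_left₀ (by linarith) d0 (by norm_num))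
        (x := emb q) ⟨q, hq, rfl⟩ (F := ((Q.erase q).filter (fun y => R2 q y)).image emb)
        (by
          intro y hy
          obtain ⟨x, hx, rfl⟩ := Finset.mem_image.1 hy
          obtain ⟨hx1, hx2⟩ := Finset.mem_filter.1 hx
          refine ⟨⟨x, Finset.mem_of_mem_erase hx1, rfl⟩,
            fun e => Finset.ne_of_mem_erase hx1 (emb_inj e), ?_⟩
          have e : 2 * β * (l / 2) = β * l := by ring
          rw [e]
          apply lt_of_pow_lt_pow_left₀ 2 (by positivity)
          rw [dist_emb, mul_pow, hl2]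
          exact hx2)
      rw [Finset.card_image_of_injective _ emb_inj] at h2
      exact h2
  · intro q hq
    apply Nat.succ_le_succ
    have h1 := (Finset.mem_filter.1 hq).2
    have h2 : (C.filter fun y => α ^ 2 * d < hammingDist q y ∧
      (hammingDist q y : ℝ) < β ^ 2 * d).card ≤ κ := by exact_mod_cast h1
    refine le_trans (Finset.card_le_card ?_) h2
    intro y hy
    obtain ⟨hy1, hy2⟩ := Finset.mem_filter.1 hy
    exact Finset.mem_filter.2 ⟨hSC (Finset.mem_of_mem_erase hy1), hy2⟩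

/-- inner products: the exact case -/
theorem few_exact {n d : ℕ} (hd : 1 ≤ d) (C : Finset (Fin n → Bool))
    (hC : ∀ x ∈ C, ∀ y ∈ C, x ≠ y → d ≤ hammingDist x y) (κ : ℕ) :
    (few C d (2 * d) κ).card ≤
      (κ + 1) * CodeOsc.A n (2 * d) * (4 * (n + 1) * (n + 5).choose 4) := by
  have hs : (√2 : ℝ) ^ 2 = 2 := Real.sq_sqrt (by norm_num)
  have hd0 : (0 : ℝ) < d := by exact_mod_cast hd
  have h := few_le C hd0 (fun x hx y hy hxy => by exact_mod_cast hC x hx y hy hxy)
    (α := 1) (β := √2) (k := 2) (a := n + 1) (m := 4) le_rfl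
    (Real.lt_sqrt_of_sq_lt (by norm_num)) (by norm_num) (fun Q hQ => clique_one Q hQ)
    (by rw [hs]; norm_num) (M := CodeOsc.A n (2 * d))
    (by
      intro Q hQ
      apply CodeOsc.le_A
      intro x hx y hy hxy
      have := hQ x hx y hy hxy
      rw [hs] at this
      exact_mod_cast this) κ
  rw [one_pow, one_mul, hs] at h
  refine h.trans ?_
  rw [mul_assoc (κ + 1)]
  apply Nat.mul_le_mul_left
  apply Nat.mul_le_mul_left
  have e2 : ∏ i ∈ Finset.Ico 1 2, 2 * codeMax (n + 1) (cosB 1 (√2) i)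
      = 2 * codeMax (n + 1) 0 := by
    rw [Finset.prod_Ico_succ_top (by norm_num)]
    simp only [Finset.Ico_self, Finset.prod_empty, one_mul]
    congr 2
    unfold cosB
    rw [hs]
    norm_num
  rw [e2]
  have e3 := codeMax_zero (n + 1)
  have e4 : (n + 1 + 4).choose (n + 1) = (n + 5).choose 4 := by
    rw [Nat.choose_symm_add]
  rw [e4]
  apply Nat.mul_le_mul_right
  omega

end Pool.Agent.H107.CodeMid
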