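import Pool.Agent.H107.CodeOsc2

set_option autoImplicit false

/-! Dependence of the upper and the lower rate on the relative distance. -/

open Filter Topology Set

namespace Pool.Agent.H107.CodeOsc

open Pool.Agent.H107.SlowGen

/-- the upper rate `R(δ)` -/
noncomputable def rU (δ : ℝ) : ℝ := limsup (u δ) atTop

/-- the lower rate -/
noncomputable def rL (δ : ℝ) : ℝ := liminf (u δ) atTop

lemma u_bddU (δ : ℝ) (f : Filter ℕ) : IsBoundedUnder (· ≤ ·) f (u δ) :=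
  isBoundedUnder_of ⟨1, u_le_one δ⟩

lemma u_bddL (δ : ℝ) (f : Filter ℕ) : IsBoundedUnder (· ≥ ·) f (u δ) :=
  isBoundedUnder_of ⟨0, u_nonneg δ⟩

/-- the lengths `⌈c n⌉` -/
noncomputable def mm (c : ℝ) (n : ℕ) : ℕ := ⌈c * n⌉₊

lemma mm_strict {c : ℝ} (hc : 1 ≤ c) : StrictMono (mm c) := by
  apply strictMono_nat_of_lt_succ
  intro n
  unfold mm
  have h0 : 0 ≤ c * n := by positivity
  have h1 : ⌈c * (n : ℝ)⌉₊ + 1 = ⌈c * (n : ℝ) + 1⌉₊ := (Nat.ceil_add_one h0).symm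
  have h2 : ⌈c * (n : ℝ) + 1⌉₊ ≤ ⌈c * ((n + 1 : ℕ) : ℝ)⌉₊ := by
    apply Nat.ceil_le_ceil
    push_cast
    linarith
  omega

lemma mm_ratio {c : ℝ} (hc : 1 ≤ c) :
    Tendsto (fun j => (mm c (j + 1) : ℝ) / mm c j) atTop (𝓝 1) := by
  have hc0 : 0 < c := by linarith
  have t1 : Tendsto (fun n : ℕ => (mm c n : ℝ) / (n : ℝ)) atTop (𝓝 c) :=
    (tendsto_nat_ceil_mul_div_atTop hc0.le).comp tendsto_natCast_atTop_atTop
  have t2 : Tendsto (fun n : ℕ => (mm c (n + 1) : ℝ) / ((n + 1 : ℕ) : ℝ)) atTop (𝓝 c) :=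
    t1.comp (tendsto_add_atTop_nat 1)
  have t3 : Tendsto (fun n : ℕ => ((n + 1 : ℕ) : ℝ) / (n : ℝ)) atTop (𝓝 1) := by
    have h1 : Tendsto (fun n : ℕ => (1 : ℝ) / (n : ℝ)) atTop (𝓝 0) :=
      tendsto_one_div_atTop_nhds_zero_nat
    have h2 := h1.const_add 1
    rw [add_zero] at h2
    refine h2.congr' ?_
    filter_upwards [eventually_gt_atTop 0] with n hn
    have : (n : ℝ) ≠ 0 := by positivity
    push_cast
    field_simp
  have t4 := (t2.mul t3).div t1 hc0.ne'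
  rw [mul_one, div_self hc0.ne'] at t4
  refine t4.congr' ?_
  filter_upwards [eventually_gt_atTop 0] with n hn
  have h0 : (n : ℝ) ≠ 0 := by positivity
  have h1 : ((n + 1 : ℕ) : ℝ) ≠ 0 := by positivity
  have h2 : (mm c n : ℝ) ≠ 0 := by
    have : 0 < mm c n := Nat.ceil_pos.2 (by positivity)
    positivity
  simp only [Pi.div_apply]
  field_simp

lemma pointwise {δ δ' : ℝ} (h0 : 0 < δ) (h1 : δ ≤ δ') {n : ℕ} (hn : 0 < n) :
    1 - δ' / δ + δ' / δ * u δ (mm (δ' / δ) n) ≤ u δ' n + 1 / n := by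
  set c := δ' / δ with hc
  have hc1 : 1 ≤ c := by rw [hc, le_div_iff₀ h0]; linarith
  have hnr : (0 : ℝ) < n := by exact_mod_cast hn
  set m := mm c n with hm
  have hm1 : c * n ≤ m := Nat.le_ceil _
  have hm2 : (m : ℝ) < c * n + 1 := Nat.ceil_lt_add_one (by positivity)
  have hnm' : (n : ℝ) ≤ m := by nlinarith
  have hnm : n ≤ m := by exact_mod_cast hnm'
  have hmr : (0 : ℝ) < m := by linarith
  have hle : ⌈δ' * (n : ℝ)⌉₊ ≤ ⌈δ * (m : ℝ)⌉₊ := by
    apply Nat.ceil_le_ceil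
    calc δ' * n = δ * (c * n) := by rw [hc]; field_simp
      _ ≤ δ * m := by gcongr
  have h2 := logb_shorten hnm hle
  have e1 : Real.logb 2 (A m ⌈δ * (m : ℝ)⌉₊) = m * u δ m := by
    unfold u; field_simp
  have e2 : Real.logb 2 (A n ⌈δ' * (n : ℝ)⌉₊) = n * u δ' n := by
    unfold u; field_simp
  rw [e1, e2] at h2
  have h3 := u_le_one δ m
  have h4 := u_nonneg δ m
  rw [← sub_nonneg]
  have e3 : u δ' n + 1 / n - (1 - c + c * u δ m) =
      (n * u δ' n + 1 - n * (1 - c + c * u δ m)) / n := by field_simp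
  rw [e3]
  apply div_nonneg _ hnr.le
  nlinarith

theorem rU_anti {δ δ' : ℝ} (h1 : δ ≤ δ') : rU δ' ≤ rU δ := by
  apply limsup_le_limsup _ (u_bddL δ' _).isCoboundedUnder_le (u_bddU δ _)
  refine Eventually.of_forall fun n => ?_
  have : (A n ⌈δ' * (n : ℝ)⌉₊ : ℝ) ≤ A n ⌈δ * (n : ℝ)⌉₊ := by
    exact_mod_cast A_anti n (Nat.ceil_le_ceil (by gcongr))
  show u δ' n ≤ u δ n
  unfold u
  gcongr
  · norm_num
  · exact A_pos _ _

theorem rL_anti {δ δ' : ℝ} (h1 : δ ≤ δ') : rL δ' ≤ rL δ := by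
  apply liminf_le_liminf _ (u_bddL δ' _) (u_bddU δ _).isCoboundedUnder_ge
  refine Eventually.of_forall fun n => ?_
  have : (A n ⌈δ' * (n : ℝ)⌉₊ : ℝ) ≤ A n ⌈δ * (n : ℝ)⌉₊ := by
    exact_mod_cast A_anti n (Nat.ceil_le_ceil (by gcongr))
  show u δ' n ≤ u δ n
  unfold u
  gcongr
  · norm_num
  · exact A_pos _ _

lemma ev_pt {δ δ' : ℝ} (h0 : 0 < δ) (h1 : δ ≤ δ') {ε : ℝ} (hε : 0 < ε) : ∀ᶠ n : ℕ in atTop,
    1 - δ' / δ - ε + δ' / δ * u δ (mm (δ' / δ) n) ≤ u δ' n := by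
  have t : Tendsto (fun n : ℕ => (1 : ℝ) / (n : ℝ)) atTop (𝓝 0) :=
    tendsto_one_div_atTop_nhds_zero_nat
  filter_upwards [t.eventually (gt_mem_nhds hε), eventually_gt_atTop 0] with n hn1 hn2
  have := pointwise h0 h1 hn2
  linarith

/-- `(1 - R(δ)) / δ` is nonincreasing (upper rate) -/
theorem rU_slope {δ δ' : ℝ} (h0 : 0 < δ) (h1 : δ ≤ δ') :
    δ * (1 - rU δ') ≤ δ' * (1 - rU δ) := by
  set c := δ' / δ with hc
  have hc1 : 1 ≤ c := by rw [hc, le_div_iff₀ h0]; linarith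
  have hc0 : 0 < c := by linarith
  have hseq : limsup (fun j => u δ (mm c j)) atTop = rU δ :=
    inc_limsup_seq (slow h0.le) (mm_strict hc1) (mm_ratio hc1)
  have key : ∀ ε : ℝ, 0 < ε → 1 - c - ε + c * rU δ ≤ rU δ' := by
    intro ε hε
    have b1 : IsBoundedUnder (· ≤ ·) atTop (fun j => u δ (mm c j)) :=
      isBoundedUnder_of ⟨1, fun j => u_le_one δ _⟩
    have b2 : IsBoundedUnder (· ≥ ·) atTop (fun j => u δ (mm c j)) :=
      isBoundedUnder_of ⟨0, fun j => u_nonneg δ _⟩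
    have hmono : Monotone (fun x : ℝ => 1 - c - ε + c * x) := by
      intro x y hxy
      have := mul_le_mul_of_nonneg_left hxy hc0.le
      show 1 - c - ε + c * x ≤ 1 - c - ε + c * y
      linarith
    have e := hmono.map_limsup_of_continuousAt (a := fun j => u δ (mm c j)) (F := atTop)
      (by fun_prop) b1 b2.isCoboundedUnder_le
    rw [hseq] at e
    rw [e]
    apply limsup_le_limsup (ev_pt h0 h1 hε) _ (u_bddU δ' _)
    exact (isBoundedUnder_of (r := (· ≥ ·)) ⟨1 - c - ε, fun j => by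
      have := mul_nonneg hc0.le (u_nonneg δ (mm c j))
      simp only [Function.comp, ge_iff_le]
      linarith⟩).isCoboundedUnder_le
  have : 1 - c + c * rU δ ≤ rU δ' := by
    apply le_of_forall_pos_le_add
    intro ε hε
    have := key ε hε
    linarith
  have e : δ' = c * δ := by rw [hc]; field_simp
  rw [e] at this ⊢
  nlinarith

/-- `(1 - R(δ)) / δ` is nonincreasing (lower rate) -/
theorem rL_slope {δ δ' : ℝ} (h0 : 0 < δ) (h1 : δ ≤ δ') :
    δ * (1 - rL δ') ≤ δ' * (1 - rL δ) := by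
  set c := δ' / δ with hc
  have hc1 : 1 ≤ c := by rw [hc, le_div_iff₀ h0]; linarith
  have hc0 : 0 < c := by linarith
  have hseq : liminf (fun j => u δ (mm c j)) atTop = rL δ :=
    inc_liminf_seq (slow h0.le) (mm_strict hc1) (mm_ratio hc1)
  have key : ∀ ε : ℝ, 0 < ε → 1 - c - ε + c * rL δ ≤ rL δ' := by
    intro ε hε
    have b1 : IsBoundedUnder (· ≤ ·) atTop (fun j => u δ (mm c j)) :=
      isBoundedUnder_of ⟨1, fun j => u_le_one δ _⟩
    have b2 : IsBoundedUnder (· ≥ ·) atTop (fun j => u δ (mm c j)) :=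
      isBoundedUnder_of ⟨0, fun j => u_nonneg δ _⟩
    have hmono : Monotone (fun x : ℝ => 1 - c - ε + c * x) := by
      intro x y hxy
      have := mul_le_mul_of_nonneg_left hxy hc0.le
      show 1 - c - ε + c * x ≤ 1 - c - ε + c * y
      linarith
    have e := hmono.map_liminf_of_continuousAt (a := fun j => u δ (mm c j)) (F := atTop)
      (by fun_prop) b1.isCoboundedUnder_ge b2
    rw [hseq] at e
    rw [e]
    apply liminf_le_liminf (ev_pt h0 h1 hε) _ (u_bddU δ' _).isCoboundedUnder_ge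
    exact isBoundedUnder_of (r := (· ≥ ·)) ⟨1 - c - ε, fun j => by
      have := mul_nonneg hc0.le (u_nonneg δ (mm c j))
      simp only [Function.comp, ge_iff_le]
      linarith⟩
  have : 1 - c + c * rL δ ≤ rL δ' := by
    apply le_of_forall_pos_le_add
    intro ε hε
    have := key ε hε
    linarith
  have e : δ' = c * δ := by rw [hc]; field_simp
  rw [e] at this ⊢
  nlinarith

lemma rU_le_one (δ : ℝ) : rU δ ≤ 1 :=
  limsup_le_of_le (u_bddL δ _).isCoboundedUnder_le (Eventually.of_forall (u_le_one δ))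

lemma rL_nonneg (δ : ℝ) : 0 ≤ rL δ :=
  le_liminf_of_le (u_bddU δ _).isCoboundedUnder_ge (Eventually.of_forall (u_nonneg δ))

lemma rL_le_rU (δ : ℝ) : rL δ ≤ rU δ := liminf_le_limsup (u_bddU δ _) (u_bddL δ _)

end Pool.Agent.H107.CodeOsc
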