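import Pool.Agent.H107.CodeMid
import Pool.Agent.H107.CodeOsc3
import Pool.Agent.TH220.LC.Asy

set_option autoImplicit false

/-! Binary codes: codewords with few codewords at middle distances, asymptotic form. -/

open Filter Topology

namespace Pool.Agent.H107.CodeMid

open Pool.Agent.TH220.NT Pool.Agent.H107.CodeOsc

theorem few_floor {n : ℕ} (C : Finset (Fin n → Bool)) (a b : ℝ) {κ : ℝ} (hκ : 0 ≤ κ) :
    few C a b κ = few C a b (⌊κ⌋₊ : ℕ) := by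
  classical
  unfold few
  ext x
  simp only [Finset.mem_filter]
  rw [← Nat.le_floor_iff hκ, Nat.cast_le]

/-- the rate at a slightly smaller distance -/
theorem rU_near {δ η : ℝ} (h0 : 0 < δ) (hη0 : 0 ≤ η) (hη1 : η ≤ 1) :
    rU ((2 - η) * δ) ≤ rU (2 * δ) + η / 2 := by
  have h1 := rU_slope (δ := (2 - η) * δ) (δ' := 2 * δ) (by nlinarith) (by nlinarith)
  have h2 := rU_le_one (2 * δ)
  have h4 := (rL_nonneg (2 * δ)).trans (rL_le_rU (2 * δ))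
  have h3 : (2 - η) * (1 - rU (2 * δ)) ≤ 2 * (1 - rU ((2 - η) * δ)) := by
    have : δ * ((2 - η) * (1 - rU (2 * δ))) ≤ δ * (2 * (1 - rU ((2 - η) * δ))) := by
      linarith
    exact le_of_mul_le_mul_left this h0
  nlinarith

/-- the choice of the parameters -/
theorem params {ε : ℝ} (hε : 0 < ε) : ∃ η : ℝ, 0 < η ∧ η < 1 / 100 ∧ η ≤ ε / 2 ∧ ∃ J : ℕ, 1 ≤ J ∧
    ∀ᶠ n : ℕ in atTop, (((∏ i ∈ Finset.Ico 1 2, 2 * codeMax (n + 1) (cosB (√(1 + η)) (√(2 - η)) i)) *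
      (J + codeMax (n + 1) (cosB (√(1 + η)) 1 J) + 4).choose
        (J + codeMax (n + 1) (cosB (√(1 + η)) 1 J)) : ℕ) : ℝ) ≤ (2 : ℝ) ^ (ε / 4 * n) := by
  have hl2 : 0 < Real.log 2 := Real.log_pos (by norm_num)
  set γ : ℝ := ε / 4 * Real.log 2 with hγ
  have hγ0 : 0 < γ := by positivity
  have hG : ∀ᶠ v in 𝓝[>] (0 : ℝ), 5 * Pool.Agent.TH220.NT.G v < γ := by
    have h2 : Tendsto (fun v => 5 * Pool.Agent.TH220.NT.G v) (𝓝[>] 0)
        (𝓝 (5 * Pool.Agent.TH220.NT.G 0)) :=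
      ((continuous_const.mul Pool.Agent.TH220.LC.continuous_G).tendsto 0).mono_left
        nhdsWithin_le_nhds
    rw [Pool.Agent.TH220.LC.G_zero, mul_zero] at h2
    exact h2.eventually (gt_mem_nhds hγ0)
  have hvI : ∀ᶠ v in 𝓝[>] (0 : ℝ), v ∈ Set.Ioo (0 : ℝ) (1 / 4) := Ioo_mem_nhdsGT (by norm_num)
  obtain ⟨v, hv, hv14⟩ := (hG.and hvI).exists
  obtain ⟨hv0, hv1⟩ := hv14
  have hsv : 0 < √v / 4 := by positivity
  have hI1 : ∀ᶠ η in 𝓝[>] (0 : ℝ), η ∈ Set.Ioo (0 : ℝ) (1 / 100) := Ioo_mem_nhdsGT (by norm_num)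
  have hI2 : ∀ᶠ η in 𝓝[>] (0 : ℝ), η ∈ Set.Ioo (0 : ℝ) (√v / 4) := Ioo_mem_nhdsGT hsv
  have hI3 : ∀ᶠ η in 𝓝[>] (0 : ℝ), η ∈ Set.Ioo (0 : ℝ) (ε / 2) := Ioo_mem_nhdsGT (by positivity)
  obtain ⟨η, hηI, hηJ, hηε⟩ := (hI1.and (hI2.and hI3)).exists
  obtain ⟨hη0, hη100⟩ := hηI
  have hηv : η ^ 2 ≤ v / 16 := by
    have h2 : η ≤ √v / 4 := hηJ.2.le
    have h3 : η ^ 2 ≤ (√v / 4) ^ 2 := pow_le_pow_left₀ hη0.le h2 2
    rw [div_pow, Real.sq_sqrt hv0.le] at h3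
    linarith
  obtain ⟨J, hJ⟩ := exists_nat_gt (1 / η)
  have hJ0 : (0 : ℝ) < J := lt_trans (by positivity) hJ
  have hJ1 : 1 ≤ J := by
    have : 0 < J := by exact_mod_cast hJ0
    omega
  have hJη : 1 / (J : ℝ) ≤ η := by
    rw [div_lt_iff₀ hη0] at hJ
    rw [div_le_iff₀ hJ0]
    linarith
  set α : ℝ := √(1 + η) with hα
  set β : ℝ := √(2 - η) with hβ
  have hα2 : α ^ 2 = 1 + η := Real.sq_sqrt (by linarith)
  have hβ2 : β ^ 2 = 2 - η := Real.sq_sqrt (by linarith)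
  have hα1 : 1 ≤ α := by
    rw [hα, Real.le_sqrt' one_pos]
    linarith
  have hcos1 : cosB α β 1 ^ 2 ≤ v := by
    have h2 : cosB α β 1 = 3 * η / (2 + 2 * η) := by
      unfold cosB
      rw [hα2, hβ2]
      have : (2 + 2 * η) ≠ 0 := by positivity
      field_simp
      push_cast
      ring
    have h3 : 3 * η / (2 + 2 * η) ≤ 3 * η / 2 :=
      div_le_div_of_nonneg_left (by positivity) (by norm_num) (by linarith)
    have h4 : (0 : ℝ) ≤ 3 * η / (2 + 2 * η) := by positivity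
    rw [h2]
    calc (3 * η / (2 + 2 * η)) ^ 2 ≤ (3 * η / 2) ^ 2 := pow_le_pow_left₀ h4 h3 2
      _ ≤ v := by nlinarith
  have hcosJ : cosB α 1 J ^ 2 ≤ v := by
    have h2 : cosB α 1 J = (2 * η + 1 / J) / (1 + (2 * η + 1 / J)) := by
      unfold cosB
      rw [hα2]
      have : (1 + (2 * η + 1 / (J : ℝ))) ≠ 0 := by positivity
      have e : 2 * (1 + η) - 1 + 1 / (J : ℝ) = 1 + (2 * η + 1 / J) := by ring
      rw [e, one_pow, eq_div_iff this, sub_mul, one_mul, one_div_mul_cancel this]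
      ring
    have h3 : (2 * η + 1 / J) / (1 + (2 * η + 1 / J)) ≤ 3 * η := by
      rw [div_le_iff₀ (by positivity)]
      have : 0 ≤ 1 / (J : ℝ) := by positivity
      nlinarith
    have h4 : (0 : ℝ) ≤ (2 * η + 1 / J) / (1 + (2 * η + 1 / J)) := by positivity
    rw [h2]
    calc ((2 * η + 1 / J) / (1 + (2 * η + 1 / J))) ^ 2 ≤ (3 * η) ^ 2 := pow_le_pow_left₀ h4 h3 2
      _ ≤ v := by nlinarith
  have hvv : ∀ s : ℝ, s ^ 2 ≤ v → s ^ 2 * (1 + 2 * v) ^ 2 < 4 * v * (1 + v) := by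
    intro s hs
    have h2 : (1 + 2 * v) ^ 2 ≤ 9 / 4 := by nlinarith
    calc s ^ 2 * (1 + 2 * v) ^ 2 ≤ v * (9 / 4) :=
          mul_le_mul hs h2 (by positivity) hv0.le
      _ < 4 * v * (1 + v) := by nlinarith
  have hD := D_asym (α := α) (β := β) hα1 (k := 2) (J := J) (m := 4) (fun _ => v) (v0 := v)
    (by
      intro i hi
      rw [Finset.mem_Ico] at hi
      obtain rfl : i = 1 := by omega
      exact ⟨hv0, hvv _ hcos1⟩)
    hv0 (hvv _ hcosJ) (γ := γ) (by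
      rw [Finset.sum_Ico_succ_top (by norm_num)]
      simp only [Finset.Ico_self, Finset.sum_empty, zero_add]
      push_cast
      linarith)
  refine ⟨η, hη0, hη100, hηε.2.le, J, hJ1, hD.mono fun n hn => hn.trans (le_of_eq ?_)⟩
  rw [Real.rpow_def_of_pos (by norm_num)]
  congr 1
  rw [hγ]
  ring

theorem asym {δ ε : ℝ} (h0 : 0 < δ) (hε : 0 < ε) :
    ∃ η c : ℝ, 0 < η ∧ η < 1 / 2 ∧ 0 < c ∧ ∃ n0 : ℕ, ∀ n ≥ n0, ∀ d : ℝ, δ * n ≤ d →
      ∀ C : Finset (Fin n → Bool), (∀ x ∈ C, ∀ y ∈ C, x ≠ y → d ≤ hammingDist x y) →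
        ((few C ((1 + η) * d) ((2 - η) * d) ((2 : ℝ) ^ (c * n))).card : ℝ) ≤
          (2 : ℝ) ^ ((rU (2 * δ) + ε) * n) := by
  obtain ⟨η, hη0, hη1, hηε, J, hJ1, hD⟩ := params hε
  have hα2 : (√(1 + η)) ^ 2 = 1 + η := Real.sq_sqrt (by linarith)
  have hβ2 : (√(2 - η)) ^ 2 = 2 - η := Real.sq_sqrt (by linarith)
  have hα1 : 1 ≤ √(1 + η) := by
    rw [Real.le_sqrt' one_pos]
    linarith
  have hαβ : √(1 + η) < √(2 - η) := Real.sqrt_lt_sqrt (by linarith) (by linarith)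
  have hR : ∀ᶠ n : ℕ in atTop, u ((2 - η) * δ) n < rU ((2 - η) * δ) + ε / 8 :=
    eventually_lt_of_limsup_lt (show limsup (u ((2 - η) * δ)) atTop < rU ((2 - η) * δ) + ε / 8 by
      unfold rU; linarith) (u_bddU _ _)
  have hnear := rU_near (δ := δ) (η := η) h0 hη0.le (by linarith)
  have hbig : ∀ᶠ n : ℕ in atTop, 1 ≤ ε / 8 * (n : ℝ) := by
    have : Tendsto (fun n : ℕ => ε / 8 * (n : ℝ)) atTop atTop :=
      tendsto_natCast_atTop_atTop.const_mul_atTop (by positivity)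
    exact this.eventually_ge_atTop 1
  obtain ⟨n0, hn0⟩ := eventually_atTop.1 (hD.and (hR.and (hbig.and (eventually_gt_atTop 0))))
  refine ⟨η, ε / 8, hη0, by linarith, by positivity, n0, fun n hn d hd C hC => ?_⟩
  obtain ⟨hDn, hRn, hbn, hnpos⟩ := hn0 n hn
  have hnR : (0 : ℝ) < n := by exact_mod_cast hnpos
  have hd0 : 0 < d := lt_of_lt_of_le (by positivity) hd
  have h1 := few_le C hd0 hC hα1 hαβ (k := 2) (m := 4) (by norm_num)
    (fun Q hQ => clique_gen hα1 hJ1 Q hQ) (by rw [hα2, hβ2]; push_cast; linarith)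
    (M := A n ⌈((2 - η) * δ) * n⌉₊)
    (by
      intro Q hQ
      apply le_A
      intro x hx y hy hxy
      apply Nat.ceil_le.2
      refine le_trans ?_ (hQ x hx y hy hxy)
      rw [hβ2, mul_assoc]
      exact mul_le_mul_of_nonneg_left hd (by linarith)) ⌊(2 : ℝ) ^ (ε / 8 * n)⌋₊
  rw [hα2, hβ2, ← few_floor C _ _ (by positivity)] at h1
  set D : ℕ := (∏ i ∈ Finset.Ico 1 2, 2 * codeMax (n + 1) (cosB (√(1 + η)) (√(2 - η)) i)) *
      (J + codeMax (n + 1) (cosB (√(1 + η)) 1 J) + 4).choose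
        (J + codeMax (n + 1) (cosB (√(1 + η)) 1 J)) with hDd
  have h2 : ((few C ((1 + η) * d) ((2 - η) * d) ((2 : ℝ) ^ (ε / 8 * n))).card : ℝ) ≤
      ((⌊(2 : ℝ) ^ (ε / 8 * n)⌋₊ : ℝ) + 1) * ((A n ⌈((2 - η) * δ) * n⌉₊ : ℝ) * D) := by
    exact_mod_cast h1
  have h3 : (⌊(2 : ℝ) ^ (ε / 8 * n)⌋₊ : ℝ) + 1 ≤ (2 : ℝ) ^ (ε / 4 * n) := by
    have a1 : (⌊(2 : ℝ) ^ (ε / 8 * n)⌋₊ : ℝ) ≤ (2 : ℝ) ^ (ε / 8 * n) :=
      Nat.floor_le (by positivity)
    have a2 : (2 : ℝ) ^ (ε / 4 * n) = (2 : ℝ) ^ (ε / 8 * n) * (2 : ℝ) ^ (ε / 8 * n) := by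
      rw [← Real.rpow_add (by norm_num)]
      congr 1
      ring
    have a3 : (2 : ℝ) ≤ (2 : ℝ) ^ (ε / 8 * n) := by
      calc (2 : ℝ) = (2 : ℝ) ^ (1 : ℝ) := by rw [Real.rpow_one]
        _ ≤ _ := Real.rpow_le_rpow_of_exponent_le (by norm_num) hbn
    rw [a2]
    nlinarith
  have h4 : (A n ⌈((2 - η) * δ) * n⌉₊ : ℝ) ≤ (2 : ℝ) ^ ((rU (2 * δ) + ε / 4 + ε / 8) * n) := by
    rw [← Real.logb_le_iff_le_rpow (by norm_num) (A_pos _ _)]
    have e1 : Real.logb 2 (A n ⌈((2 - η) * δ) * (n : ℝ)⌉₊) = u ((2 - η) * δ) n * n := by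
      unfold u; field_simp
    rw [e1]
    apply mul_le_mul_of_nonneg_right _ hnR.le
    linarith
  calc ((few C ((1 + η) * d) ((2 - η) * d) ((2 : ℝ) ^ (ε / 8 * n))).card : ℝ)
      ≤ ((⌊(2 : ℝ) ^ (ε / 8 * n)⌋₊ : ℝ) + 1) * ((A n ⌈((2 - η) * δ) * n⌉₊ : ℝ) * D) := h2
    _ ≤ (2 : ℝ) ^ (ε / 4 * n) * ((2 : ℝ) ^ ((rU (2 * δ) + ε / 4 + ε / 8) * n) *
        (2 : ℝ) ^ (ε / 4 * n)) := by gcongr
    _ = (2 : ℝ) ^ ((rU (2 * δ) + 7 * ε / 8) * n) := by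
        rw [← Real.rpow_add (by norm_num), ← Real.rpow_add (by norm_num)]
        congr 1
        ring
    _ ≤ (2 : ℝ) ^ ((rU (2 * δ) + ε) * n) := by
        apply Real.rpow_le_rpow_of_exponent_le (by norm_num)
        apply mul_le_mul_of_nonneg_right _ hnR.le
        linarith

/-- codes of relative distance `2 δ` are exponentially smaller than the Gilbert-Varshamov bound for
relative distance `δ` -/
theorem rU_two {δ : ℝ} (h0 : 0 < δ) (h1 : δ < 1 / 4) :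
    rU (2 * δ) < 1 - Real.binEntropy δ / Real.log 2 := by
  have hq : 2 ≤ Fintype.card Bool := by simp
  have hc : (Fintype.card Bool) = 2 := by simp
  obtain ⟨β0, hβ0n, hβ0, n1, hn1⟩ := Pool.Agent.H235R2.QLP.codes Bool hq (δ := 2 * δ) (by linarith)
    (by rw [hc]; norm_num; linarith)
  rw [hc] at hβ0 hn1
  have hδ' : 0 < 2 * δ := by linarith
  have hδ'1 : 2 * δ < 1 - 1 / ((2 : ℕ) : ℝ) := by norm_num; linarith
  have h2 := Pool.Agent.H235R2.QLP.Bq_le_chord (by norm_num : 0 < 2) (r := 1) (δ₁ := 2 * δ)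
    (δ₂ := 2 * δ) zero_le_one le_rfl (by rw [one_mul, sub_self, zero_mul, add_zero]; exact hδ'.le)
    (Pool.Agent.H235R2.QLP.ach_elias le_rfl hδ'.le hδ'1.le)
    (Pool.Agent.H235R2.QLP.ach_elias le_rfl hδ'.le hδ'1.le)
  rw [one_mul, sub_self, zero_mul, zero_mul, add_zero, one_mul, add_zero] at h2
  have h3 := Pool.Agent.TH220.LC.elias_lt (q := 2) le_rfl h0 hδ'1
  have h4 : rU (2 * δ) ≤ β0 := by
    apply limsup_le_of_le (u_bddL _ _).isCoboundedUnder_le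
    filter_upwards [eventually_ge_atTop n1, eventually_gt_atTop 0] with n hn hn'
    have hnR : (0 : ℝ) < n := by exact_mod_cast hn'
    obtain ⟨C, hC, hcard⟩ := A_mem n ⌈2 * δ * n⌉₊
    have h5 := hn1 n hn C (fun x hx y hy hxy => by
      refine (Nat.le_ceil _).trans ?_
      exact_mod_cast hC x hx y hy hxy)
    rw [hcard] at h5
    unfold u
    rw [div_le_iff₀ hnR, Real.logb_le_iff_le_rpow (by norm_num) (A_pos _ _)]
    exact_mod_cast h5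
  have h6 : Pool.Agent.H235R2.QLP.Hq 2 δ = Real.binEntropy δ / Real.log 2 := by
    unfold Pool.Agent.H235R2.QLP.Hq
    rw [Real.binEntropy_eq_negMulLog_add_negMulLog_one_sub]
    norm_num
  rw [h6] at h3
  linarith

end Pool.Agent.H107.CodeMid
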