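import Mathlib

set_option autoImplicit false

/-! Shortening of codes. -/

open Filter Topology

namespace Pool.Agent.H107.CodeOsc

/-- `A(n,d)`: the largest size of a binary code of length `n` with minimum distance at least `d`. -/
noncomputable def A (n d : ℕ) : ℕ :=
  sSup {k | ∃ C : Finset (Fin n → Bool),
    (∀ x ∈ C, ∀ y ∈ C, x ≠ y → d ≤ hammingDist x y) ∧ C.card = k}

lemma A_bdd (n d : ℕ) : BddAbove {k | ∃ C : Finset (Fin n → Bool),
    (∀ x ∈ C, ∀ y ∈ C, x ≠ y → d ≤ hammingDist x y) ∧ C.card = k} := by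
  refine ⟨Fintype.card (Fin n → Bool), ?_⟩
  rintro k ⟨C, -, rfl⟩
  exact Finset.card_le_univ C

lemma A_mem (n d : ℕ) : ∃ C : Finset (Fin n → Bool),
    (∀ x ∈ C, ∀ y ∈ C, x ≠ y → d ≤ hammingDist x y) ∧ C.card = A n d := by
  have : A n d ∈ {k | ∃ C : Finset (Fin n → Bool),
      (∀ x ∈ C, ∀ y ∈ C, x ≠ y → d ≤ hammingDist x y) ∧ C.card = k} :=
    Nat.sSup_mem ⟨0, ∅, by simp, by simp⟩ (A_bdd n d)
  exact this

lemma le_A {n d : ℕ} {C : Finset (Fin n → Bool)}
    (hC : ∀ x ∈ C, ∀ y ∈ C, x ≠ y → d ≤ hammingDist x y) : C.card ≤ A n d :=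
  le_csSup (A_bdd n d) ⟨C, hC, rfl⟩

lemma one_le_A (n d : ℕ) : 1 ≤ A n d := by
  have := le_A (n := n) (d := d) (C := {fun _ => true}) (by
    intro x hx y hy hxy
    rw [Finset.mem_singleton] at hx hy
    exact absurd (hx.trans hy.symm) hxy)
  simpa using this

lemma A_le_pow (n d : ℕ) : A n d ≤ 2 ^ n := by
  obtain ⟨C, -, hC⟩ := A_mem n d
  rw [← hC]
  refine (Finset.card_le_univ C).trans ?_
  simp

lemma A_anti (n : ℕ) {d e : ℕ} (h : d ≤ e) : A n e ≤ A n d := by
  obtain ⟨C, hC, hc⟩ := A_mem n e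
  rw [← hc]
  exact le_A fun x hx y hy hxy => h.trans (hC x hx y hy hxy)

/-- the distance of two words which agree on the last `k` places -/
lemma dist_left {n k : ℕ} {x y : Fin (n + k) → Bool}
    (h : ∀ j : Fin k, x (Fin.natAdd n j) = y (Fin.natAdd n j)) :
    hammingDist x y = hammingDist (fun i : Fin n => x (Fin.castAdd k i))
      (fun i : Fin n => y (Fin.castAdd k i)) := by
  unfold hammingDist
  rw [Finset.card_filter, Finset.card_filter, Fin.sum_univ_add]
  simp [h]

/-- shortening -/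
theorem shorten (n k d : ℕ) : A (n + k) d ≤ 2 ^ k * A n d := by
  classical
  obtain ⟨C, hC, hc⟩ := A_mem (n + k) d
  rw [← hc]
  let R : (Fin (n + k) → Bool) → (Fin k → Bool) := fun x j => x (Fin.natAdd n j)
  let L : (Fin (n + k) → Bool) → (Fin n → Bool) := fun x i => x (Fin.castAdd k i)
  have h1 : C.card = ∑ b : Fin k → Bool, (C.filter fun x => R x = b).card :=
    Finset.card_eq_sum_card_fiberwise (fun x _ => Finset.mem_univ _)
  have h2 : ∀ b : Fin k → Bool, (C.filter fun x => R x = b).card ≤ A n d := by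
    intro b
    have hinj : Set.InjOn L (C.filter fun x => R x = b : Finset (Fin (n + k) → Bool)) := by
      intro x hx y hy hxy
      rw [Finset.mem_coe, Finset.mem_filter] at hx hy
      funext i
      refine Fin.addCases (fun i => ?_) (fun j => ?_) i
      · exact congrFun hxy i
      · exact congrFun (hx.2.trans hy.2.symm) j
    rw [← Finset.card_image_of_injOn hinj]
    apply le_A
    intro u hu v hv huv
    rw [Finset.mem_image] at hu hv
    obtain ⟨x, hx, rfl⟩ := hu
    obtain ⟨y, hy, rfl⟩ := hv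
    rw [Finset.mem_filter] at hx hy
    have hxy : x ≠ y := fun h => huv (by rw [h])
    have := hC x hx.1 y hy.1 hxy
    rwa [dist_left (fun j => congrFun (hx.2.trans hy.2.symm) j)] at this
  rw [h1]
  calc ∑ b : Fin k → Bool, (C.filter fun x => R x = b).card ≤ ∑ _b : Fin k → Bool, A n d :=
        Finset.sum_le_sum fun b _ => h2 b
    _ = 2 ^ k * A n d := by simp

end Pool.Agent.H107.CodeOsc
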