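import Pool.Agent.H107.SlowGen

set_option autoImplicit false

/-! Slowly increasing sequences: limit points and slowly growing sequences of indices. -/

open Filter Topology Set

namespace Pool.Agent.H107.SlowGen

open Pool.Agent.H160R3.Herm Pool.Agent.TH915.HC

variable {w : ℕ → ℝ} {η : ℝ → ℝ} {a b c : ℝ}

lemma cluster_sub {v : ℕ → ℝ} {x : ℝ} (h : MapClusterPt x atTop v) (c : ℝ) :
    MapClusterPt (c - x) atTop (fun n => c - v n) :=
  MapClusterPt.continuousAt_comp (f := fun y => c - y) (by fun_prop) h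

lemma cluster_iff {v : ℕ → ℝ} {x c : ℝ} :
    MapClusterPt (c - x) atTop (fun n => c - v n) ↔ MapClusterPt x atTop v := by
  refine ⟨fun h => ?_, fun h => cluster_sub h c⟩
  have := cluster_sub h c
  simpa using this

theorem inc_clusterPts_seq (h : SlowDec (fun n => c - w n) η a b) {φ : ℕ → ℕ} (hφ : StrictMono φ)
    (hr : Tendsto (fun j => (φ (j + 1) : ℝ) / φ j) atTop (𝓝 1)) :
    {x | MapClusterPt x atTop (fun j => w (φ j))} = Icc (liminf w atTop) (limsup w atTop) := by
  have h1 := h.clusterPts_seq hφ hr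
  rw [w_liminf h, w_limsup h] at h1
  ext x
  have h2 := Set.ext_iff.1 h1 (c - x)
  simp only [Set.mem_ofPred_eq, Set.mem_Icc] at h2 ⊢
  rw [cluster_iff (v := fun j => w (φ j))] at h2
  rw [h2]
  constructor
  · rintro ⟨h3, h4⟩; exact ⟨by linarith, by linarith⟩
  · rintro ⟨h3, h4⟩; exact ⟨by linarith, by linarith⟩

theorem inc_limsup_seq (h : SlowDec (fun n => c - w n) η a b) {φ : ℕ → ℕ} (hφ : StrictMono φ)
    (hr : Tendsto (fun j => (φ (j + 1) : ℝ) / φ j) atTop (𝓝 1)) :
    limsup (fun j => w (φ j)) atTop = limsup w atTop := by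
  have h1 := h.liminf_seq hφ hr
  rw [w_liminf h] at h1
  have h2 : liminf (fun j => c - w (φ j)) atTop = c - limsup (fun j => w (φ j)) atTop := by
    have b1 : IsBoundedUnder (· ≤ ·) atTop (fun j => w (φ j)) :=
      isBoundedUnder_of ⟨c - a, fun n => by linarith [h.lower (φ n)]⟩
    have b2 : IsBoundedUnder (· ≥ ·) atTop (fun j => w (φ j)) :=
      isBoundedUnder_of ⟨c - b, fun n => by linarith [h.upper (φ n)]⟩
    exact liminf_const_sub _ _ _ b1 b2.isCoboundedUnder_le
  linarith

theorem inc_liminf_seq (h : SlowDec (fun n => c - w n) η a b) {φ : ℕ → ℕ} (hφ : StrictMono φ)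
    (hr : Tendsto (fun j => (φ (j + 1) : ℝ) / φ j) atTop (𝓝 1)) :
    liminf (fun j => w (φ j)) atTop = liminf w atTop := by
  have h1 := h.limsup_seq hφ hr
  rw [w_limsup h] at h1
  have h2 : limsup (fun j => c - w (φ j)) atTop = c - liminf (fun j => w (φ j)) atTop := by
    have b1 : IsBoundedUnder (· ≤ ·) atTop (fun j => w (φ j)) :=
      isBoundedUnder_of ⟨c - a, fun n => by linarith [h.lower (φ n)]⟩
    have b2 : IsBoundedUnder (· ≥ ·) atTop (fun j => w (φ j)) :=
      isBoundedUnder_of ⟨c - b, fun n => by linarith [h.upper (φ n)]⟩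
    exact limsup_const_sub _ _ _ b1.isCoboundedUnder_ge b2
  linarith

end Pool.Agent.H107.SlowGen
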