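import Pool.Agent.H107.CodeOsc
import Pool.Agent.H107.SlowGen2

set_option autoImplicit false

/-! The rates `(1/n) log₂ A(n, ⌈δ n⌉)` increase slowly. -/

open Filter Topology Set

namespace Pool.Agent.H107.CodeOsc

open Pool.Agent.H160R3.Herm

/-- `(1/n) log₂ A(n, ⌈δ n⌉)` -/
noncomputable def u (δ : ℝ) (n : ℕ) : ℝ := Real.logb 2 (A n ⌈δ * n⌉₊) / n

lemma A_pos (n d : ℕ) : (0 : ℝ) < A n d := by exact_mod_cast one_le_A n d

lemma u_nonneg (δ : ℝ) (n : ℕ) : 0 ≤ u δ n :=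
  div_nonneg (Real.logb_nonneg (by norm_num) (by exact_mod_cast one_le_A n _)) (Nat.cast_nonneg n)

lemma logb_le (n d : ℕ) : Real.logb 2 (A n d) ≤ n := by
  rw [Real.logb_le_iff_le_rpow (by norm_num) (A_pos n d), Real.rpow_natCast]
  exact_mod_cast A_le_pow n d

lemma u_le_one (δ : ℝ) (n : ℕ) : u δ n ≤ 1 := by
  unfold u
  rcases Nat.eq_zero_or_pos n with rfl | hn
  · simp
  · have : (0 : ℝ) < n := by exact_mod_cast hn
    rw [div_le_one this]
    exact logb_le n _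

lemma logb_shorten {n m d e : ℕ} (h : n ≤ m) (hd : d ≤ e) :
    Real.logb 2 (A m e) ≤ (m - n) + Real.logb 2 (A n d) := by
  obtain ⟨k, rfl⟩ := Nat.exists_eq_add_of_le h
  have h1 : (A (n + k) e : ℝ) ≤ 2 ^ k * A n d := by
    exact_mod_cast (shorten n k e).trans (Nat.mul_le_mul_left _ (A_anti n hd))
  have h2 := Real.logb_le_logb_of_le (b := 2) (by norm_num) (A_pos _ _) h1
  rw [Real.logb_mul (by positivity) (A_pos _ _).ne', Real.logb_pow,
    Real.logb_self_eq_one (by norm_num), mul_one] at h2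
  push_cast
  linarith

/-- the modulus -/
theorem u_mul_le {δ : ℝ} (hδ : 0 ≤ δ) {n m : ℕ} (hn : 0 < n) (h : n ≤ m) :
    m * u δ m ≤ n * u δ n + (m - n) := by
  have hn' : (n : ℝ) ≠ 0 := by positivity
  have hm' : (m : ℝ) ≠ 0 := by
    have : 0 < m := by omega
    positivity
  unfold u
  rw [mul_div_cancel₀ _ hm', mul_div_cancel₀ _ hn']
  have hle : ⌈δ * (n : ℝ)⌉₊ ≤ ⌈δ * (m : ℝ)⌉₊ := Nat.ceil_le_ceil (by gcongr)
  have := logb_shorten h hle
  linarith

theorem slow {δ : ℝ} (hδ : 0 ≤ δ) : SlowDec (fun n => 1 - u δ n) (fun θ => 1 * θ) 0 1 := by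
  apply Pool.Agent.H107.SlowGen.mk zero_le_one
  · intro n; linarith [u_le_one δ n]
  · intro n; linarith [u_nonneg δ n]
  · intro n m hn hnm
    have hm' : (0 : ℝ) < m := by
      have : 0 < m := by omega
      exact_mod_cast this
    have h1 := u_mul_le hδ hn hnm
    have h2 : u δ m - u δ n ≤ ((m : ℝ) - n) / m := by
      rw [le_div_iff₀ hm']
      have h3 : (n : ℝ) ≤ m := by exact_mod_cast hnm
      nlinarith [u_nonneg δ n]
    have e : 1 * (1 - (n : ℝ) / m) = ((m : ℝ) - n) / m := by field_simp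
    rw [e]
    linarith

end Pool.Agent.H107.CodeOsc
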