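import Mathlib

set_option autoImplicit false

/-! From dyadic blocks to initial segments. -/

namespace Pool.Agent.H107.Dyad

open Set

lemma finite_le (S : Set ℕ) (X : ℝ) : {t : ℕ | t ∈ S ∧ (t : ℝ) ≤ X}.Finite := by
  refine (Set.finite_Iic ⌊X⌋₊).subset ?_
  rintro t ⟨-, ht⟩
  rw [mem_Iic]
  exact Nat.le_floor ht

/-- counts of dyadic blocks give counts of initial segments -/
theorem count_of_dyadic {S : Set ℕ} {s : ℝ} (hs : 0 ≤ s)
    (h : ∀ ε : ℝ, 0 < ε → ∃ C Y₀ : ℝ, ∀ Y : ℝ, Y₀ ≤ Y → ∀ F : Finset ℕ,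
      (∀ n ∈ F, n ∈ S ∧ Y ≤ n ∧ (n : ℝ) ≤ 2 * Y) → (F.card : ℝ) ≤ C * Y ^ (s + ε)) :
    ∀ ε : ℝ, 0 < ε → ∃ C : ℝ, ∀ X : ℝ, 1 ≤ X →
      {t : ℕ | t ∈ S ∧ (t : ℝ) ≤ X}.Finite ∧ ({t : ℕ | t ∈ S ∧ (t : ℝ) ≤ X}.ncard : ℝ) ≤ C * X ^ (s + ε) := by
  classical
  intro ε hε
  obtain ⟨C, Y₀, hC⟩ := h ε hε
  set σ : ℝ := s + ε with hσ
  have hσ0 : 0 < σ := by linarith
  set Y1 : ℝ := max Y₀ 1 with hY1
  have hY11 : 1 ≤ Y1 := le_max_right _ _
  have hY10 : Y₀ ≤ Y1 := le_max_left _ _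
  have h2σ : 1 < (2 : ℝ) ^ σ := Real.one_lt_rpow (by norm_num) hσ0
  have hd : 0 < (2 : ℝ) ^ σ - 1 := by linarith
  set N : ℝ → ℝ := fun X => ({t : ℕ | t ∈ S ∧ (t : ℝ) ≤ X}.ncard : ℝ) with hN
  have hstep : ∀ k : ℕ, N (2 ^ k * Y1) ≤ (2 * Y1) + |C| * (Y1 ^ σ * ((2 : ℝ) ^ σ) ^ k / ((2 : ℝ) ^ σ - 1)) := by
    intro k
    induction k with
    | zero =>
        have h1 : N (2 ^ 0 * Y1) ≤ 2 * Y1 := by
          have h2 : {t : ℕ | t ∈ S ∧ (t : ℝ) ≤ 2 ^ 0 * Y1} ⊆ (Finset.Iic ⌊Y1⌋₊ : Finset ℕ) := by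
            rintro t ⟨-, ht⟩
            rw [Finset.mem_coe, Finset.mem_Iic]
            rw [pow_zero, one_mul] at ht
            exact Nat.le_floor ht
          have h3 := Set.ncard_le_ncard h2 (Finset.finite_toSet _)
          rw [Set.ncard_coe_finset, Nat.card_Iic] at h3
          have h4 : (⌊Y1⌋₊ : ℝ) ≤ Y1 := Nat.floor_le (by linarith)
          have h5 : N (2 ^ 0 * Y1) ≤ ((⌊Y1⌋₊ + 1 : ℕ) : ℝ) := Nat.cast_le.2 h3
          push_cast at h5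
          linarith
        have h6 : 0 ≤ |C| * (Y1 ^ σ * ((2 : ℝ) ^ σ) ^ 0 / ((2 : ℝ) ^ σ - 1)) := by positivity
        exact h1.trans (le_add_of_nonneg_right h6)
    | succ k ih =>
        have hYk : Y₀ ≤ 2 ^ k * Y1 := by
          have : 1 ≤ (2 : ℝ) ^ k := one_le_pow₀ (by norm_num)
          nlinarith
        set F : Finset ℕ := (Finset.Iic ⌊2 ^ (k + 1) * Y1⌋₊).filter
          (fun n => n ∈ S ∧ (2 : ℝ) ^ k * Y1 ≤ n ∧ (n : ℝ) ≤ 2 ^ (k + 1) * Y1) with hF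
        have h1 : (F.card : ℝ) ≤ C * (2 ^ k * Y1) ^ σ := by
          refine hC _ hYk F (fun n hn => ?_)
          rw [hF, Finset.mem_filter] at hn
          refine ⟨hn.2.1, hn.2.2.1, ?_⟩
          have := hn.2.2.2
          rw [pow_succ] at this
          linarith
        have h2 : {t : ℕ | t ∈ S ∧ (t : ℝ) ≤ 2 ^ (k + 1) * Y1} ⊆
            {t : ℕ | t ∈ S ∧ (t : ℝ) ≤ 2 ^ k * Y1} ∪ (F : Set ℕ) := by
          rintro t ⟨ht1, ht2⟩
          rcases le_total (t : ℝ) (2 ^ k * Y1) with h3 | h3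
          · exact Or.inl ⟨ht1, h3⟩
          · right
            rw [Finset.mem_coe, hF, Finset.mem_filter, Finset.mem_Iic]
            exact ⟨Nat.le_floor ht2, ht1, h3, ht2⟩
        have h3 : N (2 ^ (k + 1) * Y1) ≤ N (2 ^ k * Y1) + F.card := by
          have h4 := (Set.ncard_le_ncard h2 ((finite_le S _).union (Finset.finite_toSet F))).trans
            (Set.ncard_union_le _ _)
          rw [Set.ncard_coe_finset] at h4
          have h5 : N (2 ^ (k + 1) * Y1) ≤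
              (({t : ℕ | t ∈ S ∧ (t : ℝ) ≤ 2 ^ k * Y1}.ncard + F.card : ℕ) : ℝ) := Nat.cast_le.2 h4
          push_cast at h5
          exact h5
        have h4 : (2 ^ k * Y1 : ℝ) ^ σ = ((2 : ℝ) ^ σ) ^ k * Y1 ^ σ := by
          rw [Real.mul_rpow (by positivity) (by linarith), ← Real.rpow_natCast 2 k, ← Real.rpow_mul (by norm_num),
            mul_comm (k : ℝ) σ, Real.rpow_mul (by norm_num), Real.rpow_natCast]
        have h5 : (F.card : ℝ) ≤ |C| * (((2 : ℝ) ^ σ) ^ k * Y1 ^ σ) := by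
          rw [← h4]
          exact h1.trans (mul_le_mul_of_nonneg_right (le_abs_self C) (by positivity))
        have h6 : |C| * (Y1 ^ σ * ((2 : ℝ) ^ σ) ^ k / ((2 : ℝ) ^ σ - 1)) + |C| * (((2 : ℝ) ^ σ) ^ k * Y1 ^ σ) =
            |C| * (Y1 ^ σ * ((2 : ℝ) ^ σ) ^ (k + 1) / ((2 : ℝ) ^ σ - 1)) := by
          rw [pow_succ]
          field_simp
          ring
        linarith
  refine ⟨2 * Y1 + |C| * (Y1 ^ σ * (2 : ℝ) ^ σ / ((2 : ℝ) ^ σ - 1)), fun X hX => ⟨finite_le S X, ?_⟩⟩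
  have hX0 : 0 < X := by linarith
  -- the exponent
  obtain ⟨k, hk1, hk2⟩ : ∃ k : ℕ, X ≤ 2 ^ k * Y1 ∧ ((2 : ℝ) ^ σ) ^ k ≤ (2 : ℝ) ^ σ * X ^ σ := by
    have hex : ∃ k : ℕ, X ≤ 2 ^ k := by
      obtain ⟨k, hk⟩ := pow_unbounded_of_one_lt X (by norm_num : (1 : ℝ) < 2)
      exact ⟨k, hk.le⟩
    classical
    refine ⟨Nat.find hex, ?_, ?_⟩
    · have h1 := Nat.find_spec hex
      have h2 : (0 : ℝ) < 2 ^ Nat.find hex := by positivity
      nlinarith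
    · rcases Nat.eq_zero_or_pos (Nat.find hex) with h1 | h1
      · rw [h1, pow_zero]
        have h2 : 1 ≤ X ^ σ := Real.one_le_rpow hX hσ0.le
        nlinarith
      · obtain ⟨m, hm⟩ : ∃ m, Nat.find hex = m + 1 := ⟨Nat.find hex - 1, by omega⟩
        have h2 := Nat.find_min hex (m := m) (by omega)
        push Not at h2
        rw [hm, pow_succ, mul_comm]
        refine mul_le_mul_of_nonneg_left ?_ (by positivity)
        rw [← Real.rpow_natCast, ← Real.rpow_mul (by norm_num), mul_comm σ (m : ℝ), Real.rpow_mul (by norm_num),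
          Real.rpow_natCast]
        exact Real.rpow_le_rpow (by positivity) h2.le hσ0.le
  have h1 : N X ≤ N (2 ^ k * Y1) := by
    have h2 : {t : ℕ | t ∈ S ∧ (t : ℝ) ≤ X} ⊆ {t : ℕ | t ∈ S ∧ (t : ℝ) ≤ 2 ^ k * Y1} := fun t ht =>
      ⟨ht.1, ht.2.trans hk1⟩
    have h3 := Set.ncard_le_ncard h2 (finite_le S _)
    show ((_ : ℕ) : ℝ) ≤ ((_ : ℕ) : ℝ)
    exact_mod_cast h3
  have h2 := hstep k
  have h3 : 1 ≤ X ^ σ := Real.one_le_rpow hX hσ0.le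
  have h4 : |C| * (Y1 ^ σ * ((2 : ℝ) ^ σ) ^ k / ((2 : ℝ) ^ σ - 1)) ≤
      |C| * (Y1 ^ σ * (2 : ℝ) ^ σ / ((2 : ℝ) ^ σ - 1)) * X ^ σ := by
    rw [mul_assoc]
    refine mul_le_mul_of_nonneg_left ?_ (abs_nonneg C)
    rw [div_mul_eq_mul_div]
    refine div_le_div_of_nonneg_right ?_ hd.le
    rw [mul_assoc]
    exact mul_le_mul_of_nonneg_left hk2 (by positivity)
  calc N X ≤ _ := h1
    _ ≤ _ := h2
    _ ≤ (2 * Y1) * X ^ σ + |C| * (Y1 ^ σ * (2 : ℝ) ^ σ / ((2 : ℝ) ^ σ - 1)) * X ^ σ := by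
        have : 2 * Y1 ≤ (2 * Y1) * X ^ σ := by nlinarith
        linarith
    _ = _ := by ring

end Pool.Agent.H107.Dyad
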