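import Pool.Agent.H107.MetricZero

set_option autoImplicit false

/-! Exceptional sets with `O(X ^ ε)` members of height at most `X`: near points of metric spaces. -/

namespace Pool.Agent.H107.ME

/-- a set with `O(X ^ ε)` members of height at most `X` for all `ε > 0`: outside of a set of dimension zero each point is
approximated to any precision `h ^ (-w)` by only finitely many members -/
theorem eps_zero {P M : Type*} [MetricSpace M] (φ : P → M) (h : P → ℝ) (h1 : ∀ t, 1 ≤ h t) (S : Set P)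
    (hC : ∀ ε : ℝ, 0 < ε → ∃ C : ℝ, ∀ X : ℝ, 1 ≤ X →
      {t | t ∈ S ∧ h t ≤ X}.Finite ∧ ({t | t ∈ S ∧ h t ≤ X}.ncard : ℝ) ≤ C * X ^ ε) :
    ∃ E : Set M, dimH E = 0 ∧ ∀ z ∉ E, ∀ w : ℝ, 0 < w → {t | t ∈ S ∧ dist (φ t) z ≤ (h t) ^ (-w)}.Finite := by
  obtain ⟨E, g1, g2⟩ := dim_zero φ h h1 (fun _ => S) (fun ε hε => by
    obtain ⟨C, hC⟩ := hC ε hε
    exact ⟨0, C, hC⟩)
  refine ⟨E, g1, fun z hz w hw => ?_⟩
  obtain ⟨_, hR⟩ := g2 z hz w hw
  exact hR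

/-- the same if the members of height at most `X` are contained in a finite set with `O(X ^ ε)` members -/
theorem eps_zero' {P M : Type*} [MetricSpace M] (φ : P → M) (h : P → ℝ) (h1 : ∀ t, 1 ≤ h t) (S : Set P)
    (hC : ∀ ε : ℝ, 0 < ε → ∃ C : ℝ, ∀ X : ℝ, 1 ≤ X → ∃ Z : Finset P, (Z.card : ℝ) ≤ C * X ^ ε ∧
      ∀ t ∈ S, h t ≤ X → t ∈ Z) :
    ∃ E : Set M, dimH E = 0 ∧ ∀ z ∉ E, ∀ w : ℝ, 0 < w → {t | t ∈ S ∧ dist (φ t) z ≤ (h t) ^ (-w)}.Finite := by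
  refine eps_zero φ h h1 S fun ε hε => ?_
  obtain ⟨C, hC⟩ := hC ε hε
  refine ⟨C, fun X hX => ?_⟩
  obtain ⟨Z, g1, g2⟩ := hC X hX
  have hsub : {t | t ∈ S ∧ h t ≤ X} ⊆ (Z : Set P) := fun t ht => g2 t ht.1 ht.2
  refine ⟨(Finset.finite_toSet Z).subset hsub, le_trans ?_ g1⟩
  have := Set.ncard_le_ncard hsub (Finset.finite_toSet Z)
  rw [Set.ncard_coe_finset] at this
  exact_mod_cast this

end Pool.Agent.H107.ME
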