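import Pool.Agent.H107.MetricFam
import Pool.Agent.Y854.GM.Win

set_option autoImplicit false

/-! Families whose exponents tend to zero: exceptional sets of dimension zero. -/

namespace Pool.Agent.H107.ME

open Filter Topology MeasureTheory Set
open scoped ENNReal NNReal

/-- if the exponents of the families `S R` have infimum zero: outside of a set of dimension zero each point is
approximated to any precision `h ^ (-σ)` by only finitely many members of `S R`, for some `R` -/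
theorem dim_zero {P M : Type*} [MetricSpace M] (φ : P → M) (h : P → ℝ) (h1 : ∀ t, 1 ≤ h t) (S : ℕ → Set P)
    (hC : ∀ ε : ℝ, 0 < ε → ∃ R : ℕ, ∃ C : ℝ, ∀ X : ℝ, 1 ≤ X →
      {t | t ∈ S R ∧ h t ≤ X}.Finite ∧ ({t | t ∈ S R ∧ h t ≤ X}.ncard : ℝ) ≤ C * X ^ ε) :
    ∃ E : Set M, dimH E = 0 ∧ ∀ z ∉ E, ∀ σ : ℝ, 0 < σ → ∃ R : ℕ,
      {t | t ∈ S R ∧ dist (φ t) z ≤ (h t) ^ (-σ)}.Finite := by
  set B : ℕ → ℕ → Set M := fun j R =>
    {z : M | {t | t ∈ S R ∧ dist (φ t) z ≤ (h t) ^ (-(1 / ((j : ℝ) + 1)))}.Infinite} with hB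
  refine ⟨⋃ j, ⋂ R, B j R, ?_, fun z hz σ hσ => ?_⟩
  · rw [dimH_iUnion]
    refine le_antisymm (iSup_le fun j => ?_) bot_le
    have hj : (0 : ℝ) < 1 / ((j : ℝ) + 1) := by positivity
    have main : ∀ ε : ℝ, 0 < ε → dimH (⋂ R, B j R) ≤ ENNReal.ofReal (ε / (1 / ((j : ℝ) + 1))) := by
      intro ε hε
      obtain ⟨R, C, hR⟩ := hC ε hε
      obtain ⟨E, g1, g2⟩ := dim_family φ h h1 hε.le hj (J := Unit) (fun _ => S R) (fun _ δ hδ => by
        refine ⟨C, fun X hX => ⟨(hR X hX).1, (hR X hX).2.trans ?_⟩⟩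
        have hC0 : 0 ≤ C := by
          have h2 := (hR 1 le_rfl).2
          rw [Real.one_rpow, mul_one] at h2
          exact (Nat.cast_nonneg _).trans h2
        exact mul_le_mul_of_nonneg_left (Real.rpow_le_rpow_of_exponent_le hX (by linarith)) hC0)
      refine (dimH_mono (?_ : (⋂ R, B j R) ⊆ E)).trans g1
      intro z hz
      by_contra hzE
      have h3 : z ∈ B j R := Set.mem_iInter.1 hz R
      exact h3 (g2 z hzE ())
    have hlim : Tendsto (fun k : ℕ => ENNReal.ofReal ((1 / ((k : ℝ) + 1)) / (1 / ((j : ℝ) + 1)))) atTop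
        (𝓝 (ENNReal.ofReal (0 / (1 / ((j : ℝ) + 1))))) :=
      ENNReal.tendsto_ofReal (tendsto_one_div_add_atTop_nhds_zero_nat.div_const _)
    rw [zero_div, ENNReal.ofReal_zero] at hlim
    exact ge_of_tendsto' hlim fun k => main _ (by positivity)
  · obtain ⟨j, hj⟩ := exists_nat_one_div_lt hσ
    rw [Set.mem_iUnion, not_exists] at hz
    have hzj := hz j
    rw [Set.mem_iInter, not_forall] at hzj
    obtain ⟨R, hR⟩ := hzj
    refine ⟨R, (Set.not_infinite.1 hR).subset ?_⟩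
    rintro t ⟨g1, g2⟩
    exact ⟨g1, g2.trans (Real.rpow_le_rpow_of_exponent_le (h1 t) (by linarith))⟩

/-- the same for windows around the members `α v_n` of a thin sequence -/
theorem windows_zero {T : Type} (S : ℕ → Set T) (h : T → ℝ) {v : ℕ → ℝ} {τ θ : ℝ} (hpos : ∀ n, 1 ≤ v n)
    (hτ : 0 ≤ τ) (hv : Pool.Agent.Y854.GM.ExpLe v τ) (hθ1 : θ < 1)
    (hC : ∀ ε : ℝ, 0 < ε → ∃ R : ℕ, ∃ C : ℝ, ∀ X : ℝ, 1 ≤ X →
      {t | t ∈ S R ∧ h t ≤ X}.Finite ∧ ({t | t ∈ S R ∧ h t ≤ X}.ncard : ℝ) ≤ C * X ^ ε) :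
    ∃ E : Set ℝ, dimH E ≤ ENNReal.ofReal (τ / (1 - θ)) ∧ ∀ α : ℝ, 0 < α → α ∉ E →
      ∃ R n0 : ℕ, ∀ n : ℕ, n0 ≤ n → ∀ t ∈ S R, (v n) ^ θ < |h t - α * v n| := by
  have hall : ∀ k : ℕ, ∃ (R : ℕ) (E : Set ℝ), dimH E ≤ ENNReal.ofReal ((1 / ((k : ℝ) + 1) + τ) / (1 - θ)) ∧
      ∀ α : ℝ, 0 < α → α ∉ E → ∃ n0 : ℕ, ∀ n : ℕ, n0 ≤ n → ∀ t ∈ S R, (v n) ^ θ < |h t - α * v n| := by
    intro k
    have hk : (0 : ℝ) < 1 / ((k : ℝ) + 1) := by positivity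
    obtain ⟨R, C, hR⟩ := hC _ hk
    obtain ⟨E, g1, g2⟩ := Pool.Agent.Y854.GM.windows (S R) h hpos hτ hv hk.le hθ1 (fun δ hδ => by
      refine ⟨C, fun X hX => ⟨(hR X hX).1, (hR X hX).2.trans ?_⟩⟩
      have hC0 : 0 ≤ C := by
        have h2 := (hR 1 le_rfl).2
        rw [Real.one_rpow, mul_one] at h2
        exact (Nat.cast_nonneg _).trans h2
      exact mul_le_mul_of_nonneg_left (Real.rpow_le_rpow_of_exponent_le hX (by linarith)) hC0)
    exact ⟨R, E, g1, g2⟩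
  choose R E hE1 hE2 using hall
  refine ⟨⋂ k, E k, ?_, fun α hα hαE => ?_⟩
  · have h2 : ∀ k : ℕ, dimH (⋂ k, E k) ≤ ENNReal.ofReal ((1 / ((k : ℝ) + 1) + τ) / (1 - θ)) := fun k =>
      (dimH_mono (Set.iInter_subset _ k)).trans (hE1 k)
    have hlim : Tendsto (fun k : ℕ => ENNReal.ofReal ((1 / ((k : ℝ) + 1) + τ) / (1 - θ))) atTop
        (𝓝 (ENNReal.ofReal ((0 + τ) / (1 - θ)))) :=
      ENNReal.tendsto_ofReal ((tendsto_one_div_add_atTop_nhds_zero_nat.add_const τ).div_const _)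
    rw [zero_add] at hlim
    exact ge_of_tendsto' hlim h2
  · rw [Set.mem_iInter, not_forall] at hαE
    obtain ⟨k, hk⟩ := hαE
    obtain ⟨n0, hn⟩ := hE2 k α hα hk
    exact ⟨R k, n0, hn⟩

end Pool.Agent.H107.ME
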