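import Pool.Agent.Y902.FB.Main
import Pool.Agent.H107.MetricZero

set_option autoImplicit false

/-! The solutions of the Fermat-Catalan equation with a large exponent: exponent zero. -/

namespace Pool.Agent.H107.FC

open Set

/-- the pairs of a value triple and a triple of bases of a solution with an exponent at least `R` -/
def Sol (R : ℕ) : Set ((ℕ × ℕ × ℕ) × (ℕ × ℕ × ℕ)) :=
  {t | ∃ m n k : ℕ, 0 < t.2.1 ∧ 0 < t.2.2.1 ∧ 0 < t.2.2.2 ∧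
    Nat.Coprime t.2.1 t.2.2.1 ∧ Nat.Coprime t.2.1 t.2.2.2 ∧ Nat.Coprime t.2.2.1 t.2.2.2 ∧
    2 ≤ m ∧ 2 ≤ n ∧ 2 ≤ k ∧ (R ≤ m ∨ R ≤ n ∨ R ≤ k) ∧ t.2.1 ^ m + t.2.2.1 ^ n = t.2.2.2 ^ k ∧
    t.1 = (t.2.1 ^ m, t.2.2.1 ^ n, t.2.2.2 ^ k)}

/-- the size of the bases -/
noncomputable def size (t : (ℕ × ℕ × ℕ) × (ℕ × ℕ × ℕ)) : ℝ :=
  max 1 ((max t.2.1 (max t.2.2.1 t.2.2.2) : ℕ) : ℝ)

lemma one_le_size (t : (ℕ × ℕ × ℕ) × (ℕ × ℕ × ℕ)) : 1 ≤ size t := le_max_left _ _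

/-- the code of a base of a value -/
def code (v a : ℕ) : ℕ := a.factorization v.minFac

lemma code_le {a v Y : ℕ} (ha : 0 < a) (haY : a ≤ Y) : code v a ≤ Nat.log 2 Y := by
  unfold code
  by_cases hv : v.minFac.Prime
  · have h1 : v.minFac ^ a.factorization v.minFac ≤ a := Nat.ordProj_le _ ha.ne'
    have h2 : 2 ^ a.factorization v.minFac ≤ v.minFac ^ a.factorization v.minFac :=
      Nat.pow_le_pow_left hv.two_le _
    exact Nat.le_log_of_pow_le (by norm_num) ((h2.trans h1).trans haY)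
  · rw [Nat.factorization_eq_zero_of_not_prime _ hv]
    exact Nat.zero_le _

lemma code_inj {v a a' m m' : ℕ} (ha : 0 < a) (ha' : 0 < a') (hm : 2 ≤ m) (hm' : 2 ≤ m')
    (h : a ^ m = v) (h' : a' ^ m' = v) (hc : code v a = code v a') : a = a' := by
  by_cases hv : v = 1
  · subst hv
    have h1 : a = 1 := by
      rcases Nat.pow_eq_one.1 h with h1 | h1
      · exact h1
      · omega
    have h2 : a' = 1 := by
      rcases Nat.pow_eq_one.1 h' with h2 | h2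
      · exact h2
      · omega
    rw [h1, h2]
  · have hp : v.minFac.Prime := Nat.minFac_prime hv
    have hpv : v.minFac ∣ v := Nat.minFac_dvd v
    have e1 : v.factorization v.minFac = m * code v a := by
      conv_lhs => rw [← h]
      rw [Nat.factorization_pow]
      simp only [Finsupp.smul_apply, smul_eq_mul]
      unfold code
      rw [h]
    have e2 : v.factorization v.minFac = m' * code v a' := by
      conv_lhs => rw [← h']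
      rw [Nat.factorization_pow]
      simp only [Finsupp.smul_apply, smul_eq_mul]
      unfold code
      rw [h']
    have hv0 : v ≠ 0 := by
      rw [← h]
      positivity
    have h3 : 0 < v.factorization v.minFac := hp.factorization_pos_of_dvd hv0 hpv
    have h4 : 0 < code v a := by
      rcases Nat.eq_zero_or_pos (code v a) with h5 | h5
      · rw [e1, h5, mul_zero] at h3
        exact absurd h3 (lt_irrefl 0)
      · exact h5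
    have h6 : m = m' := by
      rw [e1, hc] at e2
      rw [hc] at h4
      exact Nat.eq_of_mul_eq_mul_right h4 e2
    subst h6
    exact Nat.pow_left_injective (by omega : m ≠ 0) (h.trans h'.symm)

/-- the values -/
def Triples (Y R : ℕ) : Set (ℕ × ℕ × ℕ) :=
  {v | ∃ a b c m n k : ℕ, 0 < a ∧ 0 < b ∧ 0 < c ∧ a ≤ Y ∧ b ≤ Y ∧ c ≤ Y ∧
    Nat.Coprime a b ∧ Nat.Coprime a c ∧ Nat.Coprime b c ∧ 2 ≤ m ∧ 2 ≤ n ∧ 2 ≤ k ∧
    (R ≤ m ∨ R ≤ n ∨ R ≤ k) ∧ a ^ m + b ^ n = c ^ k ∧ v = (a ^ m, b ^ n, c ^ k)}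

lemma size_le_iff (t : (ℕ × ℕ × ℕ) × (ℕ × ℕ × ℕ)) {X : ℝ} (hX : 1 ≤ X) :
    size t ≤ X ↔ t.2.1 ≤ ⌊X⌋₊ ∧ t.2.2.1 ≤ ⌊X⌋₊ ∧ t.2.2.2 ≤ ⌊X⌋₊ := by
  unfold size
  rw [max_le_iff, ← Nat.le_floor_iff (by linarith), max_le_iff, max_le_iff]
  constructor
  · rintro ⟨_, h⟩
    exact h
  · intro h
    exact ⟨hX, h⟩

lemma card_le (R : ℕ) (X : ℝ) (hX : 1 ≤ X) (hfin : (Triples ⌊X⌋₊ R).Finite) :
    {t | t ∈ Sol R ∧ size t ≤ X}.Finite ∧
      ({t | t ∈ Sol R ∧ size t ≤ X}.ncard : ℝ) ≤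
        ((Triples ⌊X⌋₊ R).ncard : ℝ) * ((Nat.log 2 ⌊X⌋₊ : ℕ) + 1 : ℝ) ^ 3 := by
  classical
  set L := Nat.log 2 ⌊X⌋₊ with hL
  set f : (ℕ × ℕ × ℕ) × (ℕ × ℕ × ℕ) → (ℕ × ℕ × ℕ) × (ℕ × ℕ × ℕ) := fun t =>
    (t.1, (code t.1.1 t.2.1, code t.1.2.1 t.2.2.1, code t.1.2.2 t.2.2.2)) with hf
  set B : Set ((ℕ × ℕ × ℕ) × (ℕ × ℕ × ℕ)) := (Triples ⌊X⌋₊ R) ×ˢ
    ((Finset.range (L + 1) ×ˢ (Finset.range (L + 1) ×ˢ Finset.range (L + 1)) : Finset (ℕ × ℕ × ℕ)) :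
      Set (ℕ × ℕ × ℕ)) with hB
  have hBfin : B.Finite := hfin.prod (Finset.finite_toSet _)
  have hmaps : MapsTo f {t | t ∈ Sol R ∧ size t ≤ X} B := by
    rintro t ⟨⟨m, n, k, h1, h2, h3, h4, h5, h6, h7, h8, h9, h10, h11, h12⟩, h13⟩
    rw [size_le_iff t hX] at h13
    obtain ⟨g1, g2, g3⟩ := h13
    rw [hB, Set.mem_prod]
    refine ⟨⟨t.2.1, t.2.2.1, t.2.2.2, m, n, k, h1, h2, h3, g1, g2, g3, h4, h5, h6, h7, h8, h9, h10, h11,
      h12⟩, ?_⟩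
    rw [Finset.mem_coe, Finset.mem_product, Finset.mem_product, Finset.mem_range, Finset.mem_range,
      Finset.mem_range]
    exact ⟨Nat.lt_succ_of_le (code_le h1 g1), Nat.lt_succ_of_le (code_le h2 g2),
      Nat.lt_succ_of_le (code_le h3 g3)⟩
  have hinj : InjOn f {t | t ∈ Sol R ∧ size t ≤ X} := by
    rintro t ⟨⟨m, n, k, h1, h2, h3, -, -, -, h7, h8, h9, -, -, h12⟩, -⟩
      t' ⟨⟨m', n', k', h1', h2', h3', -, -, -, h7', h8', h9', -, -, h12'⟩, -⟩ hft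
    simp only [hf, Prod.mk.injEq] at hft
    obtain ⟨e0, e1, e2, e3⟩ := hft
    rw [← e0] at e1 e2 e3 h12'
    have a1 : t.2.1 ^ m = t.1.1 := by rw [h12]
    have a2 : t.2.2.1 ^ n = t.1.2.1 := by rw [h12]
    have a3 : t.2.2.2 ^ k = t.1.2.2 := by rw [h12]
    have b1 : t'.2.1 ^ m' = t.1.1 := by rw [h12']
    have b2 : t'.2.2.1 ^ n' = t.1.2.1 := by rw [h12']
    have b3 : t'.2.2.2 ^ k' = t.1.2.2 := by rw [h12']
    have c1 := code_inj h1 h1' h7 h7' a1 b1 e1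
    have c2 := code_inj h2 h2' h8 h8' a2 b2 e2
    have c3 := code_inj h3 h3' h9 h9' a3 b3 e3
    exact Prod.ext e0 (Prod.ext c1 (Prod.ext c2 c3))
  have hSfin : {t | t ∈ Sol R ∧ size t ≤ X}.Finite := Set.Finite.of_injOn hmaps hinj hBfin
  refine ⟨hSfin, ?_⟩
  have h1 := Set.ncard_le_ncard_of_injOn f hmaps hinj hBfin
  have h2 : B.ncard = (Triples ⌊X⌋₊ R).ncard * (L + 1) ^ 3 := by
    rw [hB, Set.ncard_prod, Set.ncard_coe_finset, Finset.card_product, Finset.card_product,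
      Finset.card_range]
    ring
  rw [h2] at h1
  exact_mod_cast h1

lemma log_cube (δ : ℝ) (hδ : 0 < δ) : ∃ K : ℝ, 0 < K ∧ ∀ X : ℝ, 1 ≤ X →
    ((Nat.log 2 ⌊X⌋₊ : ℕ) + 1 : ℝ) ^ 3 ≤ K * X ^ (3 * δ) := by
  refine ⟨(1 / (δ * Real.log 2) + 1) ^ 3, by
    have : 0 < Real.log 2 := Real.log_pos (by norm_num)
    positivity, fun X hX => ?_⟩
  have hX0 : 0 < X := by linarith
  have hl2 : 0 < Real.log 2 := Real.log_pos (by norm_num)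
  have hfl : 1 ≤ ⌊X⌋₊ := Nat.le_floor (by exact_mod_cast hX)
  have h1 : (2 : ℝ) ^ (Nat.log 2 ⌊X⌋₊) ≤ X := by
    have h2 : 2 ^ (Nat.log 2 ⌊X⌋₊) ≤ ⌊X⌋₊ := Nat.pow_log_le_self 2 (by omega)
    have h3 : ((2 ^ (Nat.log 2 ⌊X⌋₊) : ℕ) : ℝ) ≤ ((⌊X⌋₊ : ℕ) : ℝ) := by exact_mod_cast h2
    push_cast at h3
    exact h3.trans (Nat.floor_le hX0.le)
  have h4 : (Nat.log 2 ⌊X⌋₊ : ℝ) * Real.log 2 ≤ Real.log X := by
    rw [← Real.log_pow]
    exact Real.log_le_log (by positivity) h1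
  have h5 : Real.log X ≤ X ^ δ / δ := Real.log_le_rpow_div hX0.le hδ
  have h6 : (1 : ℝ) ≤ X ^ δ := Real.one_le_rpow hX hδ.le
  have h7 : (Nat.log 2 ⌊X⌋₊ : ℝ) ≤ 1 / (δ * Real.log 2) * X ^ δ := by
    have h8 : (Nat.log 2 ⌊X⌋₊ : ℝ) ≤ (X ^ δ / δ) / Real.log 2 := by
      rw [le_div_iff₀ hl2]
      exact h4.trans h5
    refine h8.trans (le_of_eq ?_)
    field_simp
  have h9 : (Nat.log 2 ⌊X⌋₊ : ℝ) + 1 ≤ (1 / (δ * Real.log 2) + 1) * X ^ δ := by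
    rw [add_mul, one_mul]
    linarith
  calc ((Nat.log 2 ⌊X⌋₊ : ℕ) + 1 : ℝ) ^ 3 ≤ ((1 / (δ * Real.log 2) + 1) * X ^ δ) ^ 3 := by gcongr
    _ = (1 / (δ * Real.log 2) + 1) ^ 3 * X ^ (3 * δ) := by
        rw [mul_pow, ← Real.rpow_natCast (X ^ δ) 3, ← Real.rpow_mul hX0.le]
        congr 2
        push_cast
        ring

/-- the exponent of the solutions with an exponent at least `R` tends to zero -/
theorem count (ε : ℝ) (hε : 0 < ε) : ∃ R : ℕ, ∃ C : ℝ, ∀ X : ℝ, 1 ≤ X →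
    {t | t ∈ Sol R ∧ size t ≤ X}.Finite ∧ ({t | t ∈ Sol R ∧ size t ≤ X}.ncard : ℝ) ≤ C * X ^ ε := by
  obtain ⟨R, Y₀, h⟩ := Pool.Agent.Y902.FB.main (ε / 2) (by positivity)
  obtain ⟨K, hK, hlog⟩ := log_cube (ε / 6) (by positivity)
  have hbig : ∀ X : ℝ, 1 ≤ X → Y₀ ≤ ⌊X⌋₊ →
      {t | t ∈ Sol R ∧ size t ≤ X}.Finite ∧ ({t | t ∈ Sol R ∧ size t ≤ X}.ncard : ℝ) ≤ K * X ^ ε := by
    intro X hX hY
    have hX0 : 0 < X := by linarith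
    obtain ⟨g1, g2⟩ := h ⌊X⌋₊ hY
    obtain ⟨g3, g4⟩ := card_le R X hX g1
    refine ⟨g3, g4.trans ?_⟩
    have g5 : ((Triples ⌊X⌋₊ R).ncard : ℝ) ≤ X ^ (ε / 2) := by
      refine le_trans g2 ?_
      exact Real.rpow_le_rpow (Nat.cast_nonneg _) (Nat.floor_le hX0.le) (by positivity)
    calc ((Triples ⌊X⌋₊ R).ncard : ℝ) * ((Nat.log 2 ⌊X⌋₊ : ℕ) + 1 : ℝ) ^ 3
        ≤ X ^ (ε / 2) * (K * X ^ (3 * (ε / 6))) := by
          apply mul_le_mul g5 (hlog X hX) (by positivity) (by positivity)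
      _ = K * X ^ ε := by
          rw [mul_left_comm, ← Real.rpow_add hX0]
          congr 2
          ring
  set X₁ : ℝ := (Y₀ : ℝ) + 1 with hX₁
  have hX₁1 : 1 ≤ X₁ := by
    have : (0 : ℝ) ≤ Y₀ := Nat.cast_nonneg _
    linarith
  have hfl : Y₀ ≤ ⌊X₁⌋₊ := Nat.le_floor (by linarith)
  refine ⟨R, K * X₁ ^ ε, fun X hX => ?_⟩
  have hXε : 1 ≤ X ^ ε := Real.one_le_rpow hX hε.le
  have hX₁ε : 1 ≤ X₁ ^ ε := Real.one_le_rpow hX₁1 hε.le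
  by_cases hle : Y₀ ≤ ⌊X⌋₊
  · obtain ⟨g1, g2⟩ := hbig X hX hle
    refine ⟨g1, g2.trans ?_⟩
    have : K * X ^ ε ≤ K * X ^ ε * X₁ ^ ε := le_mul_of_one_le_right (by positivity) hX₁ε
    linarith
  · obtain ⟨g1, g2⟩ := hbig X₁ hX₁1 hfl
    have hXX : X ≤ X₁ := by
      push Not at hle
      have h3 := Nat.lt_floor_add_one X
      have h4 : ((⌊X⌋₊ : ℕ) : ℝ) + 1 ≤ Y₀ := by exact_mod_cast hle
      linarith
    have hsub : {t | t ∈ Sol R ∧ size t ≤ X} ⊆ {t | t ∈ Sol R ∧ size t ≤ X₁} :=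
      fun t ht => ⟨ht.1, ht.2.trans hXX⟩
    refine ⟨g1.subset hsub, ((Nat.cast_le.2 (Set.ncard_le_ncard hsub g1)).trans g2).trans ?_⟩
    exact le_mul_of_one_le_right (by positivity) hXε

end Pool.Agent.H107.FC
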