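import Pool.Agent.Helper264.NT.NearK

set_option autoImplicit false

/-! Exceptional points of `ℙ ^ n (K)` on few hypersurfaces of bounded degree: near points for real and complex
embeddings of `K` (with the covering theorem of helper264). -/

namespace Pool.Agent.H107.Hyp

open MvPolynomial
open scoped LinearAlgebra.Projectivization ENNReal

/-- the vector `(1, y_1, ..., y_n)` -/
def vec {K : Type*} [Field K] {n : ℕ} (y : Fin n → K) : Fin (n + 1) → K := Fin.cons 1 y

theorem vec_ne {K : Type*} [Field K] {n : ℕ} (y : Fin n → K) : vec y ≠ 0 := fun h => by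
  have := congrFun h 0
  simp [vec] at this

/-- the point `(1 : y_1 : ... : y_n)` of the projective space -/
def pt {K : Type*} [Field K] {n : ℕ} (y : Fin n → K) : ℙ K (Fin (n + 1) → K) :=
  Projectivization.mk K (vec y) (vec_ne y)

section

variable {K : Type} [Field K] {𝕜 : Type} [RCLike 𝕜] {n : ℕ}

theorem eval_smul_homog {R : Type*} [CommRing R] {m : ℕ} {f : MvPolynomial (Fin m) R} {k : ℕ} (hf : f.IsHomogeneous k)
    (c : R) (x : Fin m → R) : eval (fun i => c * x i) f = c ^ k * eval x f := by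
  classical
  rw [eval_eq, eval_eq, Finset.mul_sum]
  refine Finset.sum_congr rfl fun d hd => ?_
  have h1 : ∑ i ∈ d.support, d i = k := by
    have := hf.degree_eq_sum_deg_support hd
    exact this.symm
  simp only [mul_pow, Finset.prod_mul_distrib, Finset.prod_pow_eq_pow_sum, h1]
  ring

/-- the dehomogenisation, with coefficients in `𝕜` -/
noncomputable def deh (τ : K →+* 𝕜) (f : MvPolynomial (Fin (n + 1)) K) : MvPolynomial (Fin n) 𝕜 :=
  ∑ d ∈ f.support, C (τ (f.coeff d)) * ∏ i : Fin n, X i ^ (d i.succ)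

theorem aeval_deh (τ : K →+* 𝕜) (f : MvPolynomial (Fin (n + 1)) K) (y : Fin n → K) :
    aeval (fun i => τ (y i)) (deh τ f) = τ (eval (vec y) f) := by
  unfold deh
  rw [map_sum, eval_eq', map_sum]
  refine Finset.sum_congr rfl fun d _ => ?_
  rw [map_mul, aeval_C, map_prod, map_mul, map_prod, Fin.prod_univ_succ]
  simp only [map_pow, aeval_X, vec, Fin.cons_zero, Fin.cons_succ, map_one, one_pow, one_mul]
  rfl

theorem deg_deh (τ : K →+* 𝕜) {f : MvPolynomial (Fin (n + 1)) K} {k : ℕ} (hf : f.IsHomogeneous k) :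
    (deh τ f).totalDegree ≤ k := by
  unfold deh
  refine totalDegree_finsetSum_le fun d hd => ?_
  refine (totalDegree_mul _ _).trans ?_
  rw [totalDegree_C, zero_add]
  refine (totalDegree_finsetProd _ _).trans ?_
  have h1 : ∑ i ∈ d.support, d i = k := by
    have := hf.degree_eq_sum_deg_support hd
    exact this.symm
  have h2 : ∑ i : Fin (n + 1), d i = k := by
    rw [← h1]
    symm
    refine Finset.sum_subset (Finset.subset_univ _) fun i _ hi => ?_
    simpa using hi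
  rw [Fin.sum_univ_succ] at h2
  calc ∑ i : Fin n, (X i ^ (d i.succ) : MvPolynomial (Fin n) 𝕜).totalDegree ≤ ∑ i : Fin n, d i.succ := by
        refine Finset.sum_le_sum fun i _ => ?_
        rw [totalDegree_X_pow]
    _ ≤ k := by omega

theorem deh_ne [Infinite K] (τ : K →+* 𝕜) {f : MvPolynomial (Fin (n + 1)) K} {k : ℕ} (hf : f.IsHomogeneous k)
    (h0 : f ≠ 0) : deh τ f ≠ 0 := by
  intro h
  have h1 : ∀ y : Fin n → K, eval (vec y) f = 0 := by
    intro y
    have h2 := aeval_deh τ f y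
    rw [h, map_zero] at h2
    exact (map_eq_zero τ).1 h2.symm
  have h3 : f * X 0 = 0 := by
    refine MvPolynomial.funext fun x => ?_
    rw [map_mul, eval_X, map_zero]
    by_cases hx : x 0 = 0
    · rw [hx, mul_zero]
    · have h4 : x = fun i => x 0 * vec (fun i : Fin n => x i.succ / x 0) i := by
        funext i
        refine Fin.cases ?_ (fun i => ?_) i
        · simp [vec]
        · simp only [vec, Fin.cons_succ]
          field_simp
      rw [h4, eval_smul_homog hf, h1]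
      ring
  exact (mul_ne_zero h0 (X_ne_zero 0)) h3

theorem eval_rep {f : MvPolynomial (Fin (n + 1)) K} {k : ℕ} (hf : f.IsHomogeneous k) (y : Fin n → K)
    (h : eval (pt y).rep f = 0) : eval (vec y) f = 0 := by
  obtain ⟨a, ha⟩ := Projectivization.exists_smul_eq_mk_rep K (vec y) (vec_ne y)
  have h1 : (pt y).rep = fun i => (a : K) * vec y i := by
    rw [pt, ← ha]
    rfl
  rw [h1, eval_smul_homog hf] at h
  exact (mul_eq_zero.1 h).resolve_left (pow_ne_zero _ a.ne_zero)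

end

/-- sets of points which lie on `O(B ^ ε)` hypersurfaces of degree `k` up to height `B` -/
theorem near_hyp {K : Type} [Field K] [NumberField K] {𝕜 : Type} [RCLike 𝕜] (τ : K →+* 𝕜) (n k : ℕ) {J : Type}
    [Countable J] (S : J → Set (ℙ K (Fin (n + 1) → K)))
    (hS : ∀ j, ∀ ε : ℝ, 0 < ε → ∃ C : ℝ, ∀ B : ℝ, 1 ≤ B → ∃ FF : Finset (MvPolynomial (Fin (n + 1)) K),
      (FF.card : ℝ) ≤ C * B ^ ε ∧ (∀ f ∈ FF, f ≠ 0 ∧ f.IsHomogeneous k) ∧
      ∀ y ∈ S j, y.mulHeight ≤ B → ∃ f ∈ FF, eval y.rep f = 0) :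
    ∃ E : Set (Fin n → 𝕜), dimH E ≤ ((Module.finrank ℝ 𝕜 * (n - 1) : ℕ) : ℝ≥0∞) ∧
      ∀ z ∉ E, ∀ j, ∀ w : ℝ, 0 < w → ∃ T₀ : ℝ, ∀ y : Fin n → K, T₀ ≤ (pt y).mulHeight →
        ‖(fun i => τ (y i)) - z‖ ≤ (pt y).mulHeight ^ (-w) → pt y ∉ S j := by
  classical
  let Ex : J × ℕ → ℝ → ℝ → Set (Fin n → 𝕜) := fun j _ T =>
    {x | x ∈ Metric.closedBall (0 : Fin n → 𝕜) ((j.2 : ℝ) + 1) ∧ ∃ y : Fin n → K, x = (fun i => τ (y i)) ∧
      pt y ∈ S j.1 ∧ (pt y).mulHeight ≤ T}
  have hThin : ∀ j : J × ℕ, Pool.Agent.Helper264.NT.Thin ((j.2 : ℝ) + 1) (Ex j) := by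
    intro j
    refine ⟨fun B T x hx => hx.1, ?_, ?_, ?_⟩
    · rintro B B' T T' - - - - hT - x ⟨h1, y, h2, h3, h4⟩
      exact ⟨h1, y, h2, h3, h4.trans hT⟩
    · rintro B B' T - - x hx
      exact hx
    · intro ε hε
      obtain ⟨C, hC⟩ := hS j.1 ε hε
      have hC0 : 0 ≤ C := by
        obtain ⟨FF, h1, -⟩ := hC 1 le_rfl
        rw [Real.one_rpow, mul_one] at h1
        exact (Nat.cast_nonneg _).trans h1
      refine ⟨k, 0, C, hC0, fun T hT => ?_⟩
      obtain ⟨FF, h1, h2, h3⟩ := hC T hT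
      refine ⟨FF.image (deh τ), ?_, ?_, ?_⟩
      · refine le_trans ?_ h1
        exact_mod_cast Finset.card_image_le
      · intro P hP
        obtain ⟨f, hf, rfl⟩ := Finset.mem_image.1 hP
        exact ⟨deh_ne τ (h2 f hf).2 (h2 f hf).1, deg_deh τ (h2 f hf).2⟩
      · rintro x ⟨-, y, rfl, hy, hyT⟩
        obtain ⟨f, hf, hf0⟩ := h3 (pt y) hy hyT
        refine ⟨deh τ f, Finset.mem_image_of_mem _ hf, ?_⟩
        rw [aeval_deh, eval_rep (h2 f hf).2 y hf0, map_zero]
  obtain ⟨E, hE1, hE2⟩ := Pool.Agent.Helper264.NT.near_all (X := Fin n) (fun j : J × ℕ => (j.2 : ℝ) + 1)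
    (fun j => by
      have : (0 : ℝ) ≤ (j.2 : ℝ) := Nat.cast_nonneg _
      linarith) Ex hThin
  rw [Fintype.card_fin] at hE1
  refine ⟨E, hE1, fun z hz j w hw => ?_⟩
  obtain ⟨R, hR⟩ := exists_nat_gt ‖z‖
  obtain ⟨B, T0, hT0⟩ := hE2 z hz (j, R) w hw
  refine ⟨T0, fun y hy hyz hyS => ?_⟩
  have h1 : 1 ≤ (pt y).mulHeight := (pt y).one_le_mulHeight
  refine hT0 (pt y).mulHeight hy (fun i => τ (y i)) ⟨?_, y, rfl, hyS, le_rfl⟩ ?_
  · rw [mem_closedBall_zero_iff]
    have h2 : ‖(fun i => τ (y i)) - z‖ ≤ 1 :=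
      hyz.trans (Real.rpow_le_one_of_one_le_of_nonpos h1 (by linarith))
    calc ‖(fun i => τ (y i))‖ = ‖((fun i => τ (y i)) - z) + z‖ := by rw [sub_add_cancel]
      _ ≤ ‖(fun i => τ (y i)) - z‖ + ‖z‖ := norm_add_le _ _
      _ ≤ (R : ℝ) + 1 := by linarith
  · rw [dist_eq_norm]
    exact hyz

end Pool.Agent.H107.Hyp
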