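import Pool.Agent.H107.MetricPi

set_option autoImplicit false

/-! Sets of integer vectors with a power saving: the points near almost every point of `ℝ ^ n`. -/

namespace Pool.Agent.H107.IB

open MeasureTheory Set

/-- the size of an integer vector: the maximum of `1` and the absolute values of its entries -/
noncomputable def size {m : ℕ} (x : Fin m → ℤ) : ℝ := max 1 ‖x‖

lemma one_le_size {m : ℕ} (x : Fin m → ℤ) : 1 ≤ size x := le_max_left _ _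

lemma size_le_iff {m : ℕ} (x : Fin m → ℤ) {X : ℝ} (hX : 1 ≤ X) :
    size x ≤ X ↔ ∀ i, |x i| ≤ (⌊X⌋₊ : ℤ) := by
  unfold size
  rw [max_le_iff, pi_norm_le_iff_of_nonneg (by linarith)]
  constructor
  · rintro ⟨_, h⟩ i
    have h1 := h i
    rw [Int.norm_eq_abs] at h1
    have h2 : ((|x i|.toNat : ℕ) : ℝ) ≤ X := by
      have h3 : ((|x i|.toNat : ℕ) : ℤ) = |x i| := Int.toNat_of_nonneg (abs_nonneg _)
      have h4 : ((|x i|.toNat : ℕ) : ℝ) = ((|x i| : ℤ) : ℝ) := by exact_mod_cast h3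
      rw [h4]
      push_cast
      exact h1
    have h5 : |x i|.toNat ≤ ⌊X⌋₊ := Nat.le_floor h2
    have h3 : ((|x i|.toNat : ℕ) : ℤ) = |x i| := Int.toNat_of_nonneg (abs_nonneg _)
    rw [← h3]
    exact_mod_cast h5
  · intro h
    refine ⟨hX, fun i => ?_⟩
    rw [Int.norm_eq_abs]
    have h1 : ((|x i| : ℤ) : ℝ) ≤ ((⌊X⌋₊ : ℤ) : ℝ) := by exact_mod_cast h i
    push_cast at h1
    exact h1.trans (Nat.floor_le (by linarith))

/-- the chart -/
noncomputable def chart {n : ℕ} (x : Fin (n + 1) → ℤ) : Fin n → ℝ := fun i => (x i.succ : ℝ) / x 0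

lemma box_finite {m : ℕ} (N : ℕ) : {x : Fin m → ℤ | ∀ i, |x i| ≤ (N : ℤ)}.Finite := by
  refine (Set.Finite.pi' (t := fun _ : Fin m => Set.Icc (-(N : ℤ)) N) (fun _ => Set.finite_Icc _ _)).subset ?_
  intro x hx i
  exact abs_le.1 (hx i)

/-- a power-saving set of integer vectors has a small exponent -/
lemma count_of_box {m : ℕ} (S : Set (Fin m → ℤ)) (s : ℝ) (hs : 0 ≤ s) (C : ℝ)
    (h : ∀ B : ℕ, 1 ≤ B → (Set.ncard {x : Fin m → ℤ | (∀ i, |x i| ≤ (B : ℤ)) ∧ x ∈ S} : ℝ) ≤ C * (B : ℝ) ^ s) :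
    ∀ ε : ℝ, 0 < ε → ∃ C : ℝ, ∀ X : ℝ, 1 ≤ X → {x | x ∈ S ∧ size x ≤ X}.Finite ∧
      ({x | x ∈ S ∧ size x ≤ X}.ncard : ℝ) ≤ C * X ^ (s + ε) := by
  intro ε hε
  refine ⟨max C 0, fun X hX => ?_⟩
  have hX0 : 0 < X := by linarith
  have hB : 1 ≤ ⌊X⌋₊ := Nat.le_floor (by exact_mod_cast hX)
  have hset : {x | x ∈ S ∧ size x ≤ X} = {x : Fin m → ℤ | (∀ i, |x i| ≤ (⌊X⌋₊ : ℤ)) ∧ x ∈ S} := by
    ext x
    simp only [Set.mem_ofPred_eq]
    rw [size_le_iff x hX]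
    tauto
  rw [hset]
  refine ⟨(box_finite ⌊X⌋₊).subset fun x hx => hx.1, ?_⟩
  calc (Set.ncard {x : Fin m → ℤ | (∀ i, |x i| ≤ (⌊X⌋₊ : ℤ)) ∧ x ∈ S} : ℝ) ≤ C * ((⌊X⌋₊ : ℕ) : ℝ) ^ s := h _ hB
    _ ≤ max C 0 * ((⌊X⌋₊ : ℕ) : ℝ) ^ s := mul_le_mul_of_nonneg_right (le_max_left _ _) (by positivity)
    _ ≤ max C 0 * X ^ s := by
        apply mul_le_mul_of_nonneg_left _ (le_max_right _ _)
        exact Real.rpow_le_rpow (Nat.cast_nonneg _) (Nat.floor_le hX0.le) hs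
    _ ≤ max C 0 * X ^ (s + ε) := by
        apply mul_le_mul_of_nonneg_left _ (le_max_right _ _)
        exact Real.rpow_le_rpow_of_exponent_le hX (by linarith)

/-- **Main tool.** A set `S` of integer vectors of length `n + 1` with `O(B ^ (n + 1 - c))` members of size at most `B`,
`0 < c ≤ 1`. (1) For each map to a metric space: outside of a set of dimension at most `(n + 1 - c) / σ` only finitely
many members of `S` are as near as `size ^ (-σ)`. (2) Near almost all points of `ℝ ^ n` there are only finitely many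
members of `S` with the precision `size ^ (-σ)`, `σ > (n + 1 - c) / n`. -/
theorem near {n : ℕ} (hn : 1 ≤ n) (S : Set (Fin (n + 1) → ℤ)) {c : ℝ} (hc1 : c ≤ 1) (C : ℝ)
    (h : ∀ B : ℕ, 1 ≤ B → (Set.ncard {x : Fin (n + 1) → ℤ | (∀ i, |x i| ≤ (B : ℤ)) ∧ x ∈ S} : ℝ) ≤
      C * (B : ℝ) ^ ((n : ℝ) + 1 - c)) :
    (∀ {M : Type} [MetricSpace M] (φ : (Fin (n + 1) → ℤ) → M) (σ : ℝ), 0 < σ →
      ∃ E : Set M, dimH E ≤ ENNReal.ofReal (((n : ℝ) + 1 - c) / σ) ∧ ∀ z ∉ E,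
        {x | x ∈ S ∧ dist (φ x) z ≤ (size x) ^ (-σ)}.Finite) ∧
    (∀ᵐ z : Fin n → ℝ, ∀ σ : ℝ, ((n : ℝ) + 1 - c) / n < σ →
      {x | x ∈ S ∧ ∀ i, |chart x i - z i| ≤ (size x) ^ (-σ)}.Finite) := by
  have hs : 0 ≤ (n : ℝ) + 1 - c := by
    have : (0 : ℝ) ≤ n := Nat.cast_nonneg n
    linarith
  have hcount := count_of_box S _ hs C h
  refine ⟨fun {M} _ φ σ hσ => ?_, ?_⟩
  · obtain ⟨E, h1, h2⟩ := Pool.Agent.H107.ME.dim_family φ (fun x : Fin (n + 1) → ℤ => size x) one_le_size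
      hs hσ (J := Unit) (fun _ => S) (fun _ ε hε => hcount ε hε)
    exact ⟨E, h1, fun z hz => h2 z hz ()⟩
  · haveI : Nonempty (Fin n) := ⟨⟨0, by omega⟩⟩
    have h1 := Pool.Agent.H107.ME.ae_family_pi (ι := Fin n) chart (fun x : Fin (n + 1) → ℤ => size x)
      one_le_size hs (J := Unit) (fun _ => S) (fun _ ε hε => hcount ε hε)
    rw [Fintype.card_fin] at h1
    filter_upwards [h1] with z hz σ hσ
    exact hz σ hσ ()

end Pool.Agent.H107.IB
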