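import Pool.Agent.H107.MetricExc

set_option autoImplicit false

/-! Countably many thin families at once. -/

namespace Pool.Agent.H107.ME

open Filter Topology MeasureTheory Set
open scoped ENNReal NNReal

/-- countably many families of exponent `s`: outside of a set of dimension at most `s / σ` each point is
approximated to the precision `h ^ (-σ)` by only finitely many members of each family -/
theorem dim_family {P M : Type*} [MetricSpace M] (φ : P → M) (h : P → ℝ) (h1 : ∀ t, 1 ≤ h t) {s σ : ℝ}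
    (hs : 0 ≤ s) (hσ : 0 < σ) {J : Type*} [Countable J] (S : J → Set P)
    (hC : ∀ j : J, ∀ ε : ℝ, 0 < ε → ∃ C : ℝ, ∀ X : ℝ, 1 ≤ X →
      {t | t ∈ S j ∧ h t ≤ X}.Finite ∧ ({t | t ∈ S j ∧ h t ≤ X}.ncard : ℝ) ≤ C * X ^ (s + ε)) :
    ∃ E : Set M, dimH E ≤ ENNReal.ofReal (s / σ) ∧ ∀ x ∉ E, ∀ j : J,
      {t | t ∈ S j ∧ dist (φ t) x ≤ (h t) ^ (-σ)}.Finite := by
  have hsub : ∀ j : J, ∀ ε : ℝ, 0 < ε → ∃ C : ℝ, ∀ X : ℝ, 1 ≤ X →
      {t : S j | h t.1 ≤ X}.Finite ∧ ({t : S j | h t.1 ≤ X}.ncard : ℝ) ≤ C * X ^ (s + ε) := by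
    intro j ε hε
    obtain ⟨C, hC1⟩ := hC j ε hε
    refine ⟨C, fun X hX => ?_⟩
    obtain ⟨g1, g2⟩ := hC1 X hX
    have himg : Subtype.val '' {t : S j | h t.1 ≤ X} = {t | t ∈ S j ∧ h t ≤ X} := by
      ext t
      constructor
      · rintro ⟨u, hu, rfl⟩
        exact ⟨u.2, hu⟩
      · rintro ⟨g3, g4⟩
        exact ⟨⟨t, g3⟩, g4, rfl⟩
    refine ⟨Set.Finite.of_finite_image (by rw [himg]; exact g1) Subtype.val_injective.injOn, ?_⟩
    rw [← Set.ncard_image_of_injective _ Subtype.val_injective, himg]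
    exact g2
  refine ⟨⋃ j, {x : M | {t : S j | dist (φ t.1) x ≤ (h t.1) ^ (-σ)}.Infinite}, ?_, fun x hx j => ?_⟩
  · rw [dimH_iUnion]
    exact iSup_le fun j => dim_approx (fun t : S j => φ t.1) (fun t => h t.1) (fun t => h1 t.1) hs hσ
      (hsub j)
  · have hx1 : ¬ {t : S j | dist (φ t.1) x ≤ (h t.1) ^ (-σ)}.Infinite := fun g =>
      hx (Set.mem_iUnion.2 ⟨j, g⟩)
    rw [Set.not_infinite] at hx1
    refine (hx1.image Subtype.val).subset ?_
    rintro t ⟨g1, g2⟩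
    exact ⟨⟨t, g1⟩, g2, rfl⟩

/-- the same for almost all reals, all `σ > s` -/
theorem ae_family {P : Type*} (φ : P → ℝ) (h : P → ℝ) (h1 : ∀ t, 1 ≤ h t) {s : ℝ}
    (hs : 0 ≤ s) {J : Type*} [Countable J] (S : J → Set P)
    (hC : ∀ j : J, ∀ ε : ℝ, 0 < ε → ∃ C : ℝ, ∀ X : ℝ, 1 ≤ X →
      {t | t ∈ S j ∧ h t ≤ X}.Finite ∧ ({t | t ∈ S j ∧ h t ≤ X}.ncard : ℝ) ≤ C * X ^ (s + ε)) :
    ∀ᵐ x : ℝ, ∀ σ : ℝ, s < σ → ∀ j : J, {t | t ∈ S j ∧ |φ t - x| ≤ (h t) ^ (-σ)}.Finite := by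
  have hpos : ∀ k : ℕ, 0 < s + 1 / ((k : ℝ) + 1) := fun k => by positivity
  have hall := fun k : ℕ => dim_family φ h h1 hs (hpos k) S hC
  choose E hE1 hE2 using hall
  have hnull : ∀ k, volume (E k) = 0 := by
    intro k
    rw [← hausdorffMeasure_real]
    refine hausdorffMeasure_of_dimH_lt (d := 1) ?_
    refine (hE1 k).trans_lt ?_
    have g1 : s / (s + 1 / ((k : ℝ) + 1)) < 1 := by
      rw [div_lt_one (hpos k)]
      have : (0 : ℝ) < 1 / ((k : ℝ) + 1) := by positivity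
      linarith
    have g2 := (ENNReal.ofReal_lt_one).2 g1
    simpa using g2
  have hae : ∀ᵐ x : ℝ, ∀ k, x ∉ E k := by
    rw [ae_all_iff]
    intro k
    exact compl_mem_ae_iff.2 (hnull k)
  filter_upwards [hae] with x hx σ hσ j
  obtain ⟨k, hk⟩ := exists_nat_one_div_lt (sub_pos.2 hσ)
  refine (hE2 k x (hx k) j).subset ?_
  rintro t ⟨g1, g2⟩
  refine ⟨g1, ?_⟩
  rw [Real.dist_eq]
  exact g2.trans (Real.rpow_le_rpow_of_exponent_le (h1 t) (by linarith))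

/-- from finitely many exceptions to a constant -/
theorem const_of_finite {P : Type*} (A : Set P) (f : P → ℝ) (h : {y | y ∈ A ∧ 0 < f y}.Finite) :
    ∃ C : ℝ, ∀ y ∈ A, f y ≤ C := by
  obtain ⟨C, hC⟩ := (h.image f).bddAbove
  refine ⟨max C 0, fun y hy => ?_⟩
  by_cases h0 : 0 < f y
  · exact (hC ⟨y, ⟨hy, h0⟩, rfl⟩).trans (le_max_left _ _)
  · exact (not_lt.1 h0).trans (le_max_right _ _)

end Pool.Agent.H107.ME
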