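import Pool.Agent.H107.MetricFam

set_option autoImplicit false

/-! Almost all points of `ℝ ^ n`. -/

namespace Pool.Agent.H107.ME

open Filter Topology MeasureTheory Set
open scoped ENNReal NNReal

/-- a set of dimension less than `n` in `ℝ ^ n` is a null set -/
theorem null_of_dimH_lt {ι : Type*} [Fintype ι] {E : Set (ι → ℝ)} (h : dimH E < Fintype.card ι) :
    volume E = 0 := by
  rw [← hausdorffMeasure_pi_real]
  have h1 : ((Fintype.card ι : ℝ≥0) : ℝ) = (Fintype.card ι : ℝ) := by simp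
  rw [← h1]
  refine hausdorffMeasure_of_dimH_lt ?_
  simpa using h

/-- countably many families of exponent `s`: near almost every point of `ℝ ^ n`, to the precision
`h ^ (-σ)`, `σ > s / n` -/
theorem ae_family_pi {ι : Type*} [Fintype ι] [Nonempty ι] {P : Type*} (φ : P → ι → ℝ) (h : P → ℝ)
    (h1 : ∀ t, 1 ≤ h t) {s : ℝ} (hs : 0 ≤ s) {J : Type*} [Countable J] (S : J → Set P)
    (hC : ∀ j : J, ∀ ε : ℝ, 0 < ε → ∃ C : ℝ, ∀ X : ℝ, 1 ≤ X →
      {t | t ∈ S j ∧ h t ≤ X}.Finite ∧ ({t | t ∈ S j ∧ h t ≤ X}.ncard : ℝ) ≤ C * X ^ (s + ε)) :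
    ∀ᵐ x : ι → ℝ, ∀ σ : ℝ, s / Fintype.card ι < σ → ∀ j : J,
      {t | t ∈ S j ∧ ∀ i, |φ t i - x i| ≤ (h t) ^ (-σ)}.Finite := by
  have hn : (0 : ℝ) < Fintype.card ι := by exact_mod_cast Fintype.card_pos
  have hpos : ∀ k : ℕ, 0 < s / Fintype.card ι + 1 / ((k : ℝ) + 1) := fun k => by positivity
  have hall := fun k : ℕ => dim_family φ h h1 hs (hpos k) S hC
  choose E hE1 hE2 using hall
  have hnull : ∀ k, volume (E k) = 0 := by
    intro k
    refine null_of_dimH_lt ((hE1 k).trans_lt ?_)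
    have g1 : s / (s / Fintype.card ι + 1 / ((k : ℝ) + 1)) < Fintype.card ι := by
      rw [div_lt_iff₀ (hpos k), mul_add, mul_div_cancel₀ _ hn.ne']
      have : (0 : ℝ) < (Fintype.card ι : ℝ) * (1 / ((k : ℝ) + 1)) := by positivity
      linarith
    have g2 : ENNReal.ofReal (s / (s / Fintype.card ι + 1 / ((k : ℝ) + 1))) <
        ENNReal.ofReal (Fintype.card ι : ℝ) := (ENNReal.ofReal_lt_ofReal_iff hn).2 g1
    simpa using g2
  have hae : ∀ᵐ x : ι → ℝ, ∀ k, x ∉ E k := by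
    rw [ae_all_iff]
    intro k
    exact compl_mem_ae_iff.2 (hnull k)
  filter_upwards [hae] with x hx σ hσ j
  obtain ⟨k, hk⟩ := exists_nat_one_div_lt (sub_pos.2 hσ)
  refine (hE2 k x (hx k) j).subset ?_
  rintro t ⟨g1, g2⟩
  refine ⟨g1, ?_⟩
  have g3 : (h t) ^ (-σ) ≤ (h t) ^ (-(s / Fintype.card ι + 1 / ((k : ℝ) + 1))) :=
    Real.rpow_le_rpow_of_exponent_le (h1 t) (by linarith)
  rw [dist_pi_le_iff (Real.rpow_nonneg (by linarith [h1 t]) _)]
  intro i
  rw [Real.dist_eq]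
  exact (g2 i).trans g3

end Pool.Agent.H107.ME
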