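import Pool.Agent.H107.EpsZero2

/-!
# Points near a given point in families counted by a size that is attained
-/

set_option autoImplicit false

namespace Pool.Agent.H107.ME

open Set

/-- A family of increasing finite sets `F i R Y` with `O(Y ^ ε)` elements for `R` large: outside of a set of dimension zero,
for every `i` and `w > 0` there is `R` such that only finitely many `t` are in `F i R B` for a `B ≥ 1` with
`dist (φ t) z ≤ B ^ (-w)`. -/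
theorem near_family {T M ι : Type*} [MetricSpace M] [Countable ι] (φ : T → M) (F : ι → ℕ → ℝ → Set T)
    (hmono : ∀ i R, ∀ Y Y' : ℝ, 1 ≤ Y → Y ≤ Y' → F i R Y ⊆ F i R Y')
    (hC : ∀ i, ∀ ε : ℝ, 0 < ε → ∃ R : ℕ, ∃ C : ℝ, ∀ Y : ℝ, 1 ≤ Y →
      (F i R Y).Finite ∧ ((F i R Y).ncard : ℝ) ≤ C * Y ^ ε) :
    ∃ E : Set M, dimH E = 0 ∧ ∀ z ∉ E, ∀ i, ∀ w : ℝ, 0 < w → ∃ R : ℕ,
      {t : T | ∃ B : ℕ, 1 ≤ B ∧ t ∈ F i R B ∧ dist (φ t) z ≤ (B : ℝ) ^ (-w)}.Finite := by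
  classical
  set S : ι → ℕ → Set (T × ℕ) := fun i R =>
    {p | 1 ≤ p.2 ∧ p.1 ∈ F i R p.2 ∧ ∀ Y' : ℕ, 1 ≤ Y' → Y' < p.2 → p.1 ∉ F i R Y'} with hS
  obtain ⟨E, hE0, hE⟩ := dim_zero_countable (P := T × ℕ) (fun (_ : ι) p => φ p.1)
    (fun _ p => max 1 (p.2 : ℝ)) (fun _ p => le_max_left _ _) S (by
      intro i ε hε
      obtain ⟨R, C, h⟩ := hC i ε hε
      refine ⟨R, C, fun X hX => ?_⟩
      obtain ⟨h1, h2⟩ := h X hX
      have hmaps : MapsTo Prod.fst {p | p ∈ S i R ∧ max 1 (p.2 : ℝ) ≤ X} (F i R X) := by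
        rintro p ⟨⟨g1, g2, _⟩, g4⟩
        exact hmono i R _ _ (by exact_mod_cast g1) ((le_max_right _ _).trans g4) g2
      have hinj : InjOn Prod.fst {p | p ∈ S i R ∧ max 1 (p.2 : ℝ) ≤ X} := by
        rintro ⟨t, Y⟩ ⟨⟨g1, g2, g3⟩, -⟩ ⟨t', Y'⟩ ⟨⟨g1', g2', g3'⟩, -⟩ hpp
        simp only at g1 g2 g3 g1' g2' g3' hpp
        subst hpp
        have : Y = Y' := by
          rcases lt_trichotomy Y Y' with hlt | heq | hgt
          · exact absurd g2 (g3' Y g1 hlt)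
          · exact heq
          · exact absurd g2' (g3 Y' g1' hgt)
        rw [this]
      refine ⟨Set.Finite.of_injOn hmaps hinj h1, le_trans ?_ h2⟩
      exact_mod_cast Set.ncard_le_ncard_of_injOn _ hmaps hinj h1)
  refine ⟨E, hE0, fun z hz i w hw => ?_⟩
  obtain ⟨R, hR⟩ := hE z hz i w hw
  refine ⟨R, (hR.image Prod.fst).subset ?_⟩
  rintro t ⟨B, hB1, hB2, hB3⟩
  have hex : ∃ Y : ℕ, 1 ≤ Y ∧ t ∈ F i R Y := ⟨B, hB1, hB2⟩
  have hspec := Nat.find_spec hex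
  have hmin : Nat.find hex ≤ B := Nat.find_min' hex ⟨hB1, hB2⟩
  refine ⟨(t, Nat.find hex), ⟨⟨hspec.1, hspec.2, fun Y' h1 h2 h3 => Nat.find_min hex h2 ⟨h1, h3⟩⟩, ?_⟩, rfl⟩
  refine hB3.trans ?_
  have h1 : max 1 ((Nat.find hex : ℕ) : ℝ) ≤ B := by
    apply max_le
    · exact_mod_cast hB1
    · exact_mod_cast hmin
  exact Real.rpow_le_rpow_of_nonpos (lt_of_lt_of_le one_pos (le_max_left _ _)) h1 (by linarith)

end Pool.Agent.H107.ME
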