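import Pool.Agent.V11273.PV.G7
import Pool.Agent.W301.LinA3
import Pool.Agent.H107.MetricZero
import Pool.Agent.H107.FCZero

set_option autoImplicit false

/-! Sparse exceptional sets of algebraic points: near points of `ℂ ^ X`. -/

namespace Pool.Agent.H107.Per

open Filter Topology NumberField Pool.Agent.V11273.PV
open Pool.Agent.Y890.MV

variable {X : Type} [Fintype X] {σ : Type}

/-- the first `k` terms -/
def res (ξ : ℕ → ℂ) (k : ℕ) : Fin k → ℂ := fun i => ξ i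

lemma small_mono {K : Type} [Field K] [NumberField K] {io : K →+* ℂ} {k k' : ℕ} (h : k ≤ k') (ξ : ℕ → ℂ)
    {T T' : ℝ} (hT : 1 ≤ T) (hTT : T ≤ T') {P : MvPolynomial σ ℂ} (hP : Small K io k (res ξ k) T P) :
    Small K io k' (res ξ k') T' P := by
  refine ⟨fun y => (hP.1 y).trans h, fun m => ?_⟩
  obtain ⟨c, h1, h2⟩ := hP.2 m
  have hT' : 1 ≤ T' := hT.trans hTT
  refine ⟨fun i => if hi : (i : ℕ) < k then c ⟨i, hi⟩ else 0, fun i φ => ?_, ?_⟩
  · show ‖φ (((if hi : (i : ℕ) < k then c ⟨i, hi⟩ else 0 : 𝓞 K)) : K)‖ ≤ T' ^ (k' : ℝ)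
    split_ifs with hi
    · refine (h1 _ φ).trans ?_
      calc T ^ (k : ℝ) ≤ T' ^ (k : ℝ) := Real.rpow_le_rpow (by linarith) hTT (Nat.cast_nonneg _)
        _ ≤ T' ^ (k' : ℝ) := Real.rpow_le_rpow_of_exponent_le hT' (by exact_mod_cast h)
    · simp only [map_zero, norm_zero]
      positivity
  · rw [h2]
    set g : ℕ → ℂ := fun i => if hi : i < k then ξ i * io ((c ⟨i, hi⟩ : 𝓞 K) : K) else 0 with hg
    have e1 : ∑ i : Fin k, res ξ k i * io (c i : K) = ∑ i : Fin k, g i := by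
      refine Finset.sum_congr rfl fun i _ => ?_
      simp only [hg, i.2, dif_pos, res]
    have e2 : ∑ i : Fin k', res ξ k' i * io (((if hi : (i : ℕ) < k then c ⟨i, hi⟩ else 0 : 𝓞 K)) : K) =
        ∑ i : Fin k', g i := by
      refine Finset.sum_congr rfl fun i _ => ?_
      simp only [hg, res]
      split_ifs with hi
      · rfl
      · simp
    rw [e1, e2, Fin.sum_univ_eq_sum_range g k, Fin.sum_univ_eq_sum_range g k']
    refine Finset.sum_subset (Finset.range_mono h) fun i _ hi => ?_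
    rw [Finset.mem_range] at hi
    simp only [hg, dif_neg hi]

lemma excB_mono {U : Set (X → ℂ)} {f : σ → (X → ℂ) → ℂ} {Bad : (X → ℂ) → MvPolynomial σ ℂ → Prop}
    {K : Type} [Field K] [NumberField K] {io : K →+* ℂ} {k k' : ℕ} (hk : 0 < k) (h : k ≤ k') (ξ : ℕ → ℂ)
    {T T' : ℝ} (hT : 1 ≤ T) (hTT : T ≤ T') :
    ExcB U f Bad K io k (res ξ k) T ⊆ ExcB U f Bad K io k' (res ξ k') T' := by
  rintro s ⟨h1, h2, P, h3, h4, h5⟩
  refine ⟨fun j => ?_, innerM_mono U hk h h2, P, small_mono h ξ hT hTT h3, h4, h5⟩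
  obtain ⟨a, b, g1, g2, g3, g4⟩ := h1 j
  exact ⟨a, b, g1, g2.trans hTT, g3.trans hTT, g4⟩

/-- the number of elements of height at most `T` -/
lemma ht_count (K : Type) [Field K] [NumberField K] {T : ℝ} (hT : 1 ≤ T) :
    ({x : K | Y120.HtLe K T x}.ncard : ℝ) ≤ (3 * T) ^ (2 * Module.finrank ℚ K) := by
  set A : Set K := {x : K | IsIntegral ℤ x ∧ house x ≤ T} with hA
  have hfin : A.Finite := Pool.Agent.W301.Lin.finite_small K T
  have hsub : {x : K | Y120.HtLe K T x} ⊆ (fun p : K × K => p.1 / p.2) '' (A ×ˢ A) := by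
    rintro x ⟨a, b, -, h1, h2, rfl⟩
    exact ⟨((a : K), (b : K)), ⟨⟨a.2, h1⟩, ⟨b.2, h2⟩⟩, rfl⟩
  have h1 : {x : K | Y120.HtLe K T x}.ncard ≤ A.ncard * A.ncard := by
    calc {x : K | Y120.HtLe K T x}.ncard ≤ ((fun p : K × K => p.1 / p.2) '' (A ×ˢ A)).ncard :=
          Set.ncard_le_ncard hsub ((hfin.prod hfin).image _)
      _ ≤ (A ×ˢ A).ncard := Set.ncard_image_le (hfin.prod hfin)
      _ = A.ncard * A.ncard := Set.ncard_prod
  have h2 : (A.ncard : ℝ) ≤ (3 * T) ^ Module.finrank ℚ K := by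
    refine (Pool.Agent.W301.Lin.card_int_le K T (by linarith)).trans ?_
    gcongr
    linarith
  calc ({x : K | Y120.HtLe K T x}.ncard : ℝ) ≤ ((A.ncard * A.ncard : ℕ) : ℝ) := by exact_mod_cast h1
    _ = (A.ncard : ℝ) * A.ncard := by push_cast; ring
    _ ≤ (3 * T) ^ Module.finrank ℚ K * (3 * T) ^ Module.finrank ℚ K :=
        mul_le_mul h2 h2 (Nat.cast_nonneg _) (by positivity)
    _ = (3 * T) ^ (2 * Module.finrank ℚ K) := by rw [← pow_add]; ring_nf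

/-- the exceptional points at the heights `2 ^ m` -/
def Dy (U : Set (X → ℂ)) (f : σ → (X → ℂ) → ℂ) (Bad : (X → ℂ) → MvPolynomial σ ℂ → Prop)
    (K : IntermediateField ℚ ℂ) (k : ℕ) (ξ : ℕ → ℂ) (m₀ : ℕ) : Set ((X → ℂ) × ℕ) :=
  {t | m₀ ≤ t.2 ∧ ∃ (_ : NumberField K), ∃ s ∈ ExcB U f Bad K (algebraMap K ℂ) k (res ξ k) ((2 : ℝ) ^ t.2),
    t.1 = fun i => (s i : ℂ)}

/-- the height -/
noncomputable def hh (t : (X → ℂ) × ℕ) : ℝ := (2 : ℝ) ^ t.2

omit [Fintype X] in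
lemma one_le_hh (t : (X → ℂ) × ℕ) : 1 ≤ hh t := one_le_pow₀ (by norm_num)

lemma dy_count {U : Set (X → ℂ)} {f : σ → (X → ℂ) → ℂ} {Bad : (X → ℂ) → MvPolynomial σ ℂ → Prop}
    (hE : OmegaStm (fun k K [Field K] [NumberField K] io ξ T => ExcB U f Bad K io k ξ T)) (D k : ℕ) (hk : 0 < k) :
    ∃ m₀ : ℕ, ∀ (K : IntermediateField ℚ ℂ) (ξ : ℕ → ℂ), Module.finrank ℚ K ≤ D → ∀ ε : ℝ, 0 < ε →
      ∃ C : ℝ, ∀ Y : ℝ, 1 ≤ Y →
      {t | t ∈ Dy U f Bad K k ξ m₀ ∧ hh t ≤ Y}.Finite ∧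
      ({t | t ∈ Dy U f Bad K k ξ m₀ ∧ hh t ≤ Y}.ncard : ℝ) ≤
        C * Y ^ (((2 * D * (Fintype.card X - 1) : ℕ) : ℝ) + ε) := by
  classical
  obtain ⟨ω, T₀, h1, h2, h3⟩ := hE
  obtain ⟨T₁, hT₁⟩ := Filter.eventually_atTop.1 ((tendsto_atTop.1 h1) (max D k))
  obtain ⟨m₀, hm₀⟩ := pow_unbounded_of_one_lt (max T₀ T₁) (one_lt_two : (1 : ℝ) < 2)
  refine ⟨m₀, fun K ξ hK ε hε => ?_⟩
  by_cases hnf : NumberField K
  swap
  · refine ⟨0, fun Y _ => ?_⟩
    have h4 : {t | t ∈ Dy U f Bad K k ξ m₀ ∧ hh t ≤ Y} = (∅ : Set ((X → ℂ) × ℕ)) := by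
      rw [Set.eq_empty_iff_forall_notMem]
      rintro t ⟨⟨-, h5, -⟩, -⟩
      exact hnf h5
    rw [h4]
    simp
  obtain ⟨T₂, hT₂⟩ := Filter.eventually_atTop.1 ((tendsto_atTop.1 h1) (⌈2 / ε⌉₊ + 1))
  set e : ℕ := 2 * D * (Fintype.card X - 1) with he
  set C₁ : ℝ := (max 1 T₂) * 3 ^ e with hC₁
  have hC₁0 : 0 < C₁ := by positivity
  set A : ℕ → Set (X → K) := fun m => ExcB U f Bad K (algebraMap K ℂ) k (res ξ k) ((2 : ℝ) ^ m) with hA
  have hcard : ∀ m, m₀ ≤ m → (A m).Finite ∧ ((A m).ncard : ℝ) ≤ C₁ * ((2 : ℝ) ^ m) ^ ((e : ℝ) + ε / 2) := by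
    intro m hm
    set T : ℝ := (2 : ℝ) ^ m with hT
    have hT1 : 1 ≤ T := one_le_pow₀ (by norm_num)
    have hTm : max T₀ T₁ ≤ T := hm₀.le.trans (pow_le_pow_right₀ (by norm_num) hm)
    have hTT₀ : T₀ ≤ T := (le_max_left _ _).trans hTm
    have hω : max D k ≤ ω T := hT₁ T ((le_max_right _ _).trans hTm)
    obtain ⟨g0, g1⟩ := h3 T hTT₀
    obtain ⟨-, g2, g3⟩ := g1 K (hK.trans ((le_max_left _ _).trans hω)) (algebraMap K ℂ) (res ξ (ω T))
    have hsub : A m ⊆ ExcB U f Bad K (algebraMap K ℂ) (ω T) (res ξ (ω T)) T :=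
      excB_mono hk ((le_max_right _ _).trans hω) ξ hT1 le_rfl
    refine ⟨g2.subset hsub, ?_⟩
    have g4 : ((A m).ncard : ℝ) ≤ T ^ ((ω T : ℝ)⁻¹) * ({x : K | Y120.HtLe K T x}.ncard : ℝ) ^ (Fintype.card X - 1) :=
      le_trans (by exact_mod_cast Set.ncard_le_ncard hsub g2) g3
    have g5 : ({x : K | Y120.HtLe K T x}.ncard : ℝ) ^ (Fintype.card X - 1) ≤ 3 ^ e * T ^ e := by
      calc ({x : K | Y120.HtLe K T x}.ncard : ℝ) ^ (Fintype.card X - 1)
          ≤ ((3 * T) ^ (2 * Module.finrank ℚ K)) ^ (Fintype.card X - 1) :=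
            pow_le_pow_left₀ (Nat.cast_nonneg _) (ht_count K hT1) _
        _ = (3 * T) ^ (2 * Module.finrank ℚ K * (Fintype.card X - 1)) := by rw [← pow_mul]
        _ ≤ (3 * T) ^ e := by
            refine pow_le_pow_right₀ (by linarith) ?_
            rw [he]
            gcongr
        _ = 3 ^ e * T ^ e := mul_pow _ _ _
    have g6 : T ^ ((ω T : ℝ)⁻¹) ≤ (max 1 T₂) * T ^ (ε / 2) := by
      have hωpos : (0 : ℝ) < ω T := by exact_mod_cast g0
      by_cases hTT : T₂ ≤ T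
      · have g7 : ⌈2 / ε⌉₊ + 1 ≤ ω T := hT₂ T hTT
        have g8 : 2 / ε ≤ ω T := by
          have : 2 / ε ≤ (⌈2 / ε⌉₊ : ℝ) := Nat.le_ceil _
          have g9 : ((⌈2 / ε⌉₊ + 1 : ℕ) : ℝ) ≤ ω T := by exact_mod_cast g7
          push_cast at g9
          linarith
        have g10 : (ω T : ℝ)⁻¹ ≤ ε / 2 := by
          rw [inv_le_comm₀ hωpos (by positivity)]
          rw [inv_div]
          exact g8
        calc T ^ ((ω T : ℝ)⁻¹) ≤ T ^ (ε / 2) := Real.rpow_le_rpow_of_exponent_le hT1 g10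
          _ ≤ (max 1 T₂) * T ^ (ε / 2) := le_mul_of_one_le_left (by positivity) (le_max_left _ _)
      · rw [not_le] at hTT
        have g7 : T ^ ((ω T : ℝ)⁻¹) ≤ T ^ (1 : ℝ) := by
          refine Real.rpow_le_rpow_of_exponent_le hT1 ?_
          rw [inv_le_one₀ hωpos]
          exact_mod_cast g0
        rw [Real.rpow_one] at g7
        calc T ^ ((ω T : ℝ)⁻¹) ≤ T := g7
          _ ≤ max 1 T₂ := hTT.le.trans (le_max_right _ _)
          _ ≤ (max 1 T₂) * T ^ (ε / 2) :=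
              le_mul_of_one_le_right (by positivity) (Real.one_le_rpow hT1 (by positivity))
    calc ((A m).ncard : ℝ) ≤ T ^ ((ω T : ℝ)⁻¹) * ({x : K | Y120.HtLe K T x}.ncard : ℝ) ^ (Fintype.card X - 1) := g4
      _ ≤ ((max 1 T₂) * T ^ (ε / 2)) * (3 ^ e * T ^ e) :=
          mul_le_mul g6 g5 (by positivity) (by positivity)
      _ = C₁ * T ^ ((e : ℝ) + ε / 2) := by
          rw [Real.rpow_add (by linarith), Real.rpow_natCast, hC₁]
          ring
  obtain ⟨K', hK', hlog⟩ := Pool.Agent.H107.FC.log_cube (ε / 6) (by positivity)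
  refine ⟨C₁ * K', fun Y hY => ?_⟩
  have hY0 : 0 < Y := by linarith
  set L := Nat.log 2 ⌊Y⌋₊ with hL
  have hfl : 1 ≤ ⌊Y⌋₊ := Nat.le_floor (by exact_mod_cast hY)
  have hmL : ∀ m : ℕ, (2 : ℝ) ^ m ≤ Y → m ≤ L := by
    intro m hm
    rw [hL]
    apply Nat.le_log_of_pow_le (by norm_num)
    apply Nat.le_floor
    push_cast
    exact hm
  set I : Finset ℕ := (Finset.range (L + 1)).filter fun m => m₀ ≤ m ∧ (2 : ℝ) ^ m ≤ Y with hI
  have hsub : {t | t ∈ Dy U f Bad K k ξ m₀ ∧ hh t ≤ Y} ⊆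
      ⋃ m ∈ I, (fun s : X → K => ((fun i => (s i : ℂ)), m)) '' (A m) := by
    rintro ⟨z, m⟩ ⟨⟨g1, g2, s, g3, g4⟩, g5⟩
    rw [Set.mem_iUnion₂]
    refine ⟨m, ?_, s, g3, ?_⟩
    · rw [hI, Finset.mem_filter, Finset.mem_range]
      exact ⟨Nat.lt_succ_of_le (hmL m g5), g1, g5⟩
    · simp only [Prod.mk.injEq, and_true]
      exact g4.symm
  have hIm : ∀ m ∈ I, m₀ ≤ m ∧ (2 : ℝ) ^ m ≤ Y := fun m hm => (Finset.mem_filter.1 hm).2
  have hfin : (⋃ m ∈ I, (fun s : X → K => (((fun i => (s i : ℂ)), m) : (X → ℂ) × ℕ)) '' (A m)).Finite :=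
    Set.Finite.biUnion (Finset.finite_toSet I) fun m hm => ((hcard m (hIm m hm).1).1).image _
  refine ⟨hfin.subset hsub, ?_⟩
  have hcardI : (I.card : ℝ) ≤ K' * Y ^ (ε / 2) := by
    have g1 : I.card ≤ L + 1 := (Finset.card_filter_le _ _).trans (by rw [Finset.card_range])
    have g2 : ((L : ℝ) + 1) ≤ ((L : ℝ) + 1) ^ 3 := by
      have : (0 : ℝ) ≤ L := Nat.cast_nonneg _
      nlinarith [mul_nonneg this this, mul_nonneg this (mul_nonneg this this)]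
    calc (I.card : ℝ) ≤ (L : ℝ) + 1 := by exact_mod_cast g1
      _ ≤ ((L : ℝ) + 1) ^ 3 := g2
      _ ≤ K' * Y ^ (3 * (ε / 6)) := hlog Y hY
      _ = K' * Y ^ (ε / 2) := by congr 2; ring
  calc ({t | t ∈ Dy U f Bad K k ξ m₀ ∧ hh t ≤ Y}.ncard : ℝ)
      ≤ ((⋃ m ∈ I, (fun s : X → K => (((fun i => (s i : ℂ)), m) : (X → ℂ) × ℕ)) '' (A m)).ncard : ℝ) := by
        exact_mod_cast Set.ncard_le_ncard hsub hfin
    _ ≤ ∑ m ∈ I, (((fun s : X → K => (((fun i => (s i : ℂ)), m) : (X → ℂ) × ℕ)) '' (A m)).ncard : ℝ) := by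
        exact_mod_cast Finset.set_ncard_biUnion_le I _
    _ ≤ ∑ m ∈ I, C₁ * Y ^ ((e : ℝ) + ε / 2) := by
        refine Finset.sum_le_sum fun m hm => ?_
        obtain ⟨g1, g2⟩ := hcard m (hIm m hm).1
        calc (((fun s : X → K => (((fun i => (s i : ℂ)), m) : (X → ℂ) × ℕ)) '' (A m)).ncard : ℝ)
            ≤ ((A m).ncard : ℝ) := by exact_mod_cast Set.ncard_image_le g1
          _ ≤ C₁ * ((2 : ℝ) ^ m) ^ ((e : ℝ) + ε / 2) := g2
          _ ≤ C₁ * Y ^ ((e : ℝ) + ε / 2) := by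
              refine mul_le_mul_of_nonneg_left ?_ hC₁0.le
              exact Real.rpow_le_rpow (by positivity) (hIm m hm).2 (by positivity)
    _ = (I.card : ℝ) * (C₁ * Y ^ ((e : ℝ) + ε / 2)) := by rw [Finset.sum_const, nsmul_eq_mul]
    _ ≤ (K' * Y ^ (ε / 2)) * (C₁ * Y ^ ((e : ℝ) + ε / 2)) :=
        mul_le_mul_of_nonneg_right hcardI (by positivity)
    _ = C₁ * K' * Y ^ ((e : ℝ) + ε) := by
        have : Y ^ ((e : ℝ) + ε) = Y ^ (ε / 2) * Y ^ ((e : ℝ) + ε / 2) := by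
          rw [← Real.rpow_add hY0]
          congr 1
          ring
        rw [this]
        ring

/-- there are only countably many number fields in `ℂ` -/
lemma countable_fields : Set.Countable {K : IntermediateField ℚ ℂ | NumberField K} := by
  refine ((Algebraic.countable ℚ ℂ).image fun α : ℂ => IntermediateField.adjoin ℚ {α}).mono ?_
  intro K hK
  have : NumberField K := hK
  have : FiniteDimensional ℚ K := inferInstance
  obtain ⟨α, hα⟩ := @Field.exists_primitive_element ℚ K _ _ K.algebra' (by convert this) (by infer_instance)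
  refine ⟨(α : ℂ), ?_, ?_⟩
  · have h1 : IsAlgebraic ℚ α := Algebra.IsAlgebraic.isAlgebraic α
    exact h1.algebraMap
  · show IntermediateField.adjoin ℚ {(α : ℂ)} = K
    rw [← IntermediateField.lift_adjoin_simple, hα, IntermediateField.lift_top]

/-- the near theorem, with a loss in the exponent -/
theorem near_loss {U : Set (X → ℂ)} {f : σ → (X → ℂ) → ℂ} {Bad : (X → ℂ) → MvPolynomial σ ℂ → Prop}
    (hUo : IsOpen U) (hE : OmegaStm (fun k K [Field K] [NumberField K] io ξ T => ExcB U f Bad K io k ξ T))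
    (ξ : ℕ → ℂ) (D : ℕ) {τ : ℝ} (hτ : 0 < τ) :
    ∃ E : Set (X → ℂ), dimH E ≤ ENNReal.ofReal (((2 * D * (Fintype.card X - 1) : ℕ) : ℝ) / τ) ∧
      ∀ w : ℝ, τ < w → ∀ z ∈ U, z ∉ E → ∀ (K : IntermediateField ℚ ℂ) [NumberField K], Module.finrank ℚ K ≤ D →
        ∀ k : ℕ, ∃ T₁ : ℝ, ∀ T : ℝ, T₁ ≤ T → ∀ s : X → K, (∀ i, Y120.HtLe K T (s i)) →
          ‖(fun i => (s i : ℂ)) - z‖ ≤ T ^ (-w) → ∀ P : MvPolynomial σ ℂ,
            Small K (algebraMap K ℂ) k (res ξ k) T P →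
            MvPolynomial.eval (fun y => f y fun j => (s j : ℂ)) P = 0 → ¬ Bad (fun j => (s j : ℂ)) P := by
  classical
  choose m₀ hm₀ using fun n : ℕ => dy_count hE D (n + 1) (Nat.succ_pos n)
  let J := {K : IntermediateField ℚ ℂ // NumberField K ∧ Module.finrank ℚ K ≤ D} × ℕ
  haveI : Countable {K : IntermediateField ℚ ℂ // NumberField K ∧ Module.finrank ℚ K ≤ D} :=
    (countable_fields.mono fun K hK => hK.1).to_subtype
  obtain ⟨E, hE1, hE2⟩ := Pool.Agent.H107.ME.dim_family (fun t : (X → ℂ) × ℕ => t.1) hh one_le_hh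
    (s := ((2 * D * (Fintype.card X - 1) : ℕ) : ℝ)) (Nat.cast_nonneg _) hτ (J := J)
    (fun j => Dy U f Bad j.1.1 (j.2 + 1) ξ (m₀ j.2)) (fun j ε hε => hm₀ j.2 j.1.1 ξ j.1.2.2 ε hε)
  refine ⟨E, hE1, fun w hw z hzU hzE K _ hK k => ?_⟩
  -- a compact neighbourhood of `z`
  obtain ⟨δ, hδ, hball⟩ := Metric.isOpen_iff.1 hUo z hzU
  obtain ⟨k₀, hk₀⟩ := exists_nat_gt (max (2 / δ) (‖z‖ + 1))
  set k' : ℕ := max k k₀ with hk'
  have hk₀1 : (1 : ℝ) < k₀ := by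
    have := (le_max_right (2 / δ) (‖z‖ + 1)).trans_lt hk₀
    have := norm_nonneg z
    linarith
  have hk'0 : (k₀ : ℝ) ≤ k' := by exact_mod_cast le_max_right _ _
  have hk'pos : (0 : ℝ) < k' := by linarith
  have hk'pos' : 0 < k' := by exact_mod_cast hk'pos
  have hfin := hE2 z hzE (⟨K, ‹NumberField K›, hK⟩, k')
  obtain ⟨M, hM⟩ := (hfin.image Prod.snd).bddAbove
  -- large heights
  have hlim1 : Tendsto (fun T : ℝ => T ^ (-w)) atTop (𝓝 0) := tendsto_rpow_neg_atTop (by linarith)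
  obtain ⟨T₂, hT₂⟩ := Filter.eventually_atTop.1
    (hlim1.eventually (ge_mem_nhds (show (0 : ℝ) < 1 / k' by positivity)))
  have hlim2 : Tendsto (fun T : ℝ => T ^ (w - τ)) atTop atTop := tendsto_rpow_atTop (by linarith)
  obtain ⟨T₃, hT₃⟩ := Filter.eventually_atTop.1 (hlim2.eventually_ge_atTop ((2 : ℝ) ^ τ))
  refine ⟨max (max T₂ T₃) ((2 : ℝ) ^ (max M (m₀ k') + 1)), fun T hT s hs hsz P hP hzero hbad => ?_⟩
  have hTT₂ : T₂ ≤ T := ((le_max_left _ _).trans (le_max_left _ _)).trans hT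
  have hTT₃ : T₃ ≤ T := ((le_max_right _ _).trans (le_max_left _ _)).trans hT
  have hTM : (2 : ℝ) ^ (max M (m₀ k') + 1) ≤ T := (le_max_right _ _).trans hT
  have hT2 : 2 ≤ T := by
    refine le_trans ?_ hTM
    calc (2 : ℝ) = 2 ^ 1 := by norm_num
      _ ≤ 2 ^ (max M (m₀ k') + 1) := pow_le_pow_right₀ (by norm_num) (by omega)
  have hT1 : 1 ≤ T := by linarith
  have hT0 : 0 < T := by linarith
  have hnear := hT₂ T hTT₂
  have hsz' : ‖(fun i => (s i : ℂ)) - z‖ ≤ 1 / k' := hsz.trans hnear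
  -- the dyadic height
  obtain ⟨m, hm1, hm2⟩ := exists_nat_pow_near hT1 (one_lt_two : (1 : ℝ) < 2)
  have hmM : max M (m₀ k') + 1 ≤ m := by
    by_contra hcon
    have h1 : m + 1 ≤ max M (m₀ k') + 1 := by omega
    have h2 : (2 : ℝ) ^ (m + 1) ≤ 2 ^ (max M (m₀ k') + 1) := pow_le_pow_right₀ (by norm_num) h1
    linarith
  have hinner : (fun i => (s i : ℂ)) ∈ InnerM U k' := by
    have hk'' : 1 / (k' : ℝ) ≤ 1 := by
      rw [div_le_one hk'pos]
      linarith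
    refine ⟨?_, ?_⟩
    · have h1 : ‖(fun i => (s i : ℂ))‖ ≤ ‖(fun i => (s i : ℂ)) - z‖ + ‖z‖ := by
        have := norm_add_le ((fun i => (s i : ℂ)) - z) z
        rwa [sub_add_cancel] at this
      have h2 := (le_max_right (2 / δ) (‖z‖ + 1)).trans_lt hk₀
      linarith
    · refine Set.Subset.trans (fun y hy => ?_) hball
      rw [Metric.mem_ball] at hy ⊢
      have h1 : dist y z ≤ dist y (fun i => (s i : ℂ)) + dist (fun i => (s i : ℂ)) z := dist_triangle _ _ _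
      have h2 : dist (fun i => (s i : ℂ)) z ≤ 1 / k' := by
        rw [dist_eq_norm]
        exact hsz'
      have h3 := (le_max_left (2 / δ) (‖z‖ + 1)).trans_lt hk₀
      have h4 : 2 / δ < k' := h3.trans_le hk'0
      have h5 : 2 / (k' : ℝ) < δ := by
        rw [div_lt_iff₀ hδ] at h4
        rw [div_lt_iff₀ hk'pos]
        linarith
      have h6 : (k' : ℝ)⁻¹ = 1 / k' := (one_div _).symm
      have h7 : 2 / (k' : ℝ) = 1 / k' + 1 / k' := by ring
      linarith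
  have hexc : s ∈ ExcB U f Bad K (algebraMap K ℂ) (k' + 1) (res ξ (k' + 1)) ((2 : ℝ) ^ (m + 1)) := by
    have h1 : s ∈ ExcB U f Bad K (algebraMap K ℂ) k' (res ξ k') T :=
      ⟨hs, hinner, P, small_mono (le_max_left _ _) ξ hT1 le_rfl hP, hzero, hbad⟩
    exact excB_mono hk'pos' (Nat.le_succ k') ξ hT1 hm2.le h1
  have hmem : (((fun i => (s i : ℂ)), m + 1) : (X → ℂ) × ℕ) ∈
      {t | t ∈ Dy U f Bad K (k' + 1) ξ (m₀ k') ∧ dist t.1 z ≤ (hh t) ^ (-τ)} := by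
    refine ⟨⟨?_, ‹NumberField K›, s, hexc, rfl⟩, ?_⟩
    · show m₀ k' ≤ m + 1
      have := le_max_right M (m₀ k')
      omega
    · show dist (fun i => (s i : ℂ)) z ≤ ((2 : ℝ) ^ (m + 1)) ^ (-τ)
      rw [dist_eq_norm]
      refine hsz.trans ?_
      have h1 : ((2 : ℝ) ^ (m + 1)) ^ τ ≤ T ^ w := by
        calc ((2 : ℝ) ^ (m + 1)) ^ τ = (2 * 2 ^ m) ^ τ := by rw [pow_succ, mul_comm]
          _ ≤ (2 * T) ^ τ := Real.rpow_le_rpow (by positivity) (by linarith) hτ.le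
          _ = 2 ^ τ * T ^ τ := Real.mul_rpow (by norm_num) hT0.le
          _ ≤ T ^ (w - τ) * T ^ τ := mul_le_mul_of_nonneg_right (hT₃ T hTT₃) (by positivity)
          _ = T ^ w := by
              rw [← Real.rpow_add hT0]
              congr 1
              ring
      rw [Real.rpow_neg hT0.le, Real.rpow_neg (by positivity)]
      exact inv_anti₀ (by positivity) h1
  have hMle : m + 1 ≤ M := hM ⟨_, hmem, rfl⟩
  have := le_max_left M (m₀ k')
  omega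

/-- the near theorem -/
theorem near {U : Set (X → ℂ)} {f : σ → (X → ℂ) → ℂ} {Bad : (X → ℂ) → MvPolynomial σ ℂ → Prop}
    (hUo : IsOpen U) (hE : OmegaStm (fun k K [Field K] [NumberField K] io ξ T => ExcB U f Bad K io k ξ T))
    (ξ : ℕ → ℂ) (D : ℕ) {w : ℝ} (hw : 0 < w) :
    ∃ E : Set (X → ℂ), dimH E ≤ ENNReal.ofReal (((2 * D * (Fintype.card X - 1) : ℕ) : ℝ) / w) ∧
      ∀ z ∈ U, z ∉ E → ∀ (K : IntermediateField ℚ ℂ) [NumberField K], Module.finrank ℚ K ≤ D →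
        ∀ k : ℕ, ∃ T₁ : ℝ, ∀ T : ℝ, T₁ ≤ T → ∀ s : X → K, (∀ i, Y120.HtLe K T (s i)) →
          ‖(fun i => (s i : ℂ)) - z‖ ≤ T ^ (-w) → ∀ P : MvPolynomial σ ℂ,
            Small K (algebraMap K ℂ) k (res ξ k) T P →
            MvPolynomial.eval (fun y => f y fun j => (s j : ℂ)) P = 0 → ¬ Bad (fun j => (s j : ℂ)) P := by
  have hτ : ∀ n : ℕ, 0 < w - w * (1 / ((n : ℝ) + 2)) ∧ w - w * (1 / ((n : ℝ) + 2)) < w := by
    intro n
    have h1 : 1 / ((n : ℝ) + 2) < 1 := by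
      rw [div_lt_one (by positivity)]
      have : (0 : ℝ) ≤ n := Nat.cast_nonneg n
      linarith
    have h2 : 0 < 1 / ((n : ℝ) + 2) := by positivity
    constructor
    · nlinarith
    · nlinarith
  choose E hE1 hE2 using fun n : ℕ => near_loss hUo hE ξ D (hτ n).1
  refine ⟨⋂ n, E n, ?_, fun z hzU hzE => ?_⟩
  · have h2 : ∀ n : ℕ, dimH (⋂ n, E n) ≤ ENNReal.ofReal
        (((2 * D * (Fintype.card X - 1) : ℕ) : ℝ) / (w - w * (1 / ((n : ℝ) + 2)))) := fun n =>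
      (dimH_mono (Set.iInter_subset _ n)).trans (hE1 n)
    have hlim0 : Tendsto (fun n : ℕ => 1 / ((n : ℝ) + 2)) atTop (𝓝 0) := by
      have h3 := (tendsto_one_div_add_atTop_nhds_zero_nat (𝕜 := ℝ)).comp (tendsto_add_atTop_nat 1)
      refine h3.congr fun n => ?_
      simp only [Function.comp_apply, Nat.cast_add, Nat.cast_one]
      ring
    have hlim1 : Tendsto (fun n : ℕ => w - w * (1 / ((n : ℝ) + 2))) atTop (𝓝 w) := by
      have := (hlim0.const_mul w).const_sub w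
      simpa using this
    have hlim : Tendsto (fun n : ℕ => ENNReal.ofReal
        (((2 * D * (Fintype.card X - 1) : ℕ) : ℝ) / (w - w * (1 / ((n : ℝ) + 2))))) atTop
        (𝓝 (ENNReal.ofReal (((2 * D * (Fintype.card X - 1) : ℕ) : ℝ) / w))) :=
      ENNReal.tendsto_ofReal (tendsto_const_nhds.div hlim1 hw.ne')
    exact ge_of_tendsto' hlim h2
  · rw [Set.mem_iInter, not_forall] at hzE
    obtain ⟨n, hn⟩ := hzE
    exact hE2 n w (hτ n).2 z hzU hn

/-- one parameter: a set of dimension zero -/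
theorem near_zero (hX : Fintype.card X = 1) {U : Set (X → ℂ)} {f : σ → (X → ℂ) → ℂ}
    {Bad : (X → ℂ) → MvPolynomial σ ℂ → Prop} (hUo : IsOpen U)
    (hE : OmegaStm (fun k K [Field K] [NumberField K] io ξ T => ExcB U f Bad K io k ξ T)) (ξ : ℕ → ℂ) :
    ∃ E : Set (X → ℂ), dimH E = 0 ∧
      ∀ z ∈ U, z ∉ E → ∀ w : ℝ, 0 < w → ∀ (K : IntermediateField ℚ ℂ) [NumberField K],
        ∀ k : ℕ, ∃ T₁ : ℝ, ∀ T : ℝ, T₁ ≤ T → ∀ s : X → K, (∀ i, Y120.HtLe K T (s i)) →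
          ‖(fun i => (s i : ℂ)) - z‖ ≤ T ^ (-w) → ∀ P : MvPolynomial σ ℂ,
            Small K (algebraMap K ℂ) k (res ξ k) T P →
            MvPolynomial.eval (fun y => f y fun j => (s j : ℂ)) P = 0 → ¬ Bad (fun j => (s j : ℂ)) P := by
  choose E hE1 hE2 using fun p : ℕ × ℕ => near_loss hUo hE ξ p.1
    (show (0 : ℝ) < 1 / ((p.2 : ℝ) + 1) by positivity)
  refine ⟨⋃ p, E p, ?_, fun z hzU hzE w hw K _ k => ?_⟩
  · rw [dimH_iUnion]
    refine le_antisymm (iSup_le fun p => ?_) bot_le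
    refine (hE1 p).trans ?_
    rw [hX]
    simp
  · obtain ⟨n, hn⟩ := exists_nat_one_div_lt hw
    have hz : z ∉ E (Module.finrank ℚ K, n) := fun h => hzE (Set.mem_iUnion.2 ⟨_, h⟩)
    exact hE2 (Module.finrank ℚ K, n) w hn z hzU hz K le_rfl k

end Pool.Agent.H107.Per
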