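import Mathlib
import Pool.Agent.Y854.GM.Win

set_option autoImplicit false

/-! Satake parameters in short windows. -/

namespace Pool.Agent.H107.Ram

open Finset Filter Topology NumberField IsDedekindDomain

/-- power sums of numbers, the largest of which is of modulus `R` -/
lemma power_sum {ι : Type} [Fintype ι] (β : ι → ℂ) {R : ℝ} (hR : 0 < R)
    (i₀ : ι) (hi₀ : ‖β i₀‖ = R) : ∃ k, 1 ≤ k ∧ k ≤ Fintype.card ι ∧
      R ^ k / (2 * Fintype.card ι) ≤ ‖∑ i, β i ^ k‖ := by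
  classical
  haveI : Nonempty ι := ⟨i₀⟩
  by_contra hcon
  push Not at hcon
  set m := Fintype.card ι with hm
  have hm0 : 0 < m := Fintype.card_pos
  have hmR : (0 : ℝ) < m := by exact_mod_cast hm0
  set δ : ℝ := 1 / (2 * m) with hδ
  have hδ0 : 0 < δ := by positivity
  have hδ1 : δ ≤ 1 := by
    rw [hδ, div_le_one (by positivity)]
    have : (1 : ℝ) ≤ m := by exact_mod_cast hm0
    linarith
  have hp : ∀ k, 1 ≤ k → k ≤ m → ‖∑ i, β i ^ k‖ ≤ δ * R ^ k := by
    intro k hk1 hkm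
    refine (hcon k hk1 hkm).le.trans (le_of_eq ?_)
    rw [hδ]
    ring
  set e : ℕ → ℂ := fun k => MvPolynomial.aeval β (MvPolynomial.esymm ι ℂ k) with he
  have he0 : e 0 = 1 := by simp [he]
  have hnewton : ∀ k : ℕ, (k : ℂ) * e k = (-1) ^ (k + 1) *
      ∑ a ∈ (antidiagonal k).filter (fun a => a.1 < k), (-1) ^ a.1 * e a.1 * ∑ i, β i ^ a.2 := by
    intro k
    have h1 := congrArg (MvPolynomial.aeval β) (MvPolynomial.mul_esymm_eq_sum ι ℂ k)
    simpa [he, MvPolynomial.psum] using h1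
  have hek : ∀ k, k ≤ m → ‖e k‖ ≤ R ^ k ∧ (1 ≤ k → ‖e k‖ ≤ δ * R ^ k) := by
    intro k
    induction k using Nat.strong_induction_on with
    | _ k ih =>
      intro hkm
      by_cases hk0 : k = 0
      · subst hk0
        rw [he0]
        simp
      · have hk1 : 1 ≤ k := Nat.one_le_iff_ne_zero.2 hk0
        have hkR : (0 : ℝ) < k := by exact_mod_cast hk1
        have h1 := congrArg norm (hnewton k)
        rw [norm_mul, norm_mul, norm_pow, norm_neg, norm_one, one_pow, one_mul, Complex.norm_natCast] at h1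
        have hcard : ((antidiagonal k).filter (fun a => a.1 < k)).card ≤ k := by
          have h2 : (antidiagonal k).filter (fun a => a.1 < k) ⊆ (antidiagonal k).erase (k, 0) := by
            intro a ha
            rw [mem_filter] at ha
            rw [mem_erase]
            refine ⟨?_, ha.1⟩
            rintro rfl
            exact absurd ha.2 (lt_irrefl k)
          have h3 := card_le_card h2
          rw [card_erase_of_mem (by simp), Finset.Nat.card_antidiagonal] at h3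
          omega
        have h2 : ‖∑ a ∈ (antidiagonal k).filter (fun a => a.1 < k), (-1) ^ a.1 * e a.1 * ∑ i, β i ^ a.2‖ ≤
            k * (δ * R ^ k) := by
          calc ‖∑ a ∈ (antidiagonal k).filter (fun a => a.1 < k), (-1) ^ a.1 * e a.1 * ∑ i, β i ^ a.2‖
              ≤ ∑ a ∈ (antidiagonal k).filter (fun a => a.1 < k), δ * R ^ k := by
                refine norm_sum_le_of_le _ fun a ha => ?_
                rw [mem_filter, Finset.HasAntidiagonal.mem_antidiagonal] at ha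
                obtain ⟨g1, g2⟩ := ha
                rw [norm_mul, norm_mul, norm_pow, norm_neg, norm_one, one_pow, one_mul]
                have g3 := (ih a.1 g2 (by omega)).1
                have g4 := hp a.2 (by omega) (by omega)
                calc ‖e a.1‖ * ‖∑ i, β i ^ a.2‖ ≤ R ^ a.1 * (δ * R ^ a.2) :=
                      mul_le_mul g3 g4 (norm_nonneg _) (by positivity)
                  _ = δ * R ^ (a.1 + a.2) := by rw [pow_add]; ring
                  _ = δ * R ^ k := by rw [g1]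
            _ = (((antidiagonal k).filter (fun a => a.1 < k)).card : ℝ) * (δ * R ^ k) := by
                rw [sum_const, nsmul_eq_mul]
            _ ≤ k * (δ * R ^ k) := by
                refine mul_le_mul_of_nonneg_right ?_ (by positivity)
                exact_mod_cast hcard
        have h3 : ‖e k‖ ≤ δ * R ^ k := by
          have h4 : (k : ℝ) * ‖e k‖ ≤ k * (δ * R ^ k) := h1.trans_le h2
          exact le_of_mul_le_mul_left h4 hkR
        refine ⟨h3.trans ?_, fun _ => h3⟩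
        have : 0 < R ^ k := by positivity
        nlinarith
  -- the polynomial with the roots `β i`
  have hroot : ∑ j ∈ range (m + 1), (-1) ^ j * (e j * β i₀ ^ (m - j)) = 0 := by
    have h1 := Multiset.prod_X_sub_X_eq_sum_esymm (univ.val.map β)
    have h2 := congrArg (Polynomial.eval (β i₀)) h1
    rw [Polynomial.eval_multiset_prod, Multiset.map_map] at h2
    have h3 : (Multiset.map (Polynomial.eval (β i₀) ∘ fun t => Polynomial.X - Polynomial.C t)
        (univ.val.map β)).prod = 0 := by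
      apply Multiset.prod_eq_zero
      rw [Multiset.mem_map]
      refine ⟨β i₀, Multiset.mem_map_of_mem _ (mem_univ i₀), ?_⟩
      simp
    rw [h3, Polynomial.eval_finsetSum] at h2
    rw [h2]
    have hc : Multiset.card (univ.val.map β) = m := by
      rw [Multiset.card_map]
      rfl
    rw [hc]
    refine sum_congr rfl fun j _ => ?_
    rw [Polynomial.eval_mul, Polynomial.eval_mul, Polynomial.eval_C, Polynomial.eval_pow, Polynomial.eval_pow,
      Polynomial.eval_X, Polynomial.eval_neg, Polynomial.eval_one, ← MvPolynomial.aeval_esymm_eq_multiset_esymm ι ℂ]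
  rw [sum_range_succ'] at hroot
  simp only [pow_zero, he0, one_mul, Nat.sub_zero] at hroot
  have h1 : β i₀ ^ m = -∑ j ∈ range m, (-1) ^ (j + 1) * (e (j + 1) * β i₀ ^ (m - (j + 1))) := by
    linear_combination hroot
  have h2 := congrArg norm h1
  rw [norm_pow, hi₀, norm_neg] at h2
  have h3 : ‖∑ j ∈ range m, (-1) ^ (j + 1) * (e (j + 1) * β i₀ ^ (m - (j + 1)))‖ ≤ m * (δ * R ^ m) := by
    calc ‖∑ j ∈ range m, (-1) ^ (j + 1) * (e (j + 1) * β i₀ ^ (m - (j + 1)))‖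
        ≤ ∑ j ∈ range m, δ * R ^ m := by
          refine norm_sum_le_of_le _ fun j hj => ?_
          rw [mem_range] at hj
          rw [norm_mul, norm_mul, norm_pow, norm_pow, norm_neg, norm_one, one_pow, one_mul, hi₀]
          have g1 := (hek (j + 1) (by omega)).2 (by omega)
          calc ‖e (j + 1)‖ * R ^ (m - (j + 1)) ≤ (δ * R ^ (j + 1)) * R ^ (m - (j + 1)) :=
                mul_le_mul_of_nonneg_right g1 (by positivity)
            _ = δ * R ^ (j + 1 + (m - (j + 1))) := by rw [pow_add]; ring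
            _ = δ * R ^ m := by congr 2; omega
      _ = m * (δ * R ^ m) := by rw [sum_const, nsmul_eq_mul, card_range]
  have h4 : (m : ℝ) * (δ * R ^ m) = R ^ m / 2 := by
    rw [hδ]
    field_simp
  have h5 : 0 < R ^ m := by positivity
  linarith

/-- a large parameter of a unitary local component shows in a power sum of small order -/
lemma local_large {n : ℕ} (α : Fin n → ℂ) (σ : Equiv.Perm (Fin n)) (hσ : ∀ i, ‖α (σ i)‖ = ‖α i‖⁻¹)
    {R : ℝ} (hR : 2 * (n : ℝ) ^ 2 ≤ R) (i₀ : Fin n) (hi₀ : R ≤ ‖α i₀‖) :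
    ∃ k, 1 ≤ k ∧ k ≤ n / 2 ∧ R ^ k / (2 * n) ≤ ‖∑ i, α i ^ k‖ := by
  classical
  have hn0 : 0 < n := i₀.pos
  have hnR : (1 : ℝ) ≤ n := by exact_mod_cast hn0
  have hR2 : 2 ≤ R := by nlinarith
  obtain ⟨i₁, -, hmax⟩ := Finset.exists_max_image univ (fun i => ‖α i‖) ⟨i₀, mem_univ _⟩
  set R₁ := ‖α i₁‖ with hR₁
  have hRR : R ≤ R₁ := hi₀.trans (hmax i₀ (mem_univ _))
  set A : Finset (Fin n) := univ.filter fun i => 1 < ‖α i‖ with hA
  have hi₁A : i₁ ∈ A := by
    rw [hA, mem_filter]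
    exact ⟨mem_univ _, by show 1 < R₁; linarith⟩
  have hdisj : Disjoint A (A.map σ.toEmbedding) := by
    rw [Finset.disjoint_left]
    intro i hi hi'
    rw [Finset.mem_map] at hi'
    obtain ⟨j, hj, rfl⟩ := hi'
    rw [hA, mem_filter] at hi hj
    have h1 := hi.2
    have h2 := hj.2
    have h3 : ‖α (σ j)‖ = ‖α j‖⁻¹ := hσ j
    have h4 : 1 < ‖α (σ j)‖ := h1
    rw [h3] at h4
    have h5 : ‖α j‖⁻¹ < 1 := inv_lt_one_of_one_lt₀ h2
    linarith
  have hcardA : 2 * A.card ≤ n := by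
    have h1 := card_le_univ (A ∪ A.map σ.toEmbedding)
    rw [card_union_of_disjoint hdisj, card_map, Fintype.card_fin] at h1
    omega
  obtain ⟨k, hk1, hk2, hk3⟩ := power_sum (fun i : A => α i) (R := R₁) (by linarith)
    ⟨i₁, hi₁A⟩ rfl
  rw [Fintype.card_coe] at hk2 hk3
  refine ⟨k, hk1, by omega, ?_⟩
  have hsplit : ∑ i, α i ^ k = ∑ i ∈ A, α i ^ k + ∑ i ∈ univ.filter (fun i => ¬ 1 < ‖α i‖), α i ^ k := by
    rw [hA, sum_filter_add_sum_filter_not]
  have hsub : ∑ i : A, α i ^ k = ∑ i ∈ A, α i ^ k := sum_coe_sort A fun i => α i ^ k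
  rw [hsub] at hk3
  have hrest : ‖∑ i ∈ univ.filter (fun i => ¬ 1 < ‖α i‖), α i ^ k‖ ≤ n := by
    calc ‖∑ i ∈ univ.filter (fun i => ¬ 1 < ‖α i‖), α i ^ k‖ ≤ ∑ i ∈ univ.filter (fun i => ¬ 1 < ‖α i‖), (1 : ℝ) := by
          refine norm_sum_le_of_le _ fun i hi => ?_
          rw [mem_filter, not_lt] at hi
          rw [norm_pow]
          exact pow_le_one₀ (norm_nonneg _) hi.2
      _ ≤ n := by
          rw [sum_const, nsmul_eq_mul, mul_one]
          have := card_filter_le (univ : Finset (Fin n)) (fun i => ¬ 1 < ‖α i‖)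
          rw [card_univ, Fintype.card_fin] at this
          exact_mod_cast this
  have hA0 : (0 : ℝ) < A.card := by exact_mod_cast card_pos.2 ⟨i₁, hi₁A⟩
  have hR₁k : R₁ ^ k / n ≤ R₁ ^ k / (2 * A.card) := by
    refine div_le_div_of_nonneg_left (by positivity) (by positivity) ?_
    exact_mod_cast hcardA
  have hbig : 2 * (n : ℝ) ^ 2 ≤ R₁ ^ k := by
    calc 2 * (n : ℝ) ^ 2 ≤ R₁ := hR.trans hRR
      _ = R₁ ^ 1 := (pow_one _).symm
      _ ≤ R₁ ^ k := pow_le_pow_right₀ (by linarith) hk1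
  have h1 : ‖∑ i ∈ A, α i ^ k‖ - n ≤ ‖∑ i, α i ^ k‖ := by
    rw [hsplit]
    have := norm_sub_le (∑ i ∈ A, α i ^ k + ∑ i ∈ univ.filter (fun i => ¬ 1 < ‖α i‖), α i ^ k)
      (∑ i ∈ univ.filter (fun i => ¬ 1 < ‖α i‖), α i ^ k)
    rw [add_sub_cancel_right] at this
    linarith
  have h2 : R₁ ^ k / n - n ≤ ‖∑ i, α i ^ k‖ := by linarith
  have h3 : R₁ ^ k / (2 * n) ≤ R₁ ^ k / n - n := by
    rw [div_sub' (by positivity), div_le_div_iff₀ (by positivity) (by positivity)]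
    nlinarith
  have h4 : R ^ k / (2 * n) ≤ R₁ ^ k / (2 * n) := by gcongr
  linarith

/-- the norm of a place -/
noncomputable def nm {K : Type} [Field K] [NumberField K] (v : HeightOneSpectrum (𝓞 K)) : ℝ :=
  (Ideal.absNorm v.asIdeal : ℝ)

lemma two_le_nm {K : Type} [Field K] [NumberField K] (v : HeightOneSpectrum (𝓞 K)) : 2 ≤ nm v := by
  have h1 : Ideal.absNorm v.asIdeal ≠ 0 := by
    rw [Ne, Ideal.absNorm_eq_zero_iff]
    exact v.ne_bot
  have h2 : Ideal.absNorm v.asIdeal ≠ 1 := by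
    rw [Ne, Ideal.absNorm_eq_one_iff]
    exact v.isPrime.ne_top
  have h3 : 2 ≤ Ideal.absNorm v.asIdeal := by omega
  unfold nm
  exact_mod_cast h3

lemma finite_nm {K : Type} [Field K] [NumberField K] (X : ℝ) : {v : HeightOneSpectrum (𝓞 K) | nm v ≤ X}.Finite := by
  have h1 := Ideal.finite_setOfPred_absNorm_le (S := 𝓞 K) ⌊X⌋₊
  refine Set.Finite.of_finite_image (f := fun v : HeightOneSpectrum (𝓞 K) => v.asIdeal) (h1.subset ?_) ?_
  · rintro _ ⟨v, hv, rfl⟩
    exact Nat.le_floor hv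
  · intro v _ w _ h
    exact HeightOneSpectrum.ext h

/-- the number of places with a large parameter -/
theorem count {K : Type} [Field K] [NumberField K] {n : ℕ} (B : Finset (HeightOneSpectrum (𝓞 K)))
    (α : HeightOneSpectrum (𝓞 K) → Fin n → ℂ)
    (hu : ∀ v ∉ B, ∃ σ : Equiv.Perm (Fin n), ∀ i, ‖α v (σ i)‖ = ‖α v i‖⁻¹)
    (hrs : ∀ s : ℝ, 1 < s → Summable fun p : {v // v ∉ B} × ℕ =>
      ‖∑ i, α p.1 i ^ (p.2 + 1)‖ ^ 2 / (p.2 + 1) * nm p.1.1 ^ (-(s * (p.2 + 1))))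
    {κ : ℝ} (hκ : 0 < κ) (hκ2 : κ ≤ 1 / 2) (ε : ℝ) (hε : 0 < ε) :
    ∃ C : ℝ, ∀ X : ℝ, 1 ≤ X →
      {v | v ∈ {v | v ∉ B ∧ ∃ i, nm v ^ κ ≤ ‖α v i‖} ∧ nm v ≤ X}.Finite ∧
      ({v | v ∈ {v | v ∉ B ∧ ∃ i, nm v ^ κ ≤ ‖α v i‖} ∧ nm v ≤ X}.ncard : ℝ) ≤
        C * X ^ (((n / 2 : ℕ) : ℝ) * (1 - 2 * κ) + ε) := by
  classical
  set m₀ := n / 2 with hm₀
  set s : ℝ := 1 + ε / (m₀ + 1) with hs
  have hε' : 0 < ε / ((m₀ : ℝ) + 1) := by positivity
  have hs1 : 1 < s := by linarith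
  set Φ : {v // v ∉ B} × ℕ → ℝ := fun p =>
    ‖∑ i, α p.1 i ^ (p.2 + 1)‖ ^ 2 / (p.2 + 1) * nm p.1.1 ^ (-(s * (p.2 + 1))) with hΦ
  have hΦs : Summable Φ := hrs s hs1
  have hΦ0 : ∀ p, 0 ≤ Φ p := fun p => by
    have := two_le_nm p.1.1
    positivity
  set S₀ : ℝ := ∑' p, Φ p with hS₀
  have hS₀0 : 0 ≤ S₀ := tsum_nonneg hΦ0
  -- places of small norm
  set F₀ : Set (HeightOneSpectrum (𝓞 K)) := {v | nm v ^ κ < 2 * (n : ℝ) ^ 2} with hF₀
  have hF₀fin : F₀.Finite := by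
    refine (finite_nm ((2 * (n : ℝ) ^ 2) ^ (1 / κ))).subset ?_
    intro v hv
    have h0 : 0 ≤ nm v := by have := two_le_nm v; linarith
    have h1 : (nm v ^ κ) ^ (1 / κ) ≤ (2 * (n : ℝ) ^ 2) ^ (1 / κ) :=
      Real.rpow_le_rpow (by positivity) (le_of_lt hv) (by positivity)
    rw [← Real.rpow_mul h0, mul_one_div_cancel hκ.ne', Real.rpow_one] at h1
    exact h1
  set e : ℝ := (m₀ : ℝ) * (1 - 2 * κ) + ε with he
  have he0 : 0 ≤ e := by
    have : 0 ≤ (m₀ : ℝ) * (1 - 2 * κ) := mul_nonneg (Nat.cast_nonneg _) (by linarith)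
    linarith
  -- places with a large power sum
  have hk : ∀ k : ℕ, k < m₀ → ∀ X : ℝ, 1 ≤ X →
      ({v : HeightOneSpectrum (𝓞 K) | v ∉ B ∧ nm v ≤ X ∧
        (nm v ^ κ) ^ (k + 1) / (2 * n) ≤ ‖∑ i, α v i ^ (k + 1)‖}.ncard : ℝ) ≤
        4 * n ^ 2 * m₀ * S₀ * X ^ e := by
    intro k hkm X hX
    have hX0 : 0 < X := by linarith
    have hn0 : 0 < n := by omega
    have hnR : (0 : ℝ) < n := by exact_mod_cast hn0
    have hm₀R : (0 : ℝ) < m₀ := by
      have : 0 < m₀ := by omega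
      exact_mod_cast this
    set G : Set (HeightOneSpectrum (𝓞 K)) := {v | v ∉ B ∧ nm v ≤ X ∧
        (nm v ^ κ) ^ (k + 1) / (2 * n) ≤ ‖∑ i, α v i ^ (k + 1)‖} with hG
    have hGfin : G.Finite := (finite_nm X).subset fun v hv => hv.2.1
    set q : ℝ := ((k : ℝ) + 1) * (s - 2 * κ) with hq
    have hq0 : 0 < q := mul_pos (by positivity) (by linarith)
    -- the sum over `G`
    set G' : Finset ({v // v ∉ B} × ℕ) :=
      (hGfin.toFinset.subtype fun v => v ∉ B).map ⟨fun v => (v, k), fun a b h => (Prod.mk.inj h).1⟩ with hG'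
    have hcard : G'.card = G.ncard := by
      rw [hG', card_map, Finset.card_subtype, Set.ncard_eq_toFinset_card _ hGfin]
      congr 1
      rw [Finset.filter_eq_self]
      intro v hv
      rw [Set.Finite.mem_toFinset] at hv
      exact hv.1
    have hterm : ∀ p ∈ G', X ^ (-q) / (4 * n ^ 2 * m₀) ≤ Φ p := by
      intro p hp
      rw [hG', Finset.mem_map] at hp
      obtain ⟨v, hv, rfl⟩ := hp
      rw [Finset.mem_subtype, Set.Finite.mem_toFinset] at hv
      obtain ⟨g1, g2, g3⟩ := hv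
      have hN := two_le_nm v.1
      have hN0 : 0 < nm v.1 := by linarith
      have hN1 : 1 ≤ nm v.1 := by linarith
      show X ^ (-q) / (4 * n ^ 2 * m₀) ≤
        ‖∑ i, α v.1 i ^ (k + 1)‖ ^ 2 / ((k : ℝ) + 1) * nm v.1 ^ (-(s * ((k : ℝ) + 1)))
      have h1 : ((nm v.1 ^ κ) ^ (k + 1) / (2 * n)) ^ 2 ≤ ‖∑ i, α v.1 i ^ (k + 1)‖ ^ 2 :=
        pow_le_pow_left₀ (by positivity) g3 2
      have h2 : ((nm v.1 ^ κ) ^ (k + 1) / (2 * n)) ^ 2 = nm v.1 ^ (2 * κ * ((k : ℝ) + 1)) / (4 * n ^ 2) := by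
        rw [div_pow, ← pow_mul, ← Real.rpow_natCast (nm v.1 ^ κ), ← Real.rpow_mul hN0.le]
        congr 1
        · congr 1
          push_cast
          ring
        · ring
      have h3 : X ^ (-q) ≤ nm v.1 ^ (-q) := by
        rw [Real.rpow_neg hX0.le, Real.rpow_neg hN0.le]
        exact inv_anti₀ (by positivity) (Real.rpow_le_rpow hN0.le g2 hq0.le)
      have h4 : nm v.1 ^ (-q) = nm v.1 ^ (2 * κ * ((k : ℝ) + 1)) * nm v.1 ^ (-(s * ((k : ℝ) + 1))) := by
        rw [← Real.rpow_add hN0]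
        congr 1
        rw [hq]
        ring
      have hk1 : (k : ℝ) + 1 ≤ m₀ := by exact_mod_cast hkm
      calc X ^ (-q) / (4 * n ^ 2 * m₀) ≤ nm v.1 ^ (-q) / (4 * n ^ 2 * m₀) := by gcongr
        _ ≤ nm v.1 ^ (-q) / (4 * n ^ 2 * ((k : ℝ) + 1)) := by gcongr
        _ = (nm v.1 ^ (2 * κ * ((k : ℝ) + 1)) / (4 * n ^ 2)) / ((k : ℝ) + 1) *
              nm v.1 ^ (-(s * ((k : ℝ) + 1))) := by
            rw [h4]
            field_simp
        _ ≤ ‖∑ i, α v.1 i ^ (k + 1)‖ ^ 2 / ((k : ℝ) + 1) * nm v.1 ^ (-(s * ((k : ℝ) + 1))) := by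
            rw [← h2]
            gcongr
    have hsum : (G'.card : ℝ) * (X ^ (-q) / (4 * n ^ 2 * m₀)) ≤ S₀ := by
      calc (G'.card : ℝ) * (X ^ (-q) / (4 * n ^ 2 * m₀)) = ∑ _p ∈ G', X ^ (-q) / (4 * n ^ 2 * m₀) := by
            rw [sum_const, nsmul_eq_mul]
        _ ≤ ∑ p ∈ G', Φ p := sum_le_sum hterm
        _ ≤ S₀ := hΦs.sum_le_tsum _ fun p _ => hΦ0 p
    rw [hcard] at hsum
    have hXq : 0 < X ^ (-q) := by positivity
    have h5 : (G.ncard : ℝ) ≤ 4 * n ^ 2 * m₀ * S₀ * X ^ q := by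
      have h6 : X ^ q * X ^ (-q) = 1 := by
        rw [← Real.rpow_add hX0, add_neg_cancel, Real.rpow_zero]
      have h7 : (G.ncard : ℝ) * X ^ (-q) ≤ 4 * n ^ 2 * m₀ * S₀ := by
        have h8 := mul_le_mul_of_nonneg_right hsum (show (0 : ℝ) ≤ 4 * n ^ 2 * m₀ by positivity)
        have h9 : (G.ncard : ℝ) * (X ^ (-q) / (4 * n ^ 2 * m₀)) * (4 * n ^ 2 * m₀) = G.ncard * X ^ (-q) := by
          field_simp
        rw [h9] at h8
        linarith
      calc (G.ncard : ℝ) = (G.ncard : ℝ) * X ^ (-q) * X ^ q := by rw [mul_assoc, mul_comm (X ^ (-q)), h6, mul_one]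
        _ ≤ 4 * n ^ 2 * m₀ * S₀ * X ^ q := mul_le_mul_of_nonneg_right h7 (by positivity)
    refine h5.trans (mul_le_mul_of_nonneg_left ?_ (by positivity))
    refine Real.rpow_le_rpow_of_exponent_le hX ?_
    have hk1 : (k : ℝ) + 1 ≤ m₀ := by exact_mod_cast hkm
    calc q ≤ m₀ * (s - 2 * κ) := mul_le_mul_of_nonneg_right hk1 (by linarith)
      _ = m₀ * (1 - 2 * κ) + ε * (m₀ / (m₀ + 1)) := by rw [hs]; field_simp; ring
      _ ≤ m₀ * (1 - 2 * κ) + ε * 1 := by
          have : (m₀ : ℝ) / (m₀ + 1) ≤ 1 := by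
            rw [div_le_one (by positivity)]
            linarith
          have := mul_le_mul_of_nonneg_left this hε.le
          linarith
      _ = e := by rw [he]; ring
  refine ⟨F₀.ncard + m₀ * (4 * n ^ 2 * m₀ * S₀), fun X hX => ?_⟩
  have hXe : 1 ≤ X ^ e := Real.one_le_rpow hX he0
  refine ⟨(finite_nm X).subset fun v hv => hv.2, ?_⟩
  set G : ℕ → Set (HeightOneSpectrum (𝓞 K)) := fun k => {v | v ∉ B ∧ nm v ≤ X ∧
    (nm v ^ κ) ^ (k + 1) / (2 * n) ≤ ‖∑ i, α v i ^ (k + 1)‖} with hG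
  have hGfin : ∀ k, (G k).Finite := fun k => (finite_nm X).subset fun v hv => hv.2.1
  have hsub : {v | v ∈ {v | v ∉ B ∧ ∃ i, nm v ^ κ ≤ ‖α v i‖} ∧ nm v ≤ X} ⊆ F₀ ∪ ⋃ k ∈ range m₀, G k := by
    rintro v ⟨⟨g1, i, g2⟩, g3⟩
    by_cases hv : nm v ^ κ < 2 * (n : ℝ) ^ 2
    · exact Or.inl hv
    · right
      rw [not_lt] at hv
      obtain ⟨σ, hσ⟩ := hu v g1
      obtain ⟨k, h1, h2, h3⟩ := local_large (α v) σ hσ hv i g2
      rw [Set.mem_iUnion₂]
      refine ⟨k - 1, mem_range.2 (by omega), g1, g3, ?_⟩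
      have h4 : k - 1 + 1 = k := by omega
      rw [h4]
      exact h3
  have hUfin : (⋃ k ∈ range m₀, G k).Finite := Set.Finite.biUnion (Finset.finite_toSet _) fun k _ => hGfin k
  calc (({v | v ∈ {v | v ∉ B ∧ ∃ i, nm v ^ κ ≤ ‖α v i‖} ∧ nm v ≤ X}.ncard : ℕ) : ℝ)
      ≤ ((F₀ ∪ ⋃ k ∈ range m₀, G k).ncard : ℝ) := by
        exact_mod_cast Set.ncard_le_ncard hsub (hF₀fin.union hUfin)
    _ ≤ (F₀.ncard : ℝ) + ((⋃ k ∈ range m₀, G k).ncard : ℝ) := by exact_mod_cast Set.ncard_union_le _ _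
    _ ≤ (F₀.ncard : ℝ) + ∑ k ∈ range m₀, ((G k).ncard : ℝ) := by
        have := Finset.set_ncard_biUnion_le (range m₀) G
        gcongr
        exact_mod_cast this
    _ ≤ (F₀.ncard : ℝ) + ∑ _k ∈ range m₀, 4 * n ^ 2 * m₀ * S₀ * X ^ e := by
        gcongr with k hk'
        exact hk k (mem_range.1 hk') X hX
    _ = (F₀.ncard : ℝ) + m₀ * (4 * n ^ 2 * m₀ * S₀) * X ^ e := by
        rw [sum_const, nsmul_eq_mul, card_range]
        ring
    _ ≤ (F₀.ncard + m₀ * (4 * n ^ 2 * m₀ * S₀)) * X ^ e := by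
        have : (F₀.ncard : ℝ) * 1 ≤ F₀.ncard * X ^ e := mul_le_mul_of_nonneg_left hXe (Nat.cast_nonneg _)
        linarith

end Pool.Agent.H107.Ram
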