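import Pool.Agent.Y854.GM.Win

set_option autoImplicit false

/-! Windows around the members `α v_n` of a thin sequence all whose REAL points lie outside the unit intervals
`[m, m + 1)` with `m` in a thin set. -/

namespace Pool.Agent.H107.RW

open Pool.Agent.Y854.GM Filter Topology

/-- outside of a set of dimension at most `(s + τ) / (1 - θ)` -/
theorem real_windows (S : Set ℕ) {v : ℕ → ℝ} {s τ θ : ℝ} (hpos : ∀ n, 1 ≤ v n) (hτ : 0 ≤ τ)
    (hv : ExpLe v τ) (hs : 0 ≤ s) (hθ0 : 0 ≤ θ) (hθ1 : θ < 1)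
    (hS : ∀ ε : ℝ, 0 < ε → ∃ C : ℝ, ∀ X : ℝ, 1 ≤ X →
      {t : ℕ | t ∈ S ∧ (t : ℝ) ≤ X}.Finite ∧ ({t : ℕ | t ∈ S ∧ (t : ℝ) ≤ X}.ncard : ℝ) ≤ C * X ^ (s + ε)) :
    ∃ E : Set ℝ, dimH E ≤ ENNReal.ofReal ((s + τ) / (1 - θ)) ∧ ∀ α : ℝ, 0 < α → α ∉ E →
      ∃ n0 : ℕ, ∀ n : ℕ, n0 ≤ n → ∀ y : ℝ, 0 ≤ y → |y - α * v n| ≤ (v n) ^ θ → ⌊y⌋₊ ∉ S := by
  have h1θ : 0 < 1 - θ := by linarith
  -- exponents slightly larger than `θ`
  set θ' : ℕ → ℝ := fun k => θ + (1 - θ) * (1 / ((k : ℝ) + 2)) with hθ'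
  have hk1 : ∀ k : ℕ, 1 / ((k : ℝ) + 2) < 1 := by
    intro k
    rw [div_lt_one (by positivity)]
    have : (0 : ℝ) ≤ k := Nat.cast_nonneg k
    linarith
  have hθ'1 : ∀ k, θ' k < 1 := by
    intro k
    have h2 := mul_lt_mul_of_pos_left (hk1 k) h1θ
    have h3 : θ' k = θ + (1 - θ) * (1 / ((k : ℝ) + 2)) := rfl
    linarith
  have hθ'0 : ∀ k, θ < θ' k := by
    intro k
    have h2 : 0 < (1 - θ) * (1 / ((k : ℝ) + 2)) := by positivity
    have h3 : θ' k = θ + (1 - θ) * (1 / ((k : ℝ) + 2)) := rfl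
    linarith
  have hall := fun k : ℕ => windows (T := ℕ) S (fun t => (t : ℝ)) hpos hτ hv hs (hθ'1 k) hS
  choose E hE1 hE2 using hall
  refine ⟨⋂ k, E k, ?_, fun α hα hαE => ?_⟩
  · have h1 : ∀ k : ℕ, dimH (⋂ k, E k) ≤ ENNReal.ofReal ((s + τ) / (1 - θ' k)) := fun k =>
      (dimH_mono (Set.iInter_subset _ k)).trans (hE1 k)
    have h2 : Tendsto (fun k : ℕ => ENNReal.ofReal ((s + τ) / (1 - θ' k))) atTop
        (𝓝 (ENNReal.ofReal ((s + τ) / (1 - (θ + (1 - θ) * 0))))) := by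
      apply ENNReal.tendsto_ofReal
      have h3 : Tendsto (fun k : ℕ => 1 / ((k : ℝ) + 2)) atTop (𝓝 0) := by
        have h4 := (tendsto_one_div_add_atTop_nhds_zero_nat (𝕜 := ℝ)).comp (tendsto_add_atTop_nat 1)
        refine h4.congr (fun k => ?_)
        simp only [Function.comp_apply]
        push_cast
        ring
      refine Tendsto.div tendsto_const_nhds (tendsto_const_nhds.sub ((h3.const_mul (1 - θ)).const_add θ)) ?_
      rw [mul_zero, add_zero]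
      exact h1θ.ne'
    rw [mul_zero, add_zero] at h2
    exact ge_of_tendsto' h2 h1
  · rw [Set.mem_iInter, not_forall] at hαE
    obtain ⟨k, hk⟩ := hαE
    obtain ⟨n1, hn1⟩ := hE2 k α hα hk
    -- `v ^ θ + 1 ≤ v ^ θ'` for large `v`
    have htv : Tendsto v atTop atTop :=
      tendsto_of_expLe (fun n => lt_of_lt_of_le one_pos (hpos n)) hτ hv
    have hbig : ∀ᶠ n in atTop, (v n) ^ θ + 1 ≤ (v n) ^ (θ' k) := by
      have h4 : Tendsto (fun n => (v n) ^ (θ' k - θ)) atTop atTop :=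
        (tendsto_rpow_atTop (by linarith [hθ'0 k])).comp htv
      filter_upwards [h4.eventually_ge_atTop 2] with n hn
      have hvp : 0 < v n := lt_of_lt_of_le one_pos (hpos n)
      have h5 : (v n) ^ (θ' k) = (v n) ^ θ * (v n) ^ (θ' k - θ) := by
        rw [← Real.rpow_add hvp]
        congr 1
        ring
      have h6 : 1 ≤ (v n) ^ θ := Real.one_le_rpow (hpos n) hθ0
      rw [h5]
      nlinarith
    obtain ⟨n2, hn2⟩ := hbig.exists_forall_of_atTop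
    refine ⟨max n1 n2, fun n hn y hy hw hmem => ?_⟩
    have h7 := hn1 n ((le_max_left _ _).trans hn) ⌊y⌋₊ hmem
    have h8 := hn2 n ((le_max_right _ _).trans hn)
    have h9 : |((⌊y⌋₊ : ℕ) : ℝ) - y| ≤ 1 := by
      rw [abs_le]
      constructor
      · linarith [Nat.lt_floor_add_one y]
      · linarith [Nat.floor_le hy]
    have h10 : |((⌊y⌋₊ : ℕ) : ℝ) - α * v n| ≤ |((⌊y⌋₊ : ℕ) : ℝ) - y| + |y - α * v n| :=
      abs_sub_le _ _ _
    linarith

end Pool.Agent.H107.RW
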