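import Pool.Agent.Helper264.NT.NearK

set_option autoImplicit false

/-! Exceptional sets which depend on the scale `X`: near points. -/

namespace Pool.Agent.H107.SZ

open Pool.Agent.Helper264.NT

/-- sets `L i K m X` of exceptions at the scale `X`, with at most `X ^ ε` images for suitable parameters `K`, `m` -/
theorem seq_zero {P M ι : Type*} [MetricSpace M] [Countable ι] (φ : P → M) (L : ι → ℕ → ℕ → ℕ → Set P)
    (hL : ∀ i, ∀ ε : ℝ, 0 < ε → ∃ K m : ℕ, ∀ X : ℕ, 2 ≤ X → ∃ S : Finset M, (S.card : ℝ) ≤ (X : ℝ) ^ ε ∧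
      ∀ p ∈ L i K m X, φ p ∈ S)
    (hmono : ∀ i K m X Y, 2 ≤ X → X ≤ Y → Y ≤ 2 * X → L i (2 * K) m X ⊆ L i K m Y) :
    ∃ E : Set M, dimH E = 0 ∧ ∀ z ∉ E, ∀ i, ∀ w : ℝ, 0 < w → ∃ K m X₀ : ℕ, ∀ X : ℕ, X₀ ≤ X → ∀ p ∈ L i K m X,
      (X : ℝ) ^ (-w) < dist (φ p) z := by
  classical
  have key : ∀ (i : ι) (l : ℕ), ∃ K m : ℕ, ∃ U : ℕ → Finset M, (∀ k, ((U k).card : ℝ) ≤ 1 * ((2 : ℝ) ^ k) ^ (1 / ((l : ℝ) + 1))) ∧
      ∀ k, 1 ≤ k → ∀ p ∈ L i K m (2 ^ k), φ p ∈ U k := by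
    intro i l
    obtain ⟨K, m, h⟩ := hL i (1 / ((l : ℝ) + 1)) (by positivity)
    have h2 : ∀ k : ℕ, 1 ≤ k → 2 ≤ 2 ^ k := fun k hk => by
      calc 2 = 2 ^ 1 := rfl
        _ ≤ 2 ^ k := Nat.pow_le_pow_right (by norm_num) hk
    choose! S hS1 hS2 using h
    refine ⟨K, m, fun k => if 1 ≤ k then S (2 ^ k) else ∅, fun k => ?_, fun k hk p hp => ?_⟩
    · by_cases hk : 1 ≤ k
      · simp only [hk, if_true, one_mul]
        have := hS1 (2 ^ k) (h2 k hk)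
        push_cast at this
        exact this
      · simp only [hk, if_false, Finset.card_empty, Nat.cast_zero, one_mul]
        positivity
    · simp only [hk, if_true]
      exact hS2 (2 ^ k) (h2 k hk) p hp
  choose K m U hU1 hU2 using key
  have hdy : ∀ (i : ι) (l j : ℕ), ∃ E : Set M, dimH E ≤ ENNReal.ofReal ((1 / ((l : ℝ) + 1)) / (1 / ((j : ℝ) + 1))) ∧
      ∀ z ∉ E, ∃ i0 : ℕ, ∀ k ≥ i0, ∀ x ∈ U i l k, ¬ dist x z ≤ ((2 : ℝ) ^ k) ^ (-(1 / ((j : ℝ) + 1))) :=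
    fun i l j => dyadicM (by positivity) (by positivity) (U i l) (hU1 i l)
  choose E hE1 hE2 using hdy
  refine ⟨⋃ i, ⋃ j, ⋂ l, E i l j, ?_, fun z hz i w hw => ?_⟩
  · rw [dimH_iUnion]
    refine le_antisymm (iSup_le fun i => ?_) bot_le
    rw [dimH_iUnion]
    refine iSup_le fun j => ?_
    refine ENNReal.le_of_forall_pos_le_add fun η hη _ => ?_
    rw [zero_add]
    have hη' : (0 : ℝ) < η := by exact_mod_cast hη
    have hj : (0 : ℝ) < 1 / ((j : ℝ) + 1) := by positivity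
    obtain ⟨l, hl⟩ := exists_nat_one_div_lt (show 0 < (η : ℝ) * (1 / ((j : ℝ) + 1)) by positivity)
    refine (dimH_mono (Set.iInter_subset _ l)).trans ((hE1 i l j).trans ?_)
    rw [← ENNReal.ofReal_coe_nnreal]
    refine ENNReal.ofReal_le_ofReal ?_
    rw [div_le_iff₀ hj]
    exact hl.le
  · obtain ⟨j, hj⟩ := exists_nat_one_div_lt hw
    have h2 : z ∉ ⋂ l, E i l j := fun h => hz (Set.mem_iUnion.2 ⟨i, Set.mem_iUnion.2 ⟨j, h⟩⟩)
    rw [Set.mem_iInter, not_forall] at h2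
    obtain ⟨l, hl⟩ := h2
    obtain ⟨i0, hi0⟩ := hE2 i l j z hl
    set σ : ℝ := 1 / ((j : ℝ) + 1) with hσ
    have hσ0 : 0 < σ := by positivity
    obtain ⟨Y, hY⟩ := exists_nat_gt ((2 : ℝ) ^ (σ / (w - σ)))
    refine ⟨2 * K i l, m i l, max (max 2 (2 ^ i0)) Y, fun X hX p hp => ?_⟩
    have hX2 : 2 ≤ X := le_trans (le_trans (le_max_left _ _) (le_max_left _ _)) hX
    have hXi : 2 ^ i0 ≤ X := le_trans (le_trans (le_max_right _ _) (le_max_left _ _)) hX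
    have hXY : Y ≤ X := le_trans (le_max_right _ _) hX
    set k := Nat.log 2 X with hk
    have hk1 : 2 ^ k ≤ X := Nat.pow_log_le_self 2 (by omega)
    have hk2 : X < 2 ^ (k + 1) := Nat.lt_pow_succ_log_self (by norm_num) X
    have hkk : X ≤ 2 ^ (k + 1) := hk2.le
    have hk3 : 2 ^ (k + 1) ≤ 2 * X := by rw [pow_succ]; omega
    have hki : i0 ≤ k + 1 := by
      by_contra hcon
      have : 2 ^ (k + 1) ≤ 2 ^ i0 := Nat.pow_le_pow_right (by norm_num) (by omega)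
      omega
    have hpm := hU2 i l (k + 1) (by omega) p (hmono i (K i l) (m i l) X (2 ^ (k + 1)) hX2 hkk hk3 hp)
    have h3 := not_le.1 (hi0 (k + 1) hki (φ p) hpm)
    refine lt_of_le_of_lt ?_ h3
    have hX0 : (0 : ℝ) < X := by exact_mod_cast (by omega : 0 < X)
    have h4 : (2 * (X : ℝ)) ^ (-σ) ≤ ((2 : ℝ) ^ (k + 1)) ^ (-σ) := by
      rw [Real.rpow_neg (by positivity), Real.rpow_neg (by positivity)]
      refine inv_anti₀ (by positivity) (Real.rpow_le_rpow (by positivity) ?_ hσ0.le)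
      exact_mod_cast hk3
    refine le_trans ?_ h4
    have hwσ : 0 < w - σ := by linarith
    have h5 : (2 : ℝ) ^ σ ≤ (X : ℝ) ^ (w - σ) := by
      have h6 : ((2 : ℝ) ^ (σ / (w - σ))) ^ (w - σ) ≤ (X : ℝ) ^ (w - σ) := by
        refine Real.rpow_le_rpow (by positivity) ?_ hwσ.le
        have : (Y : ℝ) ≤ X := by exact_mod_cast hXY
        linarith
      rwa [← Real.rpow_mul (by norm_num), div_mul_cancel₀ _ hwσ.ne'] at h6
    rw [Real.mul_rpow (by norm_num) hX0.le, Real.rpow_neg (by norm_num : (0 : ℝ) ≤ 2), Real.rpow_neg hX0.le,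
      Real.rpow_neg hX0.le]
    have h7 : (X : ℝ) ^ w = (X : ℝ) ^ (w - σ) * (X : ℝ) ^ σ := by
      rw [← Real.rpow_add hX0]
      congr 1
      ring
    rw [h7, mul_inv]
    refine mul_le_mul_of_nonneg_right ?_ (by positivity)
    exact inv_anti₀ (by positivity) h5

end Pool.Agent.H107.SZ
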