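import Pool.Agent.TH915.HC.Fin

set_option autoImplicit false

/-! Bounded slowly decreasing sequences with linear modulus: quantitative forms, and the
corresponding statements for slowly increasing sequences. -/

open Filter Topology

namespace Pool.Agent.H107.SlowGen

open Pool.Agent.H160R3.Herm Pool.Agent.TH915.HC

variable {u : ℕ → ℝ} {η : ℝ → ℝ} {C a b : ℝ}

/-- linear modulus: constructor -/
theorem mk (hC : 0 ≤ C) (ha : ∀ n, a ≤ u n) (hb : ∀ n, u n ≤ b)
    (h : ∀ n m : ℕ, 0 < n → n ≤ m → u n - u m ≤ C * (1 - n / m)) :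
    SlowDec u (fun θ => C * θ) a b where
  lower := ha
  upper := hb
  small ε hε := by
    refine ⟨ε / (C + 1), by positivity, fun θ h0 h1 => ?_⟩
    rw [lt_div_iff₀ (by positivity)] at h1
    nlinarith
  step := h

lemma osc_nonneg (h : SlowDec u η a b) : liminf u atTop ≤ limsup u atTop :=
  liminf_le_limsup (h.bddU _) (h.bddL _)

/-- `(limsup u - liminf u)² ≤ 16 C (limsup means - liminf means)` -/
theorem sq_osc (h : SlowDec u (fun θ => C * θ) a b) (hC : 0 < C) (hab : b - a < 4 * C) :
    (limsup u atTop - liminf u atTop) ^ 2 ≤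
      16 * C * (limsup (mean u) atTop - liminf (mean u) atTop) := by
  set D := limsup u atTop - liminf u atTop with hD
  have h0 : liminf (mean u) atTop ≤ limsup (mean u) atTop := liminf_le_limsup (bddU h) (bddL h)
  have h1 : liminf u atTop ≤ limsup u atTop := osc_nonneg h
  have h2 : limsup u atTop ≤ b := limsup_le_of_le (h.bddL _).isCoboundedUnder_le
    (Eventually.of_forall h.upper)
  have h3 : a ≤ liminf u atTop := le_liminf_of_le (h.bddU _).isCoboundedUnder_ge
    (Eventually.of_forall h.lower)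
  rcases eq_or_lt_of_le (show 0 ≤ D by linarith) with hD0 | hD0
  · rw [← hD0]
    have : 0 ≤ 16 * C * (limsup (mean u) atTop - liminf (mean u) atTop) :=
      mul_nonneg (by positivity) (by linarith)
    simpa using this
  · have hδ0 : 0 < D / (4 * C) := by positivity
    have hδ1 : D / (4 * C) < 1 := by
      rw [div_lt_one (by positivity)]; linarith
    have h4 := osc_mean h hδ0 hδ1 (E := C * (D / (4 * C))) (fun θ _ h1 => by gcongr)
    have e1 : C * (D / (4 * C)) = D / 4 := by field_simp
    rw [e1] at h4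
    have h5 : (2 - D / (4 * C)) * (limsup (mean u) atTop - liminf (mean u) atTop) ≤
        2 * (limsup (mean u) atTop - liminf (mean u) atTop) := by
      apply mul_le_mul_of_nonneg_right _ (by linarith)
      linarith
    have h6 : D / (4 * C) * (D - 2 * (D / 4)) = D ^ 2 / (8 * C) := by
      field_simp; ring
    have h7 : D ^ 2 / (8 * C) ≤ 2 * (limsup (mean u) atTop - liminf (mean u) atTop) := by
      rw [← h6]; exact h4.trans h5
    rw [div_le_iff₀ (by positivity)] at h7
    linarith

/-- visits: positive upper density `ε / (8 C)` -/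
theorem visits_dens (h : SlowDec u (fun θ => C * θ) a b) (hC : 0 < C) {ε x : ℝ} (hε : 0 < ε)
    (hε' : ε ≤ 2 * C) (hx1 : liminf u atTop ≤ x) (hx2 : x ≤ limsup u atTop) :
    ∃ᶠ N : ℕ in atTop, ε / (8 * C) * (N : ℝ) ≤
      ({n : ℕ | n ∈ Finset.Icc 1 N ∧ |u n - x| < ε}.ncard : ℝ) := by
  have h1 : 0 < ε / (4 * C) := by positivity
  have h2 : ε / (4 * C) ≤ 1 / 2 := by
    rw [div_le_div_iff₀ (by positivity) (by norm_num)]; linarith
  have h3 := density h h1 h2 hε (fun θ _ hθ => by
    calc C * θ ≤ C * (ε / (4 * C)) := by gcongr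
      _ = ε / 4 := by field_simp) hx1 hx2
  refine h3.mono fun N hN => ?_
  have e : ε / (4 * C) / 2 = ε / (8 * C) := by field_simp; ring
  rw [e] at hN
  exact hN

/-! ### slowly increasing sequences: `w` with `c - w` slowly decreasing -/

section inc

variable {w : ℕ → ℝ} {c : ℝ}

lemma mean_const_sub {N : ℕ} (hN : 0 < N) : mean (fun n => c - w n) N = c - mean w N := by
  have : (N : ℝ) ≠ 0 := by positivity
  unfold mean
  rw [Finset.sum_sub_distrib]
  simp
  field_simp

lemma w_bddU (h : SlowDec (fun n => c - w n) η a b) (f : Filter ℕ) :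
    IsBoundedUnder (· ≤ ·) f w := isBoundedUnder_of ⟨c - a, fun n => by linarith [h.lower n]⟩

lemma w_bddL (h : SlowDec (fun n => c - w n) η a b) (f : Filter ℕ) :
    IsBoundedUnder (· ≥ ·) f w := isBoundedUnder_of ⟨c - b, fun n => by linarith [h.upper n]⟩

lemma w_limsup (h : SlowDec (fun n => c - w n) η a b) :
    limsup (fun n => c - w n) atTop = c - liminf w atTop :=
  limsup_const_sub _ _ _ (w_bddU h _).isCoboundedUnder_ge (w_bddL h _)

lemma w_liminf (h : SlowDec (fun n => c - w n) η a b) :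
    liminf (fun n => c - w n) atTop = c - limsup w atTop :=
  liminf_const_sub _ _ _ (w_bddU h _) (w_bddL h _).isCoboundedUnder_le

lemma mean_ev : mean (fun n => c - w n) =ᶠ[atTop] fun N => c - mean w N :=
  (eventually_gt_atTop 0).mono fun _ hN => mean_const_sub hN

lemma mw_bddU (h : SlowDec (fun n => c - w n) η a b) :
    IsBoundedUnder (· ≤ ·) atTop (mean w) :=
  ⟨c - a, eventually_map.2 ((eventually_gt_atTop 0).mono fun N hN => by
    have := le_mean h hN
    rw [mean_const_sub hN] at this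
    linarith)⟩

lemma mw_bddL (h : SlowDec (fun n => c - w n) η a b) :
    IsBoundedUnder (· ≥ ·) atTop (mean w) :=
  ⟨c - b, eventually_map.2 ((eventually_gt_atTop 0).mono fun N hN => by
    have := mean_le h hN
    rw [mean_const_sub hN] at this
    simp only [ge_iff_le]
    linarith)⟩

lemma mw_limsup (h : SlowDec (fun n => c - w n) η a b) :
    limsup (mean fun n => c - w n) atTop = c - liminf (mean w) atTop := by
  rw [limsup_congr mean_ev]
  exact limsup_const_sub _ _ _ (mw_bddU h).isCoboundedUnder_ge (mw_bddL h)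

lemma mw_liminf (h : SlowDec (fun n => c - w n) η a b) :
    liminf (mean fun n => c - w n) atTop = c - limsup (mean w) atTop := by
  rw [liminf_congr mean_ev]
  exact liminf_const_sub _ _ _ (mw_bddU h) (mw_bddL h).isCoboundedUnder_le

theorem inc_tendsto (h : SlowDec (fun n => c - w n) η a b) {L : ℝ} :
    Tendsto w atTop (𝓝 L) ↔ Tendsto (mean w) atTop (𝓝 L) := by
  refine ⟨tendsto_mean, fun hm => ?_⟩
  have h1 : Tendsto (mean fun n => c - w n) atTop (𝓝 (c - L)) :=
    (hm.const_sub c).congr' mean_ev.symm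
  have h2 := ((tendsto_iff h).2 h1).const_sub c
  simpa using h2

theorem inc_osc (h : SlowDec (fun n => c - w n) η a b) {δ E : ℝ} (hδ0 : 0 < δ) (hδ1 : δ < 1)
    (hE : ∀ θ, 0 ≤ θ → θ ≤ δ → η θ ≤ E) :
    δ * (limsup w atTop - liminf w atTop - 2 * E) ≤
      (2 - δ) * (limsup (mean w) atTop - liminf (mean w) atTop) := by
  have := osc_mean h hδ0 hδ1 hE
  rw [w_limsup h, w_liminf h, mw_limsup h, mw_liminf h] at this
  linarith

theorem inc_sq_osc (h : SlowDec (fun n => c - w n) (fun θ => C * θ) a b) (hC : 0 < C)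
    (hab : b - a < 4 * C) : (limsup w atTop - liminf w atTop) ^ 2 ≤
      16 * C * (limsup (mean w) atTop - liminf (mean w) atTop) := by
  have := sq_osc h hC hab
  rw [w_limsup h, w_liminf h, mw_limsup h, mw_liminf h] at this
  have e : c - liminf w atTop - (c - limsup w atTop) = limsup w atTop - liminf w atTop := by ring
  rw [e] at this
  linarith

lemma visits_eq {x ε : ℝ} (N : ℕ) : {n : ℕ | n ∈ Finset.Icc 1 N ∧ |(c - w n) - (c - x)| < ε} =
    {n : ℕ | n ∈ Finset.Icc 1 N ∧ |w n - x| < ε} := by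
  ext n
  have : |(c - w n) - (c - x)| = |w n - x| := by
    rw [← abs_neg]; congr 1; ring
  simp only [Set.mem_ofPred_eq, this]

theorem inc_density (h : SlowDec (fun n => c - w n) η a b) {δ ε x : ℝ} (hδ0 : 0 < δ)
    (hδ1 : δ ≤ 1 / 2) (hε : 0 < ε) (hE : ∀ θ, 0 ≤ θ → θ ≤ δ → η θ ≤ ε / 4)
    (hx1 : liminf w atTop ≤ x) (hx2 : x ≤ limsup w atTop) :
    ∃ᶠ N : ℕ in atTop, δ / 2 * (N : ℝ) ≤
      ({n : ℕ | n ∈ Finset.Icc 1 N ∧ |w n - x| < ε}.ncard : ℝ) := by
  have := density h (x := c - x) hδ0 hδ1 hε hE (by rw [w_liminf h]; linarith)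
    (by rw [w_limsup h]; linarith)
  refine this.mono fun N hN => ?_
  unfold visits at hN
  rw [visits_eq] at hN
  exact hN

theorem inc_visits (h : SlowDec (fun n => c - w n) (fun θ => C * θ) a b) (hC : 0 < C) {ε x : ℝ}
    (hε : 0 < ε) (hε' : ε ≤ 2 * C) (hx1 : liminf w atTop ≤ x) (hx2 : x ≤ limsup w atTop) :
    ∃ᶠ N : ℕ in atTop, ε / (8 * C) * (N : ℝ) ≤
      ({n : ℕ | n ∈ Finset.Icc 1 N ∧ |w n - x| < ε}.ncard : ℝ) := by
  have := visits_dens h hC (x := c - x) hε hε' (by rw [w_liminf h]; linarith)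
    (by rw [w_limsup h]; linarith)
  refine this.mono fun N hN => ?_
  rw [visits_eq] at hN
  exact hN

end inc

end Pool.Agent.H107.SlowGen
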