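import Pool.Agent.H818R2.Kiss4
import Pool.Agent.H107.SlowGen

set_option autoImplicit false

/-! The exponents of kissing numbers and of spherical codes decrease slowly. -/

open Filter Topology

namespace Pool.Agent.H107.SlowKiss

open Pool.Agent.H818R2 Pool.Agent.H160R3.Herm

/-- the upper bound `log₂ ((1 + 2 s) / s)`, `s = sin (θ / 2)`, for the exponents -/
noncomputable def K (θ : ℝ) : ℝ := Real.logb 2 ((1 + 2 * Real.sin (θ / 2)) / Real.sin (θ / 2))

lemma K_pos {θ : ℝ} (hs : 0 < Real.sin (θ / 2)) : 0 < K θ := by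
  apply Real.logb_pos (by norm_num)
  rw [lt_div_iff₀ hs]
  linarith

lemma sphMax_mono {θ : ℝ} (hs : 0 < Real.sin (θ / 2)) {n m : ℕ} (hn : 0 < n) (h : n ≤ m) :
    sphMax n θ ≤ sphMax m θ := by
  induction m, h using Nat.le_induction with
  | base => exact le_rfl
  | succ m hm ih =>
    have : NeZero m := ⟨by omega⟩
    exact ih.trans (sphMax_mono_succ hs)

theorem slow {θ : ℝ} (hs : 0 < Real.sin (θ / 2)) :
    SlowDec (codeRate θ) (fun t => K θ * t) 0 (K θ) := by
  have hK := K_pos hs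
  apply Pool.Agent.H107.SlowGen.mk hK.le (codeRate_nonneg θ) (codeRate_le hs)
  intro n m hn hnm
  have hn' : (0 : ℝ) < n := by exact_mod_cast hn
  have hnm' : (n : ℝ) ≤ m := by exact_mod_cast hnm
  have hm' : (0 : ℝ) < m := by linarith
  rcases Nat.eq_zero_or_pos (sphMax n θ) with h0 | h0
  · have e0 : codeRate θ n = 0 := by unfold codeRate; rw [h0]; simp
    have h1 := codeRate_nonneg θ m
    have h2 : 0 ≤ 1 - (n : ℝ) / m := by
      rw [sub_nonneg, div_le_one hm']
      exact hnm'
    have h3 := mul_nonneg hK.le h2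
    rw [e0]
    linarith
  have hR : (0 : ℝ) < sphMax n θ := by exact_mod_cast h0
  have h1 : Real.logb 2 (sphMax n θ) ≤ Real.logb 2 (sphMax m θ) := by
    apply Real.logb_le_logb_of_le (by norm_num) hR
    exact_mod_cast sphMax_mono hs hn hnm
  have h2 : codeRate θ n ≤ K θ := codeRate_le hs n
  have e1 : Real.logb 2 (sphMax n θ) = n * codeRate θ n := by unfold codeRate; field_simp
  have e2 : Real.logb 2 (sphMax m θ) = m * codeRate θ m := by unfold codeRate; field_simp
  rw [e1, e2] at h1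
  have h3 : codeRate θ n - codeRate θ m ≤ K θ * (m - n) / m := by
    rw [le_div_iff₀ hm']
    nlinarith
  have e3 : K θ * (1 - (n : ℝ) / m) = K θ * (m - n) / m := by field_simp
  rw [e3]
  exact h3

lemma sin_pos {θ : ℝ} (h0 : 0 < θ) (h1 : θ < 2 * Real.pi) : 0 < Real.sin (θ / 2) :=
  Real.sin_pos_of_pos_of_lt_pi (by linarith) (by linarith)

lemma K_kiss : K (Real.pi / 3) = 2 := by
  unfold K
  have : Real.pi / 3 / 2 = Real.pi / 6 := by ring
  rw [this, Real.sin_pi_div_six]
  have e : (1 + 2 * (1 / 2 : ℝ)) / (1 / 2) = 2 ^ (2 : ℝ) := by norm_num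
  rw [e, Real.logb_rpow (by norm_num) (by norm_num)]

end Pool.Agent.H107.SlowKiss
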