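import Pool.Agent.H818R2.Ram.Extra
import Pool.Agent.H107.SlowGen

set_option autoImplicit false

/-! The exponents of the diagonal Ramsey numbers decrease slowly. -/

open Filter Topology

namespace Pool.Agent.H107.SlowRam

open Pool.Agent.H818R2.Ram Pool.Agent.H160R3.Herm

theorem slow : SlowDec diagRate (fun θ => Real.log 4 * θ) 0 (Real.log 4) := by
  have hl : 0 < Real.log 4 := Real.log_pos (by norm_num)
  apply Pool.Agent.H107.SlowGen.mk hl.le diagRate_nonneg diagRate_le
  intro n m hn hnm
  have hn' : (0 : ℝ) < n := by exact_mod_cast hn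
  have hnm' : (n : ℝ) ≤ m := by exact_mod_cast hnm
  have hm' : (0 : ℝ) < m := by linarith
  have hR : (0 : ℝ) < R n n := by exact_mod_cast R_pos (k := n) (l := n) hn hn
  have h1 : Real.log (R n n) ≤ Real.log (R m m) := by
    apply Real.log_le_log hR
    exact_mod_cast R_mono hnm hnm
  have h2 := diagRate_le n
  have e1 : Real.log (R n n) = n * diagRate n := by unfold diagRate; field_simp
  have e2 : Real.log (R m m) = m * diagRate m := by unfold diagRate; field_simp
  rw [e1, e2] at h1
  have h3 : diagRate n - diagRate m ≤ Real.log 4 * (m - n) / m := by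
    rw [le_div_iff₀ hm']
    nlinarith
  have e3 : Real.log 4 * (1 - (n : ℝ) / m) = Real.log 4 * (m - n) / m := by field_simp
  rw [e3]
  exact h3

end Pool.Agent.H107.SlowRam
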