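import Pool.Agent.V35.WM
import Pool.Agent.H107.MetricFam

/-!
# Windows and neighbourhoods without elements of countably many sparse sets
-/

set_option autoImplicit false

namespace Pool.Agent.H107.SI

open Pool.Agent.V35.WM

/-- the set `S` has at most `A R ^ s` elements of size at most `R` -/
def Sparse (S : Set ℤ) (s : ℝ) : Prop :=
  ∃ A : ℝ, ∀ R : ℝ, 1 ≤ R → ∀ F : Finset ℤ, (∀ x ∈ F, x ∈ S ∧ |(x : ℝ)| ≤ R) → (F.card : ℝ) ≤ A * R ^ s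

theorem ball_finite (S : Set ℤ) (X : ℝ) : {t : ℤ | t ∈ S ∧ |(t : ℝ)| ≤ X}.Finite := by
  apply (Set.finite_Icc (-⌈X⌉) ⌈X⌉).subset
  rintro z ⟨_, hz⟩
  rw [abs_le] at hz
  have h1 := Int.le_ceil X
  have h2 : (-(⌈X⌉ : ℝ)) ≤ z := by linarith [hz.1]
  have h3 : (z : ℝ) ≤ ⌈X⌉ := by linarith [hz.2]
  exact ⟨by exact_mod_cast h2, by exact_mod_cast h3⟩

theorem Sparse.count {S : Set ℤ} {s : ℝ} (h : Sparse S s) (ε : ℝ) (hε : 0 < ε) :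
    ∃ C : ℝ, 0 ≤ C ∧ ∀ X : ℝ, 1 ≤ X → {t : ℤ | t ∈ S ∧ |(t : ℝ)| ≤ X}.Finite ∧
      ({t : ℤ | t ∈ S ∧ |(t : ℝ)| ≤ X}.ncard : ℝ) ≤ C * X ^ (s + ε) := by
  obtain ⟨A, hA⟩ := h
  refine ⟨|A|, abs_nonneg _, fun X hX => ⟨ball_finite S X, ?_⟩⟩
  rw [Set.ncard_eq_toFinset_card _ (ball_finite S X)]
  refine (hA X hX _ fun x hx => ?_).trans ?_
  · exact (ball_finite S X).mem_toFinset.1 hx
  · have h1 : A * X ^ s ≤ |A| * X ^ s := mul_le_mul_of_nonneg_right (le_abs_self A) (by positivity)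
    refine h1.trans (mul_le_mul_of_nonneg_left ?_ (abs_nonneg A))
    exact Real.rpow_le_rpow_of_exponent_le hX (by linarith)

/-- windows -/
theorem win {J : Type} [Countable J] (S : J → Set ℤ) {s : ℝ} (hs : 0 ≤ s) (hS : ∀ j, Sparse (S j) s)
    {v : ℕ → ℝ} {τ θ : ℝ} (hpos : ∀ m, 1 ≤ v m) (hτ : 0 ≤ τ) (hv : ExpLe v τ) (hθ : θ < 1) :
    ∃ E : Set ℝ, dimH E ≤ ENNReal.ofReal ((s + τ) / (1 - θ)) ∧ ∀ α ∉ E, ∀ j, ∃ m₀ : ℕ, ∀ m : ℕ, m₀ ≤ m →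
      ∀ x ∈ S j, (v m) ^ θ < |(x : ℝ) - α * v m| := by
  refine ⟨⋃ j, BadWin (V := ℝ) (S j) (fun x => (x : ℝ)) v θ, ?_, fun α hα j => ?_⟩
  · rw [dimH_iUnion]
    refine iSup_le fun j => ?_
    refine dim_badWin hpos hτ hv hs hθ fun ε hε => ?_
    obtain ⟨C, _, hC⟩ := (hS j).count ε hε
    refine ⟨C, fun X hX => ?_⟩
    have h := hC X hX
    simpa [Real.norm_eq_abs] using h
  · have h1 : α ∉ BadWin (V := ℝ) (S j) (fun x => (x : ℝ)) v θ := fun h => hα (Set.mem_iUnion.2 ⟨j, h⟩)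
    unfold BadWin at h1
    rw [Set.mem_ofPred_eq] at h1
    push Not at h1
    obtain ⟨m₀, hm₀⟩ := h1
    refine ⟨m₀, fun m hm x hx => ?_⟩
    have h2 := hm₀ m hm x hx
    rw [Real.norm_eq_abs, smul_eq_mul, mul_comm] at h2
    exact h2

/-- neighbourhoods, for any map to a metric space -/
theorem near {J : Type} [Countable J] (S : J → Set ℤ) {s : ℝ} (hs : 0 ≤ s) (hS : ∀ j, Sparse (S j) s)
    {M : Type} [MetricSpace M] (φ : ℤ → M) {σ : ℝ} (hσ : 0 < σ) :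
    ∃ E : Set M, dimH E ≤ ENNReal.ofReal (s / σ) ∧ ∀ z ∉ E, ∀ j,
      {x : ℤ | x ∈ S j ∧ dist (φ x) z ≤ (max 1 |(x : ℝ)|) ^ (-σ)}.Finite := by
  obtain ⟨E, h1, h2⟩ := Pool.Agent.H107.ME.dim_family φ (fun x : ℤ => max 1 |(x : ℝ)|) (fun x => le_max_left _ _)
    hs hσ S (fun j ε hε => by
      obtain ⟨C, _, hC⟩ := (hS j).count ε hε
      refine ⟨C, fun X hX => ?_⟩
      have h := hC X hX
      have heq : {t : ℤ | t ∈ S j ∧ max 1 |(t : ℝ)| ≤ X} = {t : ℤ | t ∈ S j ∧ |(t : ℝ)| ≤ X} := by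
        ext t
        simp only [Set.mem_ofPred_eq, max_le_iff]
        tauto
      rw [heq]
      exact h)
  exact ⟨E, h1, h2⟩

end Pool.Agent.H107.SI
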