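import Pool.Agent.H107.MetricFam
import Pool.Agent.H107.NFCount
import Pool.Agent.Results.MP_4d5ce1_nt.ExceptionalSetExponents

set_option autoImplicit false

/-! Points of the projective line over a number field with a small truncated counting function. -/

namespace Pool.Agent.H107.VL

open NumberField IsDedekindDomain
open Pool.Agent.Results.MP_4d5ce1_nt.ExceptionalSetExponents (height counting exceptional expoThree)

variable {K : Type} [Field K] [NumberField K]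

lemma height_nonneg (y : K) : 0 ≤ height y := by
  unfold height
  apply div_nonneg _ (Nat.cast_nonneg _)
  apply add_nonneg
  · apply Finset.sum_nonneg
    intro w _
    apply mul_nonneg (Nat.cast_nonneg _)
    apply Real.log_nonneg
    refine le_trans ?_ (le_max_right _ _)
    simp
  · apply finsum_nonneg
    intro v
    apply Real.log_nonneg
    refine le_trans ?_ (le_max_right _ _)
    simp

/-- the exceptional `y` -/
def Exc (T : Set (HeightOneSpectrum (𝓞 K))) {q : ℕ} (α : Fin q → K × K) (κ c : ℝ) : Set K :=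
  {y | (∀ l, y * (α l).2 - 1 * (α l).1 ≠ 0) ∧ counting T α y < ((q : ℝ) - κ) * height y + c}

/-- the distinct points of the projective line -/
def Pts (K : Type) [Field K] [NumberField K] (q : ℕ) : Type :=
  {α : Fin q → K × K // (∀ i, α i ≠ 0) ∧ ∀ i j, i ≠ j → (α i).1 * (α j).2 - (α i).2 * (α j).1 ≠ 0}

lemma expoThree_nonneg (t : ℝ) (ht : t ≤ 3) : 0 ≤ expoThree t := by
  unfold expoThree
  by_cases h1 : t ≤ 1
  · rw [if_pos h1]; linarith
  rw [if_neg h1]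
  by_cases h2 : t ≤ 4 / 3
  · rw [if_pos h2]; linarith
  rw [if_neg h2]
  by_cases h3 : t ≤ 17 / 12
  · rw [if_pos h3]; linarith
  rw [if_neg h3]
  by_cases h4 : t ≤ 3 / 2
  · rw [if_pos h4]; linarith
  rw [if_neg h4]
  by_cases h5 : t ≤ 17 / 10
  · rw [if_pos h5]; linarith
  rw [if_neg h5]
  by_cases h6 : t ≤ 7 / 4
  · rw [if_pos h6]; linarith
  rw [if_neg h6]
  by_cases h7 : t ≤ 9 / 5
  · rw [if_pos h7]; linarith
  rw [if_neg h7]
  by_cases h8 : t ≤ 13 / 7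
  · rw [if_pos h8]; linarith
  rw [if_neg h8]
  by_cases h9 : t ≤ 19 / 10
  · rw [if_pos h9]; linarith
  rw [if_neg h9]
  by_cases h10 : t ≤ 8512 / 4185
  · rw [if_pos h10]; linarith
  rw [if_neg h10]
  by_cases h11 : t ≤ 94 / 45
  · rw [if_pos h11]; linarith
  rw [if_neg h11]
  by_cases h12 : t ≤ 47 / 22
  · rw [if_pos h12]; linarith
  rw [if_neg h12]
  by_cases h13 : t ≤ 24 / 11
  · rw [if_pos h13]; linarith
  rw [if_neg h13]
  linarith

lemma count {q : ℕ} (hq : 3 ≤ q) {κ : ℝ} (hκ0 : 0 ≤ κ) (hκ : κ ≤ q)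
    (T : Set (HeightOneSpectrum (𝓞 K))) (hT : T.Finite) (α : Pts K q) (c ε : ℝ) (hε : 0 < ε) :
    ∃ C : ℝ, ∀ X : ℝ, 1 ≤ X →
      {y | y ∈ Exc T α.1 κ c ∧ Real.exp (height y) ≤ X}.Finite ∧
      ({y | y ∈ Exc T α.1 κ c ∧ Real.exp (height y) ≤ X}.ncard : ℝ) ≤
        C * X ^ ((Module.finrank ℚ K : ℝ) * expoThree (3 * κ / q) + ε) := by
  obtain ⟨C, hC⟩ := (Pool.Agent.Results.MP_4d5ce1_nt.ExceptionalSetExponents.result K T hT q
    (by omega) α.1 α.2.1 α.2.2 κ c hκ0).2 hq hκ ε hε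
  refine ⟨C, fun X hX => ?_⟩
  have hset : {y | y ∈ Exc T α.1 κ c ∧ Real.exp (height y) ≤ X} = exceptional T α.1 κ c X := by
    ext y
    constructor
    · rintro ⟨⟨h1, h2⟩, h3⟩
      exact ⟨h1, h3, h2⟩
    · rintro ⟨h1, h3, h2⟩
      exact ⟨⟨h1, h2⟩, h3⟩
  rw [hset]
  exact hC X hX

/-- the parameters: a finite set of primes, distinct points and a natural number -/
abbrev J (K : Type) [Field K] [NumberField K] (q : ℕ) :=
  Finset (HeightOneSpectrum (𝓞 K)) × Pts K q × ℕ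

instance (q : ℕ) : Countable (J K q) := by
  have := Pool.Agent.H107.NF.countable_hos K
  have := Pool.Agent.H107.NF.countable_nf K
  have : Countable (Pts K q) := by
    unfold Pts
    infer_instance
  infer_instance

lemma rpow_exp (a σ : ℝ) : (Real.exp a) ^ (-σ) = Real.exp (-(σ * a)) := by
  rw [← Real.exp_mul]
  congr 1
  ring

lemma expo_nonneg {q : ℕ} (hq : 3 ≤ q) {κ : ℝ} (hκ : κ ≤ q) :
    0 ≤ (Module.finrank ℚ K : ℝ) * expoThree (3 * κ / q) := by
  have hqR : (0 : ℝ) < q := by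
    have : 0 < q := by omega
    exact_mod_cast this
  refine mul_nonneg (Nat.cast_nonneg _) (expoThree_nonneg _ ?_)
  rw [div_le_iff₀ hqR]
  linarith

/-- near a point of a metric space -/
theorem approx {M : Type*} [MetricSpace M] (φ : K → M) {q : ℕ} (hq : 3 ≤ q) {κ : ℝ} (hκ0 : 0 ≤ κ)
    (hκ : κ ≤ q) {σ : ℝ} (hσ : 0 < σ) :
    ∃ E : Set M, dimH E ≤ ENNReal.ofReal ((Module.finrank ℚ K : ℝ) * expoThree (3 * κ / q) / σ) ∧
      ∀ z ∉ E, ∀ T : Set (HeightOneSpectrum (𝓞 K)), T.Finite → ∀ α : Fin q → K × K,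
        (∀ i, α i ≠ 0) → (∀ i j, i ≠ j → (α i).1 * (α j).2 - (α i).2 * (α j).1 ≠ 0) → ∀ c : ℝ,
        {y : K | (∀ l, y * (α l).2 - 1 * (α l).1 ≠ 0) ∧
          dist (φ y) z ≤ Real.exp (-(σ * height y)) ∧
          counting T α y < ((q : ℝ) - κ) * height y + c}.Finite := by
  obtain ⟨E, hE1, hE2⟩ := Pool.Agent.H107.ME.dim_family φ (fun y : K => Real.exp (height y))
    (fun y => Real.one_le_exp (height_nonneg y)) (expo_nonneg (K := K) hq hκ) hσ (J := J K q)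
    (fun j => Exc (j.1 : Set (HeightOneSpectrum (𝓞 K))) j.2.1.1 κ j.2.2)
    (fun j ε hε => count hq hκ0 hκ _ j.1.finite_toSet j.2.1 _ ε hε)
  refine ⟨E, hE1, fun z hz T hT α hα0 hα c => ?_⟩
  obtain ⟨k, hk⟩ := exists_nat_ge c
  refine (hE2 z hz (hT.toFinset, ⟨α, hα0, hα⟩, k)).subset ?_
  rintro y ⟨g1, g3, g4⟩
  refine ⟨⟨g1, ?_⟩, ?_⟩
  · rw [Set.Finite.coe_toFinset]
    linarith
  · rw [rpow_exp]
    exact g3

/-- near almost every real number -/
theorem approx_ae (φ : K → ℝ) {q : ℕ} (hq : 3 ≤ q) {κ : ℝ} (hκ0 : 0 ≤ κ) (hκ : κ ≤ q) :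
    ∀ᵐ z : ℝ, ∀ σ : ℝ, (Module.finrank ℚ K : ℝ) * expoThree (3 * κ / q) < σ →
      ∀ T : Set (HeightOneSpectrum (𝓞 K)), T.Finite → ∀ α : Fin q → K × K,
        (∀ i, α i ≠ 0) → (∀ i j, i ≠ j → (α i).1 * (α j).2 - (α i).2 * (α j).1 ≠ 0) → ∀ c : ℝ,
        {y : K | (∀ l, y * (α l).2 - 1 * (α l).1 ≠ 0) ∧
          |φ y - z| ≤ Real.exp (-(σ * height y)) ∧
          counting T α y < ((q : ℝ) - κ) * height y + c}.Finite := by
  have h := Pool.Agent.H107.ME.ae_family φ (fun y : K => Real.exp (height y))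
    (fun y => Real.one_le_exp (height_nonneg y)) (expo_nonneg (K := K) hq hκ) (J := J K q)
    (fun j => Exc (j.1 : Set (HeightOneSpectrum (𝓞 K))) j.2.1.1 κ j.2.2)
    (fun j ε hε => count hq hκ0 hκ _ j.1.finite_toSet j.2.1 _ ε hε)
  filter_upwards [h] with z hz σ hσ T hT α hα0 hα c
  obtain ⟨k, hk⟩ := exists_nat_ge c
  refine (hz σ hσ (hT.toFinset, ⟨α, hα0, hα⟩, k)).subset ?_
  rintro y ⟨g1, g3, g4⟩
  refine ⟨⟨g1, ?_⟩, ?_⟩
  · rw [Set.Finite.coe_toFinset]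
    linarith
  · rw [rpow_exp]
    exact g3

end Pool.Agent.H107.VL
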