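import Pool.Agent.TH804.MS2
import Pool.Agent.TH158.FM.Main
import Pool.Agent.H107.RealWin

set_option autoImplicit false

/-! The number of the unit intervals on the critical line that contain a large value of zeta. -/

namespace Pool.Agent.H107.ZW

open MeasureTheory Filter Set

/-- `|ζ(1/2 + i t)|` -/
noncomputable def Z (t : ℝ) : ℝ := ‖riemannZeta (1 / 2 + t * Complex.I)‖

/-- the integers `n ≥ 1` such that `|ζ(1/2 + i t)| > t ^ κ` for some `t` in `[n, n + 1)` -/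
def Exc (κ : ℝ) : Set ℕ := {n | 1 ≤ n ∧ ∃ t : ℝ, (n : ℝ) ≤ t ∧ t < n + 1 ∧ t ^ κ < Z t}

lemma Z_nonneg (t : ℝ) : 0 ≤ Z t := norm_nonneg _

lemma ne_one (t : ℝ) : (1 / 2 + t * Complex.I : ℂ) ≠ 1 := by
  intro h
  have := congrArg Complex.re h
  norm_num at this

lemma cont_Z : Continuous Z := by
  unfold Z
  refine continuous_norm.comp ?_
  rw [continuous_iff_continuousAt]
  intro t
  have h1 : ContinuousAt riemannZeta (1 / 2 + t * Complex.I : ℂ) :=
    (differentiableAt_riemannZeta (ne_one t)).continuousAt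
  exact h1.comp (f := fun t : ℝ => (1 / 2 + t * Complex.I : ℂ)) (by fun_prop)

lemma fourth {T : ℝ} (hT : 1000 ≤ T) :
    ∫ t in (0:ℝ)..T, Z t ^ 4 ≤ 4 / 5 * (T * Real.log T ^ 4) := by
  have h1 := Pool.Agent.TH158.FM.fourth_all T hT
  have h2 : ∀ t : ℝ, ‖riemannZeta (Pool.Agent.TH158.FM.pt (1 / 2) t)‖ = Z t := by
    intro t
    unfold Z Pool.Agent.TH158.FM.pt
    push_cast
    rfl
  simpa only [h2] using h1

/-- the intervals around large values -/
lemma block {κ ε : ℝ} (hκ : 0 < κ) (hε : 0 < ε) (hε1 : ε ≤ 1) :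
    ∃ C Y₀ : ℝ, 0 ≤ C ∧ 1 ≤ Y₀ ∧ ∀ Y : ℝ, Y₀ ≤ Y → ∀ F : Finset ℕ,
      (∀ n ∈ F, n ∈ Exc κ ∧ Y ≤ n ∧ (n : ℝ) ≤ 2 * Y) → (F.card : ℝ) ≤ C * Y ^ (1 - 4 * κ + 5 * ε) := by
  classical
  obtain ⟨W, T₁, hW, hT₁, hL⟩ := Pool.Agent.TH804.MS.large_zeta hε hε1
  set M : ℝ := 2 * W + 7 with hM
  have hMpos : 0 < M := by positivity
  refine ⟨M * (4 / 5 * 3) * 3 ^ (4 * ε) * (3 ^ ε * (5 / ε) ^ 5), max T₁ (W + 1000), by positivity,
    le_trans (by norm_num) (hT₁.trans (le_max_left _ _)), fun Y hY F hF => ?_⟩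
  have hY1 : T₁ ≤ Y := (le_max_left _ _).trans hY
  have hY2 : W + 1000 ≤ Y := (le_max_right _ _).trans hY
  have hY0 : 0 < Y := by linarith
  set L : ℝ := Real.log (3 * Y) with hLdef
  have hL1 : 1 ≤ L := by
    rw [hLdef, Real.le_log_iff_exp_le (by positivity)]
    have := Real.exp_one_lt_d9
    linarith
  have hL0 : 0 < L := by linarith
  set z₀ : ℝ := (3 * Y) ^ (-ε) * Y ^ κ with hz₀
  have hz₀pos : 0 < z₀ := by positivity
  -- the intervals
  have hint : ∀ n ∈ F, ∃ T₀ : ℝ, |T₀ - n| ≤ W + 1 ∧ ∀ s : ℝ, |s - T₀| ≤ 1 / L → z₀ ≤ Z s := by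
    intro n hn
    obtain ⟨⟨h1, t, h2, h3, h4⟩, h5, h6⟩ := hF n hn
    have ht0 : 0 < t := by linarith
    have ht1 : 1 ≤ t := by linarith
    have hZ1 : 1 ≤ Z t := (Real.one_le_rpow ht1 hκ.le).trans h4.le
    obtain ⟨hD, T₀, g1, -, g2, -⟩ := hL t (by linarith) hZ1
    change 0 < (1 + ε) * Real.log t - 4 * Real.log (Z t) at hD
    refine ⟨T₀, ?_, fun s hs => ?_⟩
    · have g3 : |T₀ - n| ≤ |T₀ - t| + |t - n| := abs_sub_le _ _ _
      have g4 : |t - n| ≤ 1 := by
        rw [abs_le]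
        constructor <;> linarith
      linarith
    · have g3 : (1 + ε) * Real.log t - 4 * Real.log (Z t) ≤ 2 * L := by
        have g4 : Real.log t ≤ L := Real.log_le_log ht0 (by linarith)
        have g5 : 0 ≤ Real.log (Z t) := Real.log_nonneg hZ1
        have g6 : 0 ≤ Real.log t := Real.log_nonneg ht1
        nlinarith
      have g4 : 1 / L ≤ Real.pi / ((1 + ε) * Real.log t - 4 * Real.log (Z t)) := by
        rw [div_le_div_iff₀ hL0 hD]
        have := Real.pi_gt_three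
        nlinarith
      have g5 := g2 s (hs.trans g4)
      change t ^ (-ε) * Z t ≤ Z s at g5
      refine le_trans ?_ g5
      have g6 : (3 * Y) ^ (-ε) ≤ t ^ (-ε) :=
        Real.rpow_le_rpow_of_nonpos ht0 (by linarith) (by linarith)
      have g7 : Y ^ κ ≤ Z t := (Real.rpow_le_rpow hY0.le (by linarith) hκ.le).trans h4.le
      exact mul_le_mul g6 g7 (by positivity) (by positivity)
  choose! c hc1 hc2 using hint
  set a : ℝ := 1 / L with ha
  have ha0 : 0 < a := by positivity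
  have ha1 : a ≤ 1 := by
    rw [ha, div_le_one hL0]
    exact hL1
  set J : ℕ → Set ℝ := fun n => Icc (c n - a) (c n + a) with hJ
  have hJn : ∀ n ∈ F, ∀ s ∈ J n, |s - n| ≤ W + 2 := by
    intro n hn s hs
    have h1 : |s - c n| ≤ 1 := by
      rw [abs_le]
      constructor <;> linarith [hs.1, hs.2]
    have h2 := hc1 n hn
    have h3 : |s - n| ≤ |s - c n| + |c n - n| := abs_sub_le _ _ _
    linarith
  have hJz : ∀ n ∈ F, ∀ s ∈ J n, z₀ ≤ Z s := by
    intro n hn s hs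
    refine hc2 n hn s ?_
    rw [abs_le]
    constructor <;> linarith [hs.1, hs.2]
  set f : ℝ → ENNReal := fun s => ENNReal.ofReal (Z s ^ 4) with hf
  have hfm : Measurable f := ENNReal.measurable_ofReal.comp (cont_Z.pow 4).measurable
  -- lower bound for the sum of the integrals
  have hlow : (F.card : ENNReal) * (ENNReal.ofReal (z₀ ^ 4) * ENNReal.ofReal (2 * a)) ≤
      ∑ n ∈ F, ∫⁻ s in J n, f s := by
    rw [← nsmul_eq_mul, ← Finset.sum_const]
    refine Finset.sum_le_sum (fun n hn => ?_)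
    have h1 : volume (J n) = ENNReal.ofReal (2 * a) := by
      rw [hJ, Real.volume_Icc]
      congr 1
      ring
    calc ENNReal.ofReal (z₀ ^ 4) * ENNReal.ofReal (2 * a) = ∫⁻ _ in J n, ENNReal.ofReal (z₀ ^ 4) := by
          rw [setLIntegral_const, h1]
      _ ≤ ∫⁻ s in J n, f s := by
          refine setLIntegral_mono hfm (fun s hs => ?_)
          exact ENNReal.ofReal_le_ofReal (pow_le_pow_left₀ hz₀pos.le (hJz n hn s hs) 4)
  -- upper bound
  have hup : ∑ n ∈ F, ∫⁻ s in J n, f s ≤ ENNReal.ofReal M * ∫⁻ s in Ioc 0 (3 * Y), f s := by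
    have h1 : ∑ n ∈ F, ∫⁻ s in J n, f s = ∫⁻ s, ∑ n ∈ F, (J n).indicator f s := by
      rw [lintegral_finsetSum _ (fun n _ => hfm.indicator measurableSet_Icc)]
      refine Finset.sum_congr rfl (fun n _ => ?_)
      rw [lintegral_indicator measurableSet_Icc]
    rw [h1, ← lintegral_const_mul _ hfm, ← lintegral_indicator measurableSet_Ioc]
    refine lintegral_mono (fun s => ?_)
    by_cases hs : s ∈ Ioc (0:ℝ) (3 * Y)
    · rw [indicator_of_mem hs]
      have h2 : ∑ n ∈ F, (J n).indicator f s = ∑ n ∈ F.filter (fun n => s ∈ J n), f s := by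
        rw [Finset.sum_filter]
        refine Finset.sum_congr rfl (fun n _ => ?_)
        by_cases hsn : s ∈ J n
        · rw [indicator_of_mem hsn, if_pos hsn]
        · rw [indicator_of_notMem hsn, if_neg hsn]
      rw [h2, Finset.sum_const, nsmul_eq_mul]
      gcongr
      have h3 : ((F.filter (fun n => s ∈ J n)).card : ℝ) ≤ M := by
        have h4 : F.filter (fun n => s ∈ J n) ⊆ Finset.Icc ⌈s - (W + 2)⌉₊ ⌊s + (W + 2)⌋₊ := by
          intro n hn
          rw [Finset.mem_filter] at hn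
          have h5 := hJn n hn.1 s hn.2
          rw [abs_le] at h5
          rw [Finset.mem_Icc]
          constructor
          · rw [Nat.ceil_le]
            linarith
          · exact Nat.le_floor (by linarith)
        have h5 := Finset.card_le_card h4
        rw [Nat.card_Icc] at h5
        have h6 : ((⌊s + (W + 2)⌋₊ + 1 - ⌈s - (W + 2)⌉₊ : ℕ) : ℝ) ≤ M := by
          rcases le_total ⌈s - (W + 2)⌉₊ (⌊s + (W + 2)⌋₊ + 1) with h7 | h7
          · rw [Nat.cast_sub h7]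
            push_cast
            have h8 : (⌊s + (W + 2)⌋₊ : ℝ) ≤ s + (W + 2) := Nat.floor_le (by linarith [hs.1])
            have h9 : s - (W + 2) ≤ (⌈s - (W + 2)⌉₊ : ℝ) := Nat.le_ceil _
            linarith
          · rw [Nat.sub_eq_zero_of_le h7]
            push_cast
            exact hMpos.le
        exact (by exact_mod_cast h5 : ((F.filter (fun n => s ∈ J n)).card : ℝ) ≤
          ((⌊s + (W + 2)⌋₊ + 1 - ⌈s - (W + 2)⌉₊ : ℕ) : ℝ)).trans h6
      calc ((F.filter (fun n => s ∈ J n)).card : ENNReal)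
          = ENNReal.ofReal ((F.filter (fun n => s ∈ J n)).card : ℝ) := by
            rw [ENNReal.ofReal_natCast]
        _ ≤ ENNReal.ofReal M := ENNReal.ofReal_le_ofReal h3
    · rw [indicator_of_notMem hs]
      refine le_of_eq (Finset.sum_eq_zero (fun n hn => ?_))
      apply indicator_of_notMem
      intro hsn
      apply hs
      have h2 := hJn n hn s hsn
      rw [abs_le] at h2
      obtain ⟨-, h5, h6⟩ := hF n hn
      constructor <;> linarith
  -- the fourth moment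
  have hfour : ∫⁻ s in Ioc 0 (3 * Y), f s ≤ ENNReal.ofReal (4 / 5 * (3 * Y * L ^ 4)) := by
    have h1 : IntegrableOn (fun s => Z s ^ 4) (Ioc 0 (3 * Y)) := by
      refine ((cont_Z.pow 4).continuousOn.integrableOn_Icc (a := 0) (b := 3 * Y)).mono_set Ioc_subset_Icc_self
    rw [← ofReal_integral_eq_lintegral_ofReal h1 (ae_of_all _ fun s => by positivity)]
    apply ENNReal.ofReal_le_ofReal
    have h2 := fourth (T := 3 * Y) (by linarith)
    rwa [intervalIntegral.integral_of_le (by positivity)] at h2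
  -- conclusion
  have hfin : (F.card : ℝ) * (z₀ ^ 4 * (2 * a)) ≤ M * (4 / 5 * (3 * Y * L ^ 4)) := by
    have h1 := hlow.trans (hup.trans (mul_le_mul_right hfour _))
    rw [← ENNReal.ofReal_natCast, ← ENNReal.ofReal_mul (by positivity), ← ENNReal.ofReal_mul (by positivity),
      ← ENNReal.ofReal_mul hMpos.le] at h1
    exact (ENNReal.ofReal_le_ofReal_iff (by positivity)).1 h1
  have hL5 : L ^ 5 ≤ (3 * Y) ^ ε * (5 / ε) ^ 5 := by
    have h1 : L ≤ (3 * Y) ^ (ε / 5) / (ε / 5) := Real.log_le_rpow_div (by positivity) (by positivity)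
    have h2 : L ^ 5 ≤ ((3 * Y) ^ (ε / 5) / (ε / 5)) ^ 5 := pow_le_pow_left₀ hL0.le h1 5
    refine h2.trans (le_of_eq ?_)
    rw [div_pow, ← Real.rpow_natCast ((3 * Y) ^ (ε / 5)) 5, ← Real.rpow_mul (by positivity)]
    have h3 : ε / 5 * ((5 : ℕ) : ℝ) = ε := by push_cast; ring
    rw [h3]
    field_simp
  have hz4 : z₀ ^ 4 = 3 ^ (-(4 * ε)) * Y ^ (4 * κ - 4 * ε) := by
    have h3 : (3 * Y) ^ (-ε) = 3 ^ (-ε) * Y ^ (-ε) := Real.mul_rpow (by norm_num) hY0.le
    rw [hz₀, h3]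
    have h4 : (3 : ℝ) ^ (-ε) * Y ^ (-ε) * Y ^ κ = 3 ^ (-ε) * Y ^ (κ - ε) := by
      rw [mul_assoc, ← Real.rpow_add hY0]
      congr 2
      ring
    rw [h4, mul_pow, ← Real.rpow_natCast (3 ^ (-ε) : ℝ) 4, ← Real.rpow_natCast (Y ^ (κ - ε)) 4,
      ← Real.rpow_mul (by norm_num), ← Real.rpow_mul hY0.le]
    congr 2 <;> push_cast <;> ring
  have h1 : (F.card : ℝ) * z₀ ^ 4 ≤ M * (4 / 5 * (3 * Y)) * L ^ 5 := by
    have h2 : (F.card : ℝ) * z₀ ^ 4 ≤ (F.card : ℝ) * (z₀ ^ 4 * (2 * a)) * L := by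
      have h3 : (F.card : ℝ) * (z₀ ^ 4 * (2 * a)) * L = 2 * ((F.card : ℝ) * z₀ ^ 4) := by
        rw [ha]
        field_simp
      rw [h3]
      have : 0 ≤ (F.card : ℝ) * z₀ ^ 4 := by positivity
      linarith
    calc (F.card : ℝ) * z₀ ^ 4 ≤ (F.card : ℝ) * (z₀ ^ 4 * (2 * a)) * L := h2
      _ ≤ M * (4 / 5 * (3 * Y * L ^ 4)) * L := mul_le_mul_of_nonneg_right hfin hL0.le
      _ = M * (4 / 5 * (3 * Y)) * L ^ 5 := by ring
  have h2 : (F.card : ℝ) ≤ M * (4 / 5 * (3 * Y)) * L ^ 5 / z₀ ^ 4 := by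
    rw [le_div_iff₀ (by positivity)]
    exact h1
  refine h2.trans ?_
  rw [div_le_iff₀ (by positivity), hz4]
  have h3 : (3 * Y) ^ ε = 3 ^ ε * Y ^ ε := Real.mul_rpow (by norm_num) hY0.le
  calc M * (4 / 5 * (3 * Y)) * L ^ 5 ≤ M * (4 / 5 * (3 * Y)) * ((3 * Y) ^ ε * (5 / ε) ^ 5) :=
        mul_le_mul_of_nonneg_left hL5 (by positivity)
    _ = M * (4 / 5 * 3) * (3 ^ ε * (5 / ε) ^ 5) * (Y * Y ^ ε) := by rw [h3]; ring
    _ = M * (4 / 5 * 3) * (3 ^ ε * (5 / ε) ^ 5) * (Y ^ (1 - 4 * κ + 5 * ε) * Y ^ (4 * κ - 4 * ε)) := by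
        congr 1
        rw [← Real.rpow_add hY0]
        conv_lhs => rw [← Real.rpow_one Y]
        rw [Real.rpow_one, ← Real.rpow_one_add' hY0.le (by linarith)]
        congr 1
        ring
    _ = M * (4 / 5 * 3) * 3 ^ (4 * ε) * (3 ^ ε * (5 / ε) ^ 5) * Y ^ (1 - 4 * κ + 5 * ε) *
        (3 ^ (-(4 * ε)) * Y ^ (4 * κ - 4 * ε)) := by
        have h5 : (3 : ℝ) ^ (4 * ε) * 3 ^ (-(4 * ε)) = 1 := by
          rw [← Real.rpow_add (by norm_num)]
          simp
        linear_combination (-(M * (4 / 5 * 3) * (3 ^ ε * (5 / ε) ^ 5) * Y ^ (1 - 4 * κ + 5 * ε) *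
          Y ^ (4 * κ - 4 * ε))) * h5

end Pool.Agent.H107.ZW
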